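import Pool.Agent.H.MP_cba12a_lc.Algo8

/-!
The learner for unate DNF formulas in which every variable occurs in at most `k` terms.
-/

namespace Pool.Agent.H.MP_cba12a_lc.RK

open Pool.Agent.H.MP_5be563_lc.PT Pool.Agent.H.MP_cba12a_lc

/-- the visible variables: they occur together with the variable of `l0` in a term -/
def vis (κ : ℕ) (V : List Lit) (S : Samples) (h : List (List Lit)) (l0 : Lit) : List Lit :=
  V.filter fun l => !(l.1 == l0.1) && decide (3 * pcnt S h l0 [] ≤
    κ * (pcnt S h l0 [l] - pcnt S (strip l h) l0 [neg l]))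

/-- the variables with a large influence in the subcube `A` -/
def qls (Θ : ℕ) (V : List Lit) (S : Samples) (A : List Lit) : List Lit :=
  V.filter fun l => (A.all fun l' => !(l'.1 == l.1)) &&
    decide (cnt S true A [] + cnt S false A [] ≤ Θ * pcnt S [] l A)

/-- extensions of `Z` by a small set of literals of `U` and a set of frequent literals -/
def extR (N a : ℕ) (V U : List Lit) (S : Samples) (h : List (List Lit)) (l0 : Lit)
    (Z : List Lit) : List (List Lit) :=
  (seeds N a U).flatMap fun S1 => (subs N (freq4 V S h l0 (S1 ++ Z))).map fun W => W ++ (S1 ++ Z)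

/-- the candidates with the literal `l0` -/
def candR (N a Θ κ : ℕ) (V : List Lit) (S : Samples) (h : List (List Lit)) (l0 : Lit) :
    List (List Lit) :=
  (extR N a V (vis κ V S h l0) S h l0 []).flatMap fun A =>
    (extR N a V (qls Θ V S A) S h l0 A).map fun C => l0 :: C

/-- the candidates which pass the test -/
def goodR (A B N a Θ κ : ℕ) (V : List Lit) (S : Samples) (h : List (List Lit)) :
    List (List Lit) :=
  (V.flatMap fun l0 => candR N a Θ κ V S h l0).filter fun C => acc8 A B S h C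

/-- one round -/
def stepR (A B N a Θ κ : ℕ) (V : List Lit) (S : Samples) (h : List (List Lit)) :
    List (List Lit) := (goodR A B N a Θ κ V S h).take 1 ++ h

/-- all rounds -/
def coreR (A B R N a Θ κ : ℕ) (V : List Lit) (S : Samples) : List (List Lit) :=
  (stepR A B N a Θ κ V S)^[R] []

/-! ### Size invariants -/

/- PROOF. As `mem_good4`: `bd_seeds`, `bd_subs`; `freq4`, `vis`, `qls` are sublists of `V`. -/
theorem mem_extR {N a : ℕ} {V U : List Lit} {S : Samples} {h : List (List Lit)} {l0 : Lit}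
    {Z C : List Lit} (hU : ∀ l ∈ U, l ∈ V) (hZ : ∀ l ∈ Z, l ∈ V)
    (hC : C ∈ extR N a V U S h l0 Z) :
    C.length ≤ V.length + a + Z.length ∧ ∀ l ∈ C, l ∈ V := by
  unfold extR at hC
  obtain ⟨S1, hS1, hC⟩ := List.mem_flatMap.1 hC
  obtain ⟨W, hW, rfl⟩ := List.mem_map.1 hC
  have hS1' := (bd_seeds N a U).2 S1 hS1
  have hW' := (bd_subs N V (freq4 V S h l0 (S1 ++ Z))
    (fun l hl => (List.mem_filter.1 hl).1)).2 W hW
  have : (freq4 V S h l0 (S1 ++ Z)).length ≤ V.length := List.length_filter_le _ _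
  refine ⟨by rw [List.length_append, List.length_append]; omega, ?_⟩
  intro l hl
  rcases List.mem_append.1 hl with hl | hl
  · exact hW'.2 l hl
  · rcases List.mem_append.1 hl with hl | hl
    · exact hU l (hS1'.2 l hl)
    · exact hZ l hl

theorem mem_goodR {A B N a Θ κ : ℕ} {V : List Lit} {S : Samples} {h : List (List Lit)}
    {C : List Lit} (hC : C ∈ goodR A B N a Θ κ V S h) :
    (C.length ≤ 2 * V.length + 2 * a + 1 ∧ ∀ l ∈ C, l ∈ V) ∧ acc8 A B S h C = true := by
  unfold goodR at hC
  obtain ⟨h1, h2⟩ := List.mem_filter.1 hC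
  refine ⟨?_, h2⟩
  obtain ⟨l0, hl0, h1⟩ := List.mem_flatMap.1 h1
  unfold candR at h1
  obtain ⟨Z, hZ, h1⟩ := List.mem_flatMap.1 h1
  obtain ⟨W, hW, rfl⟩ := List.mem_map.1 h1
  have hZ' := mem_extR (fun l hl => by unfold vis at hl; exact (List.mem_filter.1 hl).1)
    (fun l hl => absurd hl (List.not_mem_nil)) hZ
  have hW' := mem_extR (fun l hl => by unfold qls at hl; exact (List.mem_filter.1 hl).1)
    hZ'.2 hW
  have h3 := hZ'.1
  have h4 := hW'.1
  rw [List.length_nil] at h3
  refine ⟨by rw [List.length_cons]; omega, ?_⟩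
  intro l hl
  rcases List.mem_cons.1 hl with rfl | hl
  · exact hl0
  · exact hW'.2 l hl

theorem bd_stepR {A B N a Θ κ m : ℕ} {V : List Lit} {S : Samples} {h : List (List Lit)}
    (hh : Bd m (2 * V.length + 2 * a + 1) V h) :
    Bd (m + 1) (2 * V.length + 2 * a + 1) V (stepR A B N a Θ κ V S h) := by
  unfold stepR
  refine ⟨?_, ?_⟩
  · have h1 := hh.1
    have h2 : (List.take 1 (goodR A B N a Θ κ V S h)).length ≤ 1 := List.length_take_le _ _
    rw [List.length_append]
    omega
  · intro C hC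
    rcases List.mem_append.1 hC with hC | hC
    · exact (mem_goodR (List.mem_of_mem_take hC)).1
    · exact hh.2 C hC

theorem bd_coreR (A B N a Θ κ : ℕ) (V : List Lit) (S : Samples) (j : ℕ) :
    Bd j (2 * V.length + 2 * a + 1) V ((stepR A B N a Θ κ V S)^[j] []) := by
  induction j with
  | zero => exact ⟨by simp, by simp⟩
  | succ j ih => rw [Function.iterate_succ_apply']; exact bd_stepR ih

/-! ### Polynomial time -/

section poly

variable {α : Type} [Enc α]

@[fun_prop]
theorem poly_vis {κ : α → ℕ} {V : α → List Lit} {S : α → Samples} {h : α → List (List Lit)}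
    {l : α → Lit} (hκ : Poly κ) (hV : Poly V) (hS : Poly S) (hh : Poly h) (hl : Poly l) :
    Poly (fun a => vis (κ a) (V a) (S a) (h a) (l a)) := by
  unfold vis
  fun_prop

@[fun_prop]
theorem poly_qls {Θ : α → ℕ} {V : α → List Lit} {S : α → Samples} {A : α → List Lit}
    (hΘ : Poly Θ) (hV : Poly V) (hS : Poly S) (hA : Poly A) :
    Poly (fun a => qls (Θ a) (V a) (S a) (A a)) := by
  unfold qls
  fun_prop

@[fun_prop]
theorem poly_extR {N a : α → ℕ} {V U : α → List Lit} {S : α → Samples}
    {h : α → List (List Lit)} {l : α → Lit} {Z : α → List Lit} (hN : Poly N) (ha : Poly a)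
    (hV : Poly V) (hU : Poly U) (hS : Poly S) (hh : Poly h) (hl : Poly l) (hZ : Poly Z) :
    Poly (fun p => extR (N p) (a p) (V p) (U p) (S p) (h p) (l p) (Z p)) := by
  unfold extR
  fun_prop

@[fun_prop]
theorem poly_candR {N a Θ κ : α → ℕ} {V : α → List Lit} {S : α → Samples}
    {h : α → List (List Lit)} {l : α → Lit} (hN : Poly N) (ha : Poly a) (hΘ : Poly Θ)
    (hκ : Poly κ) (hV : Poly V) (hS : Poly S) (hh : Poly h) (hl : Poly l) :
    Poly (fun p => candR (N p) (a p) (Θ p) (κ p) (V p) (S p) (h p) (l p)) := by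
  unfold candR
  fun_prop

@[fun_prop]
theorem poly_goodR {A B N a Θ κ : α → ℕ} {V : α → List Lit} {S : α → Samples}
    {h : α → List (List Lit)} (hA : Poly A) (hB : Poly B) (hN : Poly N) (ha : Poly a)
    (hΘ : Poly Θ) (hκ : Poly κ) (hV : Poly V) (hS : Poly S) (hh : Poly h) :
    Poly (fun p => goodR (A p) (B p) (N p) (a p) (Θ p) (κ p) (V p) (S p) (h p)) := by
  unfold goodR
  fun_prop

@[fun_prop]
theorem poly_stepR {A B N a Θ κ : α → ℕ} {V : α → List Lit} {S : α → Samples}
    {h : α → List (List Lit)} (hA : Poly A) (hB : Poly B) (hN : Poly N) (ha : Poly a)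
    (hΘ : Poly Θ) (hκ : Poly κ) (hV : Poly V) (hS : Poly S) (hh : Poly h) :
    Poly (fun p => stepR (A p) (B p) (N p) (a p) (Θ p) (κ p) (V p) (S p) (h p)) := by
  unfold stepR
  fun_prop

/- PROOF. As `poly_core4` (size bound from `bd_coreR`). -/
@[fun_prop]
theorem poly_coreR {A B R N a Θ κ : α → ℕ} {V : α → List Lit} {S : α → Samples}
    (hA : Poly A) (hB : Poly B) (hR : Poly R) (hN : Poly N) (ha : Poly a)
    (hΘ : Poly Θ) (hκ : Poly κ) (hV : Poly V) (hS : Poly S) :
    Poly (fun p => coreR (A p) (B p) (R p) (N p) (a p) (Θ p) (κ p) (V p) (S p)) := by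
  unfold coreR
  refine Poly.iterate (f := fun p L => stepR (A p) (B p) (N p) (a p) (Θ p) (κ p) (V p) (S p) L)
    (s := fun _ => []) (n := R)
    (B := fun p => sz (R p) * ((2 * sz (V p) + 2 * sz (a p) + 1) * (sz (V p) + 1) + 2) + 1)
    (by fun_prop) (by fun_prop) hR ?_ ?_
  · exact (hR.sz_le.mul ((((((PBdd.const 2).mul hV.sz_le).add ((PBdd.const 2).mul ha.sz_le)).add
      (PBdd.const 1)).mul (hV.sz_le.add (PBdd.const 1))).add (PBdd.const 2))).add
      (PBdd.const 1)
  · intro p j hj
    have h := (bd_coreR (A p) (B p) (N p) (a p) (Θ p) (κ p) (V p) (S p) j).mono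
      (m' := sz (R p)) (k' := 2 * sz (V p) + 2 * sz (a p) + 1) ?_ ?_
    · exact h.sz_le
    · refine hj.trans ?_
      simp only [sz_nat]; omega
    · have := length_lt_sz (V p)
      simp only [sz_nat]
      omega

end poly

end Pool.Agent.H.MP_cba12a_lc.RK
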