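import Pool.Agent.H.MP_cba12a_lc.Final8
import Pool.Agent.H.MP_cba12a_lc.Final4

/-!
Definitions for the learner of unate DNF formulas in which every variable occurs in at most `k`
terms, `k` growing.
-/

namespace Pool.Agent.H.MP_cba12a_lc.RK

open Finset Pool.Agent.H.MP_cba12a_lc

variable {n : ℕ}

/-- `F` is a DNF formula for `q` with literals oriented by `o`, in which every variable occurs in
at most `k` terms and every term has at most `L` variables -/
structure RefF (o : Fin n → Bool) (q : (Fin n → Bool) → Bool) (F : Finset (Finset (Fin n)))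
    (k L : ℕ) : Prop where
  up : Up o q
  iff : ∀ x, q x = true ↔ ∃ T ∈ F, On o T x
  read : ∀ i, (F.filter fun T => i ∈ T).card ≤ k
  len : ∀ T ∈ F, T.card ≤ L

/-- all literals of `h` are oriented by `o` -/
def OrL (o : Fin n → Bool) (h : List (List Lit)) : Prop :=
  ∀ D ∈ h, ∀ l ∈ D, ∃ i : Fin n, l = ((i : ℕ), o i)

open Classical in
/-- the variables of `J` outside `T` which would complete a set of `𝓕` -/
noncomputable def blk (o : Fin n → Bool) (𝓕 : Finset (Finset (Fin n))) (J T : Finset (Fin n))
    (x : Fin n → Bool) : Finset (Fin n) :=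
  J.filter fun j => j ∉ T ∧ ∃ S ∈ 𝓕, j ∈ S ∧ On o (S.erase j) x

open Classical in
/-- the variables outside `T` which would complete a set of `𝓕` that has at most `r` elements
outside `T` -/
noncomputable def blkS (o : Fin n → Bool) (𝓕 : Finset (Finset (Fin n))) (T : Finset (Fin n))
    (r : ℕ) (x : Fin n → Bool) : Finset (Fin n) :=
  univ.filter fun j => j ∉ T ∧ ∃ S ∈ 𝓕, (S \ T).card ≤ r ∧ j ∈ S ∧ On o (S.erase j) x

open Classical in
/-- the variables of `J` outside `T` which would complete a set of `𝓕` that has more than `r`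
elements outside `T` -/
noncomputable def blkL (o : Fin n → Bool) (𝓕 : Finset (Finset (Fin n))) (J T : Finset (Fin n))
    (r : ℕ) (x : Fin n → Bool) : Finset (Fin n) :=
  J.filter fun j => j ∉ T ∧ ∃ S ∈ 𝓕, r < (S \ T).card ∧ j ∈ S ∧ On o (S.erase j) x

/-- the points outside `h` at which `(i, o i)` is pivotal for `q` -/
def pvS (o : Fin n → Bool) (q : (Fin n → Bool) → Bool) (h : List (List Lit)) (i : Fin n) :
    Finset (Fin n → Bool) := univ.filter fun x => pv q h i (o i) [] x = true

open Classical in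
/-- the points outside `h` at which `(i, o i)` is pivotal and `T` is the first satisfied term -/
noncomputable def fstT (o : Fin n → Bool) (q : (Fin n → Bool) → Bool)
    (F : Finset (Finset (Fin n))) (rk : Finset (Fin n) → ℕ) (h : List (List Lit)) (i : Fin n)
    (T : Finset (Fin n)) : Finset (Fin n → Bool) :=
  univ.filter fun x => pv q h i (o i) [] x = true ∧ On o T x ∧ ∀ S ∈ F, rk S < rk T → ¬ On o S x

/-- the terms which do not hold at the points of `fstT` -/
def forb (F : Finset (Finset (Fin n))) (rk : Finset (Fin n) → ℕ) (i : Fin n)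
    (T : Finset (Fin n)) : Finset (Finset (Fin n)) := F.filter fun S => i ∉ S ∨ rk S < rk T

/-- the pivotal points with `x j` on -/
def cU (o : Fin n → Bool) (q : (Fin n → Bool) → Bool) (h : List (List Lit)) (i j : Fin n) :
    Finset (Fin n → Bool) := univ.filter fun x => pv q h i (o i) [] x = true ∧ x j = o j

/-- the points with `x j` off at which `(i, o i)` is pivotal for `q`, and which stay outside `h`
when `j` is switched on -/
def cD (o : Fin n → Bool) (q : (Fin n → Bool) → Bool) (h : List (List Lit)) (i j : Fin n) :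
    Finset (Fin n → Bool) := univ.filter fun x => x j = !(o j) ∧ x i = o i ∧ q x = true ∧
      q (flp i x) = false ∧ satD (List.ofFn (flp j x)) h = false

/-- the number `|cU| - |cD|`, as a fraction of the cube: a signal for the variables which occur
together with `i` in a term -/
noncomputable def beta (o : Fin n → Bool) (q : (Fin n → Bool) → Bool) (h : List (List Lit))
    (i j : Fin n) : ℝ := (((cU o q h i j).card : ℝ) - ((cD o q h i j).card : ℝ)) / 2 ^ n

open Classical in
/-- the terms through `i` whose event `fstT` is rare in the subcube of the term -/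
noncomputable def badT (o : Fin n → Bool) (q : (Fin n → Bool) → Bool)
    (F : Finset (Finset (Fin n))) (rk : Finset (Fin n) → ℕ) (s : ℕ) (h : List (List Lit))
    (i : Fin n) : Finset (Finset (Fin n)) :=
  F.filter fun T => i ∈ T ∧ ¬ (2 ^ n ≤ 2 ^ s * (2 ^ T.card * (fstT o q F rk h i T).card))

/-- the mass of the bad terms -/
noncomputable def badM (o : Fin n → Bool) (q : (Fin n → Bool) → Bool)
    (F : Finset (Finset (Fin n))) (rk : Finset (Fin n) → ℕ) (s : ℕ) (h : List (List Lit))
    (i : Fin n) : ℕ := ∑ T ∈ badT o q F rk s h i, (fstT o q F rk h i T).card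

/-- the probability that the points of the subcube of `A` are pivotal for `j` -/
noncomputable def inf (o : Fin n → Bool) (q : (Fin n → Bool) → Bool) (A : Finset (Fin n))
    (j : Fin n) : ℝ := pr fun x => On o A x ∧ x j = o j ∧ q x = true ∧ q (flp j x) = false

section mem

variable {o : Fin n → Bool} {q : (Fin n → Bool) → Bool} {F 𝓕 : Finset (Finset (Fin n))}
  {rk : Finset (Fin n) → ℕ} {h : List (List Lit)} {i j : Fin n} {J T S : Finset (Fin n)}
  {r s : ℕ} {x : Fin n → Bool}

theorem mem_blk : j ∈ blk o 𝓕 J T x ↔ j ∈ J ∧ j ∉ T ∧ ∃ S ∈ 𝓕, j ∈ S ∧ On o (S.erase j) x := by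
  classical
  unfold blk
  rw [mem_filter]

theorem mem_blkS : j ∈ blkS o 𝓕 T r x ↔
    j ∉ T ∧ ∃ S ∈ 𝓕, (S \ T).card ≤ r ∧ j ∈ S ∧ On o (S.erase j) x := by
  classical
  unfold blkS
  rw [mem_filter]
  simp

theorem mem_blkL : j ∈ blkL o 𝓕 J T r x ↔
    j ∈ J ∧ j ∉ T ∧ ∃ S ∈ 𝓕, r < (S \ T).card ∧ j ∈ S ∧ On o (S.erase j) x := by
  classical
  unfold blkL
  rw [mem_filter]

theorem mem_pvS : x ∈ pvS o q h i ↔ pv q h i (o i) [] x = true := by
  unfold pvS
  rw [mem_filter]
  simp

theorem mem_fstT : x ∈ fstT o q F rk h i T ↔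
    pv q h i (o i) [] x = true ∧ On o T x ∧ ∀ S ∈ F, rk S < rk T → ¬ On o S x := by
  classical
  unfold fstT
  rw [mem_filter]
  simp

theorem mem_forb : S ∈ forb F rk i T ↔ S ∈ F ∧ (i ∉ S ∨ rk S < rk T) := by
  unfold forb
  rw [mem_filter]

theorem mem_cU : x ∈ cU o q h i j ↔ pv q h i (o i) [] x = true ∧ x j = o j := by
  unfold cU
  rw [mem_filter]
  simp

theorem mem_cD : x ∈ cD o q h i j ↔ x j = !(o j) ∧ x i = o i ∧ q x = true ∧
    q (flp i x) = false ∧ satD (List.ofFn (flp j x)) h = false := by
  unfold cD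
  rw [mem_filter]
  simp

theorem mem_badT : T ∈ badT o q F rk s h i ↔ T ∈ F ∧ i ∈ T ∧
    ¬ (2 ^ n ≤ 2 ^ s * (2 ^ T.card * (fstT o q F rk h i T).card)) := by
  unfold badT
  rw [mem_filter]

end mem

end Pool.Agent.H.MP_cba12a_lc.RK
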