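import Pool.Agent.H.MP_cba12a_lc.RK.Algo
import Pool.Agent.H.MP_cba12a_lc.RK.Defs

/-!
The greedy cover with candidates which depend on the hypothesis.
-/

namespace Pool.Agent.H.MP_cba12a_lc.RK

open Finset Pool.Agent.H.MP_cba12a_lc

variable {n m : ℕ} {o : Fin n → Bool} {f q : (Fin n → Bool) → Bool} {ω : Fin m → Fin n → Bool}
  {R : ℕ} {τ : ℝ} {V : List Lit}

/-- the greedy cover -/
theorem coreR_spec {A B N a Θ κ : ℕ} (hm : 0 < m) (hA : 0 < A) (hB : 0 < B) (hτ : 0 < τ)
    (hrep : Rep f ω R τ) (hR : 1 < R * (1 / B - τ)) (hV : ∀ l ∈ V, l.1 < n) :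
    ∃ H, coreR A B R N a Θ κ V (smp f ω) = H ∧ H.length ≤ R ∧ (∀ D ∈ H, ∀ l ∈ D, l ∈ V) ∧
      mu (fpE f H) ≤ 1 / A + R * (2 * τ) ∧ goodR A B N a Θ κ V (smp f ω) H = [] := by
  have hA' : (1 : ℝ) ≤ A := by exact_mod_cast hA
  set H : ℕ → List (List Lit) := fun j => (stepR A B N a Θ κ V (smp f ω))^[j] [] with hH
  have hsucc : ∀ j, H (j + 1) = stepR A B N a Θ κ V (smp f ω) (H j) := by
    intro j
    simp only [hH]
    rw [Function.iterate_succ_apply']
  have hbd : ∀ j, Bd j (2 * V.length + 2 * a + 1) V (H j) := fun j =>
    bd_coreR A B N a Θ κ V (smp f ω) j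
  have hlits : ∀ j, ∀ D ∈ H j, ∀ l ∈ D, l.1 < n := fun j D hD l hl =>
    hV l (((hbd j).2 D hD).2 l hl)
  have hgain : ∀ j, j ≤ R → mu (fpE f (H j)) ≤
      1 / A * (1 - mu (ev f true [] (H j))) + j * (2 * τ) ∧
      ((∀ i < j, goodR A B N a Θ κ V (smp f ω) (H i) ≠ []) →
      mu (ev f true [] (H j)) ≤ 1 - j * (1 / B - τ)) := by
    intro j
    induction j with
    | zero =>
      intro _
      have h1 := mu_le_one (ev f true [] (H 0))
      constructor
      · have h2 : mu (fpE f (H 0)) = 0 := by
          unfold mu ct
          rw [filter_false_of_mem]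
          · simp
          · intro x _ hx
            unfold fpE at hx
            simp [hH, satD] at hx
        rw [h2]
        have h3 : 0 ≤ 1 / (A : ℝ) * (1 - mu (ev f true [] (H 0))) :=
          mul_nonneg (by positivity) (by linarith)
        simpa using h3
      · intro _
        simpa using h1
    | succ j ih =>
      intro hj
      obtain ⟨ih1, ih2⟩ := ih (by omega)
      cases hgl : goodR A B N a Θ κ V (smp f ω) (H j) with
      | nil =>
        have h3 : H (j + 1) = H j := by
          rw [hsucc]
          unfold stepR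
          rw [hgl]
          simp
        rw [h3]
        constructor
        · push_cast
          linarith
        · intro hg
          exact absurd hgl (hg j (by omega))
      | cons C rest =>
        have hC := mem_goodR (A := A) (B := B) (N := N) (a := a) (Θ := Θ) (κ := κ) (V := V)
          (S := smp f ω) (h := H j) (C := C) (by rw [hgl]; simp)
        have h3 : H (j + 1) = C :: H j := by
          rw [hsucc]
          unfold stepR
          rw [hgl]
          simp
        have h4 := acc8_spec hm hA hB hτ hrep ((hbd j).1.trans (by omega)) (hlits j)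
          (fun l hl => hV l (hC.1.2 l hl)) hC.2
        have h5 := ev_nil_cons (f := f) (h := H j) (C := C)
        rw [h3]
        constructor
        · have h6 : mu (fpE f (C :: H j)) ≤ mu (ev f false C (H j)) + mu (fpE f (H j)) := by
            refine mu_le_add ?_
            intro x hx
            unfold fpE at hx ⊢
            rw [Bool.and_eq_true, Bool.not_eq_true'] at hx
            obtain ⟨hx1, hx2⟩ := hx
            by_cases hs : satD (List.ofFn x) (H j) = true
            · right
              rw [hx1, hs]
              rfl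
            · left
              rw [Bool.not_eq_true] at hs
              rw [ev_iff]
              refine ⟨hx1, ?_, hs⟩
              unfold satD at hx2 hs
              rw [List.any_cons, hs, Bool.or_false] at hx2
              exact hx2
          have h7 : 1 / (A : ℝ) * (1 - mu (ev f true [] (C :: H j))) =
              1 / A * (1 - mu (ev f true [] (H j))) + 1 / A * mu (ev f true C (H j)) := by
            rw [h5]; ring
          rw [h7]
          push_cast
          linarith [h4.1]
        · intro hg
          have h8 := ih2 (fun i hi => hg i (by omega))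
          push_cast
          linarith [h4.2]
  have hfix : ∃ i < R, goodR A B N a Θ κ V (smp f ω) (H i) = [] := by
    by_contra hcon
    push Not at hcon
    have h1 := (hgain R le_rfl).2 (fun i hi => hcon i hi)
    have h2 := mu_nonneg (ev f true [] (H R))
    linarith
  obtain ⟨i, hi, hgi⟩ := hfix
  have hstay : ∀ d, H (i + d) = H i := by
    intro d
    induction d with
    | zero => rfl
    | succ d ih =>
      rw [← add_assoc, hsucc, ih]
      unfold stepR
      rw [hgi]
      simp
  have hfinal : coreR A B R N a Θ κ V (smp f ω) = H i := by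
    have := hstay (R - i)
    rw [show i + (R - i) = R by omega] at this
    exact this
  refine ⟨H i, hfinal, (hbd i).1.trans hi.le, fun D hD l hl => ((hbd i).2 D hD).2 l hl, ?_, hgi⟩
  refine (hgain i hi.le).1.trans ?_
  have h1 := mu_nonneg (ev f true [] (H i))
  have h2 : 1 / (A : ℝ) * (1 - mu (ev f true [] (H i))) ≤ 1 / A * 1 :=
    mul_le_mul_of_nonneg_left (by linarith) (by positivity)
  have h3 : (i : ℝ) * (2 * τ) ≤ R * (2 * τ) := by
    have : (i : ℝ) ≤ R := by exact_mod_cast hi.le
    exact mul_le_mul_of_nonneg_right this (by positivity)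
  linarith

/-- the false positives -/
theorem fpE_eq (H : List (List Lit)) :
    mu (fun x => H.any fun D => ev f false D [] x) = mu (fpE f H) := by
  congr 1
  funext x
  unfold fpE
  cases hf : f x with
  | true =>
    rw [Bool.not_true, Bool.false_and, Bool.eq_false_iff]
    intro h
    obtain ⟨D, _, hD⟩ := List.any_eq_true.1 h
    have := (ev_iff.1 hD).1
    rw [hf] at this
    exact absurd this (by simp)
  | false =>
    rw [Bool.not_false, Bool.true_and, Bool.eq_iff_iff, List.any_eq_true, satD_iff]
    constructor
    · rintro ⟨D, hD, h⟩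
      exact ⟨D, hD, (ev_iff.1 h).2.1⟩
    · rintro ⟨D, hD, h⟩
      exact ⟨D, hD, ev_iff.2 ⟨hf, h, rfl⟩⟩

/-- error of the final hypothesis -/
theorem fin_error {a : ℕ} {H : List (List Lit)} (hm : 0 < m) (ha : 1 ≤ a) (hτ : 0 < τ)
    (hτa : 32 * a * τ ≤ 1) (hrep : Rep f ω R τ) (hfq : dst f q ≤ τ)
    (hFP : mu (fpE f H) ≤ 1 / (16 * a))
    (hiso : 1 / (4 * a) ≤ mu (ev q false [] []) →
      2 * mu (ev q true [] H) * mu (ev q false [] H) ≤ 1 / (8 * a ^ 2)) :
    mu (errE f (fin4 a (smp f ω) H)) ≤ 1 / a := by
  have hm' : (0 : ℝ) < m := by exact_mod_cast hm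
  have ha' : (1 : ℝ) ≤ a := by exact_mod_cast ha
  have ha0 : (0 : ℝ) < a := by linarith
  have hτa' : τ ≤ 1 / (32 * a) := by
    rw [le_div_iff₀ (by positivity)]
    linarith
  have h0 := abs_lt.1 (hrep false [] [] (by simp) (by simp) (by simp))
  have e32 : (1 : ℝ) / (32 * a) = (1 / 32) * (1 / a) := by field_simp
  have e4 : (1 : ℝ) / (4 * a) = (1 / 4) * (1 / a) := by field_simp
  have e2 : (1 : ℝ) / (2 * a) = (1 / 2) * (1 / a) := by field_simp
  have hinv : (0 : ℝ) < 1 / a := by positivity
  by_cases hcase : cnt (smp f ω) false [] [] * (2 * a) ≤ (smp f ω).length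
  · have h1 : em ω (ev f false [] []) ≤ 1 / (2 * a) := by
      rw [cnt_smp, length_smp] at hcase
      unfold em
      rw [div_le_div_iff₀ hm' (by positivity), one_mul]
      exact_mod_cast hcase
    rw [e2] at h1
    rw [e32] at hτa'
    have h4 : fin4 a (smp f ω) H = [[]] := by
      unfold fin4
      rw [if_pos hcase]
    rw [h4]
    have h2 : mu (errE f [[]]) ≤ mu (ev f false [] []) := by
      refine mu_mono ?_
      intro x hx
      rw [errE_iff] at hx
      rw [ev_iff]
      have h3 : satD (List.ofFn x) [[]] = true := rfl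
      rw [h3] at hx
      refine ⟨?_, rfl, rfl⟩
      cases hf : f x
      · rfl
      · exact absurd hf hx
    linarith
  · have h1 : 1 / (2 * a) ≤ em ω (ev f false [] []) := by
      rw [cnt_smp, length_smp] at hcase
      have h2 := (not_le.1 hcase).le
      unfold em
      rw [div_le_div_iff₀ (by positivity) hm', one_mul]
      exact_mod_cast h2
    refine fin4_error hm ha hτ hτa hrep hfq ?_ (hiso ?_)
    · rw [fpE_eq]
      exact hFP
    · have h3 := mu_ev_sub_le f q false [] []
      rw [e2] at h1
      rw [e4]
      rw [e32] at hτa'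
      linarith

end Pool.Agent.H.MP_cba12a_lc.RK
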