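import Pool.Agent.H.MP_cba12a_lc.RK.First
import Pool.Agent.H.MP_cba12a_lc.RK.Algo

/-!
Sample counts and true measures.
-/

namespace Pool.Agent.H.MP_cba12a_lc.RK

open Finset Pool.Agent.H.MP_cba12a_lc

variable {n m : ℕ} {o : Fin n → Bool} {f q : (Fin n → Bool) → Bool} {ω : Fin m → Fin n → Bool}
  {R : ℕ} {τ : ℝ} {h : List (List Lit)} {V : List Lit}

/-- the sample and the function `q` -/
structure Smp (o : Fin n → Bool) (f q : (Fin n → Bool) → Bool) (ω : Fin m → Fin n → Bool)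
    (R : ℕ) (τ : ℝ) (V : List Lit) : Prop where
  hm : 0 < m
  hτ : 0 < τ
  up : Up o q
  dist : dst f q ≤ τ
  rep : Rep f ω R τ
  lits : ∀ l ∈ V, ∃ i : Fin n, l = ((i : ℕ), o i)
  nodup : V.Nodup

/-- empirical measure of the pivotal event -/
noncomputable def pp (f : (Fin n → Bool) → Bool) (ω : Fin m → Fin n → Bool)
    (h : List (List Lit)) (l0 : Lit) (Z : List Lit) : ℝ := (pcnt (smp f ω) h l0 Z : ℝ) / m

theorem OrL.strip (hh : OrL o h) (l : Lit) : OrL o (strip l h) := by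
  intro D hD l' hl'
  unfold MP_cba12a_lc.strip at hD
  obtain ⟨D', hD', rfl⟩ := List.mem_map.1 hD
  exact hh D' hD' l' (List.mem_filter.1 hl').1

private theorem orL_lt (hh : OrL o h) : ∀ D ∈ h, ∀ l ∈ D, l.1 < n := by
  intro D hD l hl
  obtain ⟨i, rfl⟩ := hh D hD l hl
  exact i.2

private theorem orL_no (hh : OrL o h) (i : Fin n) : ∀ D ∈ h, ((i : ℕ), !(o i)) ∉ D := by
  intro D hD hc
  obtain ⟨j, hj⟩ := hh D hD _ hc
  simp only [Prod.mk.injEq] at hj
  have : i = j := Fin.ext hj.1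
  subst this
  have h2 := hj.2
  cases ho : o i <;> simp [ho] at h2

/- PROOF. See `hest` and `hpcnt` in the proof of `good4_ne_nil` in `Main4.lean`: `pcnt / m` is
`max pe 0`, `|pe - mu| < 4 τ`, `0 ≤ mu`. Uses `pivot_identity`, `mu_ev_sub_le`, `dst_comm`. -/
theorem pp_est (hS : Smp o f q ω R τ V) (hr : h.length ≤ R) (hh : OrL o h) {i : Fin n}
    {Z : List Lit} (hZ : ∀ l ∈ Z, l.1 < n ∧ l.1 ≠ i) :
    |pp f ω h ((i : ℕ), o i) Z - mu (pv q h i (o i) Z)| < 4 * τ := by
  have hm' : (0 : ℝ) < m := by exact_mod_cast hS.hm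
  have hd := hS.dist
  have hhn := orL_lt hh
  have hstripn := orL_lt (hh.strip ((i : ℕ), o i))
  have hstripr : (MP_cba12a_lc.strip ((i : ℕ), o i) h).length ≤ R := by
    unfold MP_cba12a_lc.strip
    rw [List.length_map]; exact hr
  have h1 := abs_lt.1 (hS.rep true (((i : ℕ), o i) :: Z) h (by
    intro l hl
    rcases List.mem_cons.1 hl with rfl | hl
    · exact i.2
    · exact (hZ l hl).1) hr hhn)
  have h2 := abs_lt.1 (hS.rep true (neg ((i : ℕ), o i) :: Z)
    (MP_cba12a_lc.strip ((i : ℕ), o i) h) (by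
    intro l hl
    rcases List.mem_cons.1 hl with rfl | hl
    · exact i.2
    · exact (hZ l hl).1) hstripr hstripn)
  have h3 := pivot_identity hS.up (h := h) (i := i) (Z := Z) hhn (orL_no hh i)
    (fun l hl => (hZ l hl).2)
  have h4 := mu_ev_sub_le f q true (((i : ℕ), o i) :: Z) h
  have h5 := mu_ev_sub_le q f true (((i : ℕ), o i) :: Z) h
  have h6 := mu_ev_sub_le f q true (neg ((i : ℕ), o i) :: Z)
    (MP_cba12a_lc.strip ((i : ℕ), o i) h)
  have h7 := mu_ev_sub_le q f true (neg ((i : ℕ), o i) :: Z)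
    (MP_cba12a_lc.strip ((i : ℕ), o i) h)
  rw [dst_comm q f] at h5 h7
  have hmu := mu_nonneg (pv q h i (o i) Z)
  have hpp : pp f ω h ((i : ℕ), o i) Z = max (em ω (ev f true (((i : ℕ), o i) :: Z) h) -
      em ω (ev f true (neg ((i : ℕ), o i) :: Z) (MP_cba12a_lc.strip ((i : ℕ), o i) h))) 0 := by
    unfold pp pcnt
    rw [cnt_smp, cnt_smp]
    unfold em
    rw [← sub_div]
    set c1 := ec ω (ev f true (((i : ℕ), o i) :: Z) h)
    set c0 := ec ω (ev f true (neg ((i : ℕ), o i) :: Z)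
      (MP_cba12a_lc.strip ((i : ℕ), o i) h))
    rcases le_total c0 c1 with h1 | h1
    · have h1' : (c0 : ℝ) ≤ c1 := by exact_mod_cast h1
      rw [Nat.cast_sub h1, max_eq_left (div_nonneg (by linarith) hm'.le)]
    · have h1' : (c1 : ℝ) ≤ c0 := by exact_mod_cast h1
      rw [Nat.sub_eq_zero_of_le h1, max_eq_right (div_nonpos_of_nonpos_of_nonneg (by linarith)
        hm'.le)]
      simp
  rw [hpp, abs_lt]
  rcases le_total (em ω (ev f true (((i : ℕ), o i) :: Z) h) -
      em ω (ev f true (neg ((i : ℕ), o i) :: Z) (MP_cba12a_lc.strip ((i : ℕ), o i) h))) 0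
    with h8 | h8
  · rw [max_eq_right h8]
    have := hS.hτ
    constructor <;> linarith
  · rw [max_eq_left h8]
    constructor <;> linarith

/- PROOF. `cnt_smp`, `Rep`, `mu_ev_sub_le` in both directions. -/
theorem cnt_est (hS : Smp o f q ω R τ V) (hr : h.length ≤ R) (hh : OrL o h) (v : Bool)
    {C : List Lit} (hC : ∀ l ∈ C, l.1 < n) :
    |(cnt (smp f ω) v C h : ℝ) / m - mu (ev q v C h)| < 2 * τ := by
  have hd := hS.dist
  have h1 := abs_lt.1 (hS.rep v C h hC hr (orL_lt hh))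
  have h4 := mu_ev_sub_le f q v C h
  have h5 := mu_ev_sub_le q f v C h
  rw [dst_comm q f] at h5
  rw [cnt_smp]
  unfold em at h1
  rw [abs_lt]
  constructor <;> linarith

/- PROOF. `cnt_smp`; the events `ev f true Z []` and `ev f false Z []` are disjoint with union
`sat Z`; `Rep` twice. -/
theorem cnt2_est (hS : Smp o f q ω R τ V) {Z : List Lit} (hZ : ∀ l ∈ Z, l.1 < n) :
    |(cnt (smp f ω) true Z [] : ℝ) / m + (cnt (smp f ω) false Z [] : ℝ) / m -
      mu (fun x : Fin n → Bool => sat (List.ofFn x) Z)| < 2 * τ := by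
  have h1 := abs_lt.1 (hS.rep true Z [] hZ (Nat.zero_le _) (by simp))
  have h2 := abs_lt.1 (hS.rep false Z [] hZ (Nat.zero_le _) (by simp))
  have h3 : mu (fun x : Fin n → Bool => sat (List.ofFn x) Z) =
      mu (ev f true Z []) + mu (ev f false Z []) := by
    refine mu_eq_add ?_ ?_
    · intro x
      rw [ev_iff, ev_iff]
      constructor
      · intro hx
        cases hf : f x
        · exact Or.inr ⟨rfl, hx, rfl⟩
        · exact Or.inl ⟨rfl, hx, rfl⟩
      · rintro (hx | hx)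
        · exact hx.2.1
        · exact hx.2.1
    · intro x hx
      rw [ev_iff, ev_iff] at hx
      have h4 := hx.1.1
      rw [hx.2.1] at h4
      exact Bool.noConfusion h4
  rw [cnt_smp, cnt_smp, h3]
  unfold em at h1 h2
  rw [abs_lt]
  constructor <;> linarith

/- PROOF. `freq4`; divide by `m`. -/
theorem mem_freq (hS : Smp o f q ω R τ V) {i : Fin n} {Z : List Lit} {l : Lit} :
    l ∈ freq4 V (smp f ω) h ((i : ℕ), o i) Z ↔ l ∈ V ∧ l.1 ≠ i ∧
      23 * pp f ω h ((i : ℕ), o i) Z ≤ 32 * pp f ω h ((i : ℕ), o i) (l :: Z) := by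
  have hm' : (0 : ℝ) < m := by exact_mod_cast hS.hm
  unfold freq4
  rw [List.mem_filter, Bool.and_eq_true, decide_eq_true_iff]
  refine and_congr_right fun _ => ?_
  refine and_congr (by simp) ?_
  have e : (23 * pcnt (smp f ω) h ((i : ℕ), o i) Z ≤
      32 * pcnt (smp f ω) h ((i : ℕ), o i) (l :: Z)) ↔
      (23 * (pcnt (smp f ω) h ((i : ℕ), o i) Z : ℝ) ≤
      32 * (pcnt (smp f ω) h ((i : ℕ), o i) (l :: Z) : ℝ)) := by exact_mod_cast Iff.rfl
  rw [e]
  unfold pp
  rw [← mul_div_assoc, ← mul_div_assoc, div_le_div_iff_of_pos_right hm']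

end Pool.Agent.H.MP_cba12a_lc.RK
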