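import Pool.Agent.H.MP_cba12a_lc.RK.Est

/-!
The list of the frequent literals.
-/

namespace Pool.Agent.H.MP_cba12a_lc.RK

open Finset Pool.Agent.H.MP_cba12a_lc

variable {n m : ℕ} {o : Fin n → Bool} {f q : (Fin n → Bool) → Bool} {ω : Fin m → Fin n → Bool}
  {R : ℕ} {τ : ℝ} {h : List (List Lit)} {V : List Lit}

private theorem EstF_lt (hS : Smp o f q ω R τ V) {l : Lit} (hl : l ∈ V) : l.1 < n := by
  obtain ⟨j, rfl⟩ := hS.lits l hl
  exact j.2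

private theorem EstF_dom (hS : Smp o f q ω R τ V) {i : Fin n} {Z : List Lit}
    (hZ : ∀ l ∈ Z, l ∈ V ∧ l.1 ≠ i) : ∀ l ∈ Z, l.1 < n ∧ l.1 ≠ i :=
  fun l hl => ⟨EstF_lt hS (hZ l hl).1, (hZ l hl).2⟩

private theorem EstF_cons {i : Fin n} {Z : List Lit} (hZ : ∀ l ∈ Z, l ∈ V ∧ l.1 ≠ i) {l : Lit}
    (hl : l ∈ V) (hli : l.1 ≠ i) : ∀ l' ∈ l :: Z, l' ∈ V ∧ l'.1 ≠ i := by
  intro l' hl'
  rcases List.mem_cons.1 hl' with rfl | hl'
  · exact ⟨hl, hli⟩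
  · exact hZ l' hl'

/- PROOF. `pp_est` for `Z` and `l :: Z`. -/
theorem freq_of (hS : Smp o f q ω R τ V) (hr : h.length ≤ R) (hh : OrL o h) {i : Fin n}
    {Z : List Lit} (hZ : ∀ l ∈ Z, l ∈ V ∧ l.1 ≠ i) (hα : 256 * τ ≤ mu (pv q h i (o i) Z))
    {l : Lit} (hl : l ∈ V) (hli : l.1 ≠ i)
    (hlt : 3 / 4 * mu (pv q h i (o i) Z) < mu (pv q h i (o i) (l :: Z))) :
    l ∈ freq4 V (smp f ω) h ((i : ℕ), o i) Z := by
  rw [mem_freq hS]
  refine ⟨hl, hli, ?_⟩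
  have h1 := abs_lt.1 (pp_est hS hr hh (EstF_dom hS hZ))
  have h2 := abs_lt.1 (pp_est hS hr hh (EstF_dom hS (EstF_cons hZ hl hli)))
  have h3 := hS.hτ
  linarith [h1.1, h1.2, h2.1, h2.2]

/- PROOF. As in `good4_ne_nil` (`hbias`, `hb`): `bias`, `toF_card_of_nodup`. -/
theorem freq_len (hS : Smp o f q ω R τ V) (hr : h.length ≤ R) (hh : OrL o h) {i : Fin n}
    {Z : List Lit} (hZ : ∀ l ∈ Z, l ∈ V ∧ l.1 ≠ i) (hα : 256 * τ ≤ mu (pv q h i (o i) Z)) :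
    (2 : ℝ) ^ (freq4 V (smp f ω) h ((i : ℕ), o i) Z).length * mu (pv q h i (o i) Z) ^ 10 ≤ 1 := by
  have hτ := hS.hτ
  have hbias : ∀ l ∈ freq4 V (smp f ω) h ((i : ℕ), o i) Z,
      11 * mu (pv q h i (o i) Z) ≤ 16 * mu (pv q h i (o i) (l :: Z)) := by
    intro l hl
    rw [mem_freq hS] at hl
    have h1 := abs_lt.1 (pp_est hS hr hh (EstF_dom hS hZ))
    have h2 := abs_lt.1 (pp_est hS hr hh (EstF_dom hS (EstF_cons hZ hl.1 hl.2.1)))
    linarith [h1.1, h1.2, h2.1, h2.2, hl.2.2]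
  have hFn : ∀ l ∈ freq4 V (smp f ω) h ((i : ℕ), o i) Z, l.1 < n :=
    fun l hl => EstF_lt hS ((mem_freq hS).1 hl).1
  have hFcard : (toF n (freq4 V (smp f ω) h ((i : ℕ), o i) Z)).card =
      (freq4 V (smp f ω) h ((i : ℕ), o i) Z).length :=
    toF_card_of_nodup (hS.nodup.filter _) hFn
  have hcardΩ : (0 : ℝ) < Fintype.card (Fin n → Bool) := by
    rw [Fintype.card_fun]
    simp
  have hα0 : 0 < mu (pv q h i (o i) Z) := by linarith
  have hctS : 0 < ct (pv q h i (o i) Z) := by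
    by_contra hcon
    have h0 : ct (pv q h i (o i) Z) = 0 := by omega
    have : mu (pv q h i (o i) Z) = 0 := by rw [mu, h0]; simp
    linarith
  have hb := bias (pv q h i (o i) Z) (toF n (freq4 V (smp f ω) h ((i : ℕ), o i) Z)) (by
    intro l hl
    have hl' := mem_toF.1 hl
    have h1 := hbias _ hl'
    have h2 : mu (fun x => pv q h i (o i) Z x && (x l.1 == l.2)) =
        mu (pv q h i (o i) (((l.1 : ℕ), l.2) :: Z)) := by
      refine mu_congr ?_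
      intro x
      rw [Bool.and_eq_true, pv_iff, pv_iff, sat_cons, getElem?_ofFn, beq_iff_eq]
      constructor
      · rintro ⟨⟨a1, a2, a3, a4, a5⟩, a6⟩
        exact ⟨a1, a2, a3, a4, ⟨l.1.2, a6⟩, a5⟩
      · rintro ⟨a1, a2, a3, a4, ⟨_, a6⟩, a5⟩
        exact ⟨⟨a1, a2, a3, a4, a5⟩, a6⟩
    rw [← h2] at h1
    unfold mu at h1
    rw [mul_div_assoc', mul_div_assoc', div_le_div_iff_of_pos_right hcardΩ] at h1
    exact_mod_cast h1) hctS
  rw [hFcard] at hb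
  exact hb

end Pool.Agent.H.MP_cba12a_lc.RK
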