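import Pool.Agent.H.MP_cba12a_lc.RK.Defs

/-!
Few variables have a large influence in a subcube.
-/

namespace Pool.Agent.H.MP_cba12a_lc.RK

open Finset Pool.Agent.H.MP_cba12a_lc

variable {n : ℕ} {o : Fin n → Bool} {q : (Fin n → Bool) → Bool}

/-- the restriction to a subcube is monotone -/
theorem Sub_up (hq : Up o q) (A : Finset (Fin n)) : Up o fun x => q (sOn o A x) := by
  intro i x h
  by_cases hi : i ∈ A
  · have h1 : q (sOn o A (Function.update x i (!(o i)))) = true := h
    rw [sOn_update_mem hi] at h1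
    show q (sOn o A (Function.update x i (o i))) = true
    rw [sOn_update_mem hi]
    exact h1
  · have h1 : q (sOn o A (Function.update x i (!(o i)))) = true := h
    rw [sOn_update hi] at h1
    show q (sOn o A (Function.update x i (o i))) = true
    rw [sOn_update hi]
    exact hq i _ h1

theorem Sub_inf (A : Finset (Fin n)) {j : Fin n} (hj : j ∉ A) : inf o q A j =
    (1 / 2) ^ A.card * pr (fun x => x j = o j ∧ (fun x => q (sOn o A x)) x = true ∧
      (fun x => q (sOn o A x)) (flp j x) = false) := by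
  unfold inf
  rw [pr_on o A (fun x => x j = o j ∧ q x = true ∧ q (flp j x) = false)]
  congr 1
  refine pr_congr fun x => ?_
  have h1 : flp j (sOn o A x) = sOn o A (flp j x) := by
    unfold flp
    rw [sOn_update hj, sOn_not_mem hj]
  rw [sOn_not_mem hj, h1]

/- PROOF. `g := fun x => q (sOn o A x)` is `Up o` (`sOn_update`, `sOn_update_mem`). By `pr_on`,
`inf o q A j = (1/2) ^ |A| * pr (x j = o j ∧ g x = true ∧ g (flp j x) = false)` for `j ∉ A`, so
`c ≤ pr (..) ≤ co o g {j}` (`piv_le_co`). `card_large_le` with `𝓡 := V.image (fun j => {j})`,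
`card_image_of_injective singleton_injective`. -/
theorem sub_card (hq : Up o q) {A V : Finset (Fin n)} {c : ℝ} (hc : 0 < c)
    (hV : ∀ j ∈ V, j ∉ A ∧ c * (1 / 2) ^ A.card ≤ inf o q A j) : (V.card : ℝ) * c ^ 2 ≤ 1 := by
  have h1 : (V.image fun j => ({j} : Finset (Fin n))).card = V.card :=
    card_image_of_injective _ singleton_injective
  rw [← h1]
  refine card_large_le (o := o) (g := fun x => q (sOn o A x)) hc fun R hR => ?_
  obtain ⟨j, hj, rfl⟩ := mem_image.1 hR
  obtain ⟨h2, h3⟩ := hV j hj
  rw [Sub_inf A h2, mul_comm c] at h3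
  exact (le_of_mul_le_mul_left h3 (by positivity)).trans (piv_le_co (Sub_up hq A) j)

end Pool.Agent.H.MP_cba12a_lc.RK
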