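import Pool.Agent.H.MP_cba12a_lc.RK.Defs

/-!
The variables of a list of literals.
-/

namespace Pool.Agent.H.MP_cba12a_lc.RK

open Finset Pool.Agent.H.MP_cba12a_lc

variable {n : ℕ} {o : Fin n → Bool} {q : (Fin n → Bool) → Bool}

/-- the variables of the literals of `Z` -/
def vars (o : Fin n → Bool) (Z : List Lit) : Finset (Fin n) :=
  univ.filter fun j => ((j : ℕ), o j) ∈ Z

theorem mem_vars {Z : List Lit} {j : Fin n} : j ∈ vars o Z ↔ ((j : ℕ), o j) ∈ Z := by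
  simp [vars]

theorem sat_iff_on {Z : List Lit} (hZ : ∀ l ∈ Z, ∃ i : Fin n, l = ((i : ℕ), o i))
    {x : Fin n → Bool} : sat (List.ofFn x) Z = true ↔ On o (vars o Z) x := by
  rw [sat_iff]
  constructor
  · intro h i hi
    rw [mem_vars] at hi
    obtain ⟨_, h1⟩ := (getElem?_ofFn x i (o i)).1 (h _ hi)
    exact h1
  · intro h l hl
    obtain ⟨i, rfl⟩ := hZ l hl
    exact (getElem?_ofFn x i (o i)).2 ⟨i.2, h i (mem_vars.2 hl)⟩

/-- the measure of a pivotal event without `h` -/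
theorem mu_pv_nil {Z : List Lit} (hZ : ∀ l ∈ Z, ∃ i : Fin n, l = ((i : ℕ), o i)) (j : Fin n) :
    mu (pv q [] j (o j) Z) = inf o q (vars o Z) j := by
  rw [mu_eq_pr]
  unfold inf
  refine pr_congr fun x => ?_
  rw [pv_iff, sat_iff_on hZ]
  constructor
  · rintro ⟨h1, h2, _, h4, h5⟩
    exact ⟨h5, h1, h2, h4⟩
  · rintro ⟨h5, h1, h2, h4⟩
    exact ⟨h1, h2, rfl, h4, h5⟩

end Pool.Agent.H.MP_cba12a_lc.RK
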