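import Pool.Agent.H.MP_cba12a_lc.RK.Est
import Pool.Agent.H.MP_cba12a_lc.RK.Vars
import Pool.Agent.H.MP_cba12a_lc.RK.Sub

/-!
The list of the influential variables of a subcube on a representative sample.
-/

namespace Pool.Agent.H.MP_cba12a_lc.RK

open Finset Pool.Agent.H.MP_cba12a_lc

variable {n m : ℕ} {o : Fin n → Bool} {f q : (Fin n → Bool) → Bool} {ω : Fin m → Fin n → Bool}
  {R : ℕ} {τ : ℝ} {h : List (List Lit)} {V : List Lit}

/-- the measure of a subcube -/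
private theorem estQ_mu_sat {Z : List Lit} (hZ : ∀ l ∈ Z, ∃ i : Fin n, l = ((i : ℕ), o i)) :
    mu (fun x : Fin n → Bool => sat (List.ofFn x) Z) = (1 / 2 : ℝ) ^ (vars o Z).card := by
  have h1 := pr_on o (vars o Z) (fun _ => True)
  have h2 : pr (fun _ : Fin n → Bool => True) = 1 := by
    rw [pr_def]
    have h3 := mu_true (n := n)
    rw [← h3]
    exact mu_congr fun x => by simp
  rw [h2, mul_one] at h1
  rw [← h1, mu_eq_pr]
  exact pr_congr fun x => by rw [sat_iff_on hZ, and_true]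

/-- the test of `qls` in terms of measures -/
private theorem estQ_test_iff (hS : Smp o f q ω R τ V) {Z : List Lit} {Θ : ℕ} {l : Lit} :
    cnt (smp f ω) true Z [] + cnt (smp f ω) false Z [] ≤ Θ * pcnt (smp f ω) [] l Z ↔
      (cnt (smp f ω) true Z [] : ℝ) / m + (cnt (smp f ω) false Z [] : ℝ) / m ≤
        Θ * pp f ω [] l Z := by
  have hm : (0 : ℝ) < m := by exact_mod_cast hS.hm
  unfold pp
  rw [← add_div, mul_div_assoc', div_le_div_iff_of_pos_right hm]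
  exact_mod_cast Iff.rfl

private theorem estQ_lt_of_lits {l : Lit} (hl : ∃ i : Fin n, l = ((i : ℕ), o i)) : l.1 < n := by
  obtain ⟨i, rfl⟩ := hl
  exact i.2

/- PROOF. `mu (sat Z) = (1/2) ^ |vars o Z|` (`pr_on` with `Q := True`), `pp_est` with `h := []`,
`cnt2_est`. -/
theorem qls_of (hS : Smp o f q ω R τ V) {Z : List Lit} {Θ : ℕ} (hZ : ∀ l ∈ Z, l ∈ V)
    (hw : (8 * Θ + 4) * τ ≤ (1 / 2 : ℝ) ^ (vars o Z).card) {j : Fin n} (hj : j ∉ vars o Z)
    (hjV : ((j : ℕ), o j) ∈ V)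
    (hi : 2 * (1 / 2 : ℝ) ^ (vars o Z).card ≤ Θ * inf o q (vars o Z) j) :
    ((j : ℕ), o j) ∈ qls Θ V (smp f ω) Z := by
  have hZ' : ∀ l ∈ Z, ∃ i : Fin n, l = ((i : ℕ), o i) := fun l hl => hS.lits l (hZ l hl)
  have hne : ∀ l ∈ Z, l.1 ≠ (j : ℕ) := by
    intro l hl hc
    obtain ⟨i, rfl⟩ := hZ' l hl
    have hij : i = j := Fin.ext hc
    subst hij
    exact hj (mem_vars.2 hl)
  unfold qls
  rw [List.mem_filter]
  refine ⟨hjV, ?_⟩
  rw [Bool.and_eq_true, List.all_eq_true, decide_eq_true_iff]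
  refine ⟨?_, ?_⟩
  · intro l hl
    simpa using hne l hl
  · rw [estQ_test_iff hS]
    have h1 := abs_lt.1 (cnt2_est hS (fun l hl => estQ_lt_of_lits (hZ' l hl)))
    have h2 := abs_lt.1 (pp_est (h := []) (i := j) hS (by simp)
      (fun D hD => absurd hD List.not_mem_nil)
      (Z := Z) (fun l hl => ⟨estQ_lt_of_lits (hZ' l hl), hne l hl⟩))
    rw [estQ_mu_sat hZ'] at h1
    rw [mu_pv_nil hZ'] at h2
    have hΘ : (0 : ℝ) ≤ Θ := Nat.cast_nonneg _
    have h3 : (Θ : ℝ) * (inf o q (vars o Z) j - 4 * τ) ≤ Θ * pp f ω [] ((j : ℕ), o j) Z :=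
      mul_le_mul_of_nonneg_left (by linarith [h2.1]) hΘ
    have hτ := hS.hτ
    have h4 : 0 ≤ (Θ : ℝ) * τ := by positivity
    nlinarith [h1.2]

theorem of_qls (hS : Smp o f q ω R τ V) {Z : List Lit} {Θ : ℕ} (hZ : ∀ l ∈ Z, l ∈ V)
    (hw : (8 * Θ + 4) * τ ≤ (1 / 2 : ℝ) ^ (vars o Z).card) {l : Lit}
    (hl : l ∈ qls Θ V (smp f ω) Z) :
    ∃ j : Fin n, l = ((j : ℕ), o j) ∧ j ∉ vars o Z ∧
      (1 / 2 : ℝ) ^ (vars o Z).card ≤ 2 * Θ * inf o q (vars o Z) j := by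
  have hZ' : ∀ l ∈ Z, ∃ i : Fin n, l = ((i : ℕ), o i) := fun l hl => hS.lits l (hZ l hl)
  unfold qls at hl
  rw [List.mem_filter, Bool.and_eq_true, List.all_eq_true, decide_eq_true_iff, estQ_test_iff hS] at hl
  obtain ⟨hlV, hall, htest⟩ := hl
  obtain ⟨j, rfl⟩ := hS.lits l hlV
  have hne : ∀ l ∈ Z, l.1 ≠ (j : ℕ) := by
    intro l hl
    simpa using hall l hl
  refine ⟨j, rfl, ?_, ?_⟩
  · intro hj
    exact hne _ (mem_vars.1 hj) rfl
  · have h1 := abs_lt.1 (cnt2_est hS (fun l hl => estQ_lt_of_lits (hZ' l hl)))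
    have h2 := abs_lt.1 (pp_est (h := []) (i := j) hS (by simp)
      (fun D hD => absurd hD List.not_mem_nil)
      (Z := Z) (fun l hl => ⟨estQ_lt_of_lits (hZ' l hl), hne l hl⟩))
    rw [estQ_mu_sat hZ'] at h1
    rw [mu_pv_nil hZ'] at h2
    have hΘ : (0 : ℝ) ≤ Θ := Nat.cast_nonneg _
    have h3 : (Θ : ℝ) * pp f ω [] ((j : ℕ), o j) Z ≤ Θ * (inf o q (vars o Z) j + 4 * τ) :=
      mul_le_mul_of_nonneg_left (by linarith [h2.2]) hΘ
    have hτ := hS.hτ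
    have h4 : 0 ≤ (Θ : ℝ) * τ := by positivity
    nlinarith [h1.1]

/- PROOF. `of_qls`, `sub_card` with `c := 1 / (2 Θ)`. -/
theorem length_qls_le (hS : Smp o f q ω R τ V) {Z : List Lit} {Θ : ℕ} (hΘ : 0 < Θ)
    (hZ : ∀ l ∈ Z, l ∈ V)
    (hw : (8 * Θ + 4) * τ ≤ (1 / 2 : ℝ) ^ (vars o Z).card) :
    (qls Θ V (smp f ω) Z).length ≤ 4 * Θ ^ 2 := by
  classical
  have hΘ' : (0 : ℝ) < Θ := by exact_mod_cast hΘ
  set W : Finset (Fin n) := univ.filter fun j => ((j : ℕ), o j) ∈ qls Θ V (smp f ω) Z with hW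
  have h1 : (W.card : ℝ) * (1 / (2 * Θ)) ^ 2 ≤ 1 := by
    refine sub_card hS.up (A := vars o Z) (by positivity) ?_
    intro j hj
    rw [hW, mem_filter] at hj
    obtain ⟨j', hjj, hj1, hj2⟩ := of_qls hS hZ hw hj.2
    have hjj' : j = j' := Fin.ext (congrArg Prod.fst hjj)
    subst hjj'
    refine ⟨hj1, ?_⟩
    rw [div_mul_eq_mul_div, one_mul, div_le_iff₀ (by positivity)]
    linarith
  have h2 : (W.card : ℝ) ≤ 4 * Θ ^ 2 := by
    rw [div_pow, one_pow, mul_one_div, div_le_one (by positivity)] at h1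
    nlinarith
  have h3 : W.card ≤ 4 * Θ ^ 2 := by exact_mod_cast h2
  have hnd : (qls Θ V (smp f ω) Z).Nodup := by
    unfold qls
    exact hS.nodup.filter _
  have h4 : (qls Θ V (smp f ω) Z).toFinset ⊆ W.image fun j : Fin n => ((j : ℕ), o j) := by
    intro l hl
    rw [List.mem_toFinset] at hl
    obtain ⟨j, rfl, _, _⟩ := of_qls hS hZ hw hl
    rw [mem_image]
    exact ⟨j, by rw [hW, mem_filter]; exact ⟨mem_univ _, hl⟩, rfl⟩
  calc (qls Θ V (smp f ω) Z).length = (qls Θ V (smp f ω) Z).toFinset.card :=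
        (List.toFinset_card_of_nodup hnd).symm
    _ ≤ (W.image fun j : Fin n => ((j : ℕ), o j)).card := card_le_card h4
    _ ≤ W.card := card_image_le
    _ ≤ 4 * Θ ^ 2 := h3

end Pool.Agent.H.MP_cba12a_lc.RK
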