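import Pool.Agent.H.MP_cba12a_lc.RK.FirstB

/-!
Few variables give a signal; the total mass of the bad terms.
-/

namespace Pool.Agent.H.MP_cba12a_lc.RK

open Finset Pool.Agent.H.MP_cba12a_lc

variable {n : ℕ} {o : Fin n → Bool} {q : (Fin n → Bool) → Bool} {F : Finset (Finset (Fin n))}
  {k L r s : ℕ} {rk : Finset (Fin n) → ℕ} {h : List (List Lit)} {i : Fin n}

/- PROOF. `M ≤ 2 k L β_j 2^n` for `j ∈ V`, where `β_j 2^n := |cU j| - |cD j| ≤ ∑_{T ∋ i, j} |fstT T|`
(`cU_le`). Sum over `j ∈ V`: `|V| * M ≤ 2 k L ∑_{T ∋ i} |T| * |fstT T| ≤ 2 k L * L * M`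
(`sum_fstT`). -/
theorem vis_card (hR : RefF o q F k L) (hrk : Function.Injective rk)
    (hM : 0 < (pvS o q h i).card) {V : Finset (Fin n)}
    (hV : ∀ j ∈ V, j ≠ i ∧ (pvS o q h i).card + 2 * k * L * (cD o q h i j).card ≤
      2 * k * L * (cU o q h i j).card) : V.card ≤ 2 * k * L ^ 2 := by
  classical
  set M := (pvS o q h i).card with hMdef
  have h1 : ∀ j ∈ V, M ≤ 2 * k * L *
      ∑ T ∈ F.filter (fun T => i ∈ T), if j ∈ T then (fstT o q F rk h i T).card else 0 := by
    intro j hj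
    obtain ⟨hji, hle⟩ := hV j hj
    have h2 := Nat.mul_le_mul_left (2 * k * L) (cU_le (h := h) (i := i) hR hrk hji)
    rw [mul_add] at h2
    have h3 : ∑ T ∈ F.filter (fun T => i ∈ T ∧ j ∈ T), (fstT o q F rk h i T).card =
        ∑ T ∈ F.filter (fun T => i ∈ T), if j ∈ T then (fstT o q F rk h i T).card else 0 := by
      rw [← Finset.sum_filter, Finset.filter_filter]
    rw [h3] at h2
    omega
  have h2 : V.card * M ≤ 2 * k * L * (L * M) := by
    calc V.card * M = ∑ _j ∈ V, M := by rw [Finset.sum_const, smul_eq_mul]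
      _ ≤ ∑ j ∈ V, 2 * k * L *
          ∑ T ∈ F.filter (fun T => i ∈ T), if j ∈ T then (fstT o q F rk h i T).card else 0 :=
          Finset.sum_le_sum h1
      _ = 2 * k * L * ∑ T ∈ F.filter (fun T => i ∈ T), ∑ j ∈ V,
          if j ∈ T then (fstT o q F rk h i T).card else 0 := by
          rw [← Finset.mul_sum, Finset.sum_comm]
      _ ≤ 2 * k * L * ∑ T ∈ F.filter (fun T => i ∈ T), L * (fstT o q F rk h i T).card := by
          refine Nat.mul_le_mul_left _ (Finset.sum_le_sum fun T hT => ?_)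
          rw [← Finset.sum_filter, Finset.sum_const, smul_eq_mul]
          refine Nat.mul_le_mul_right _ ?_
          refine le_trans (Finset.card_le_card ?_) (hR.len T (Finset.mem_filter.1 hT).1)
          intro j hj
          exact (Finset.mem_filter.1 hj).2
      _ = 2 * k * L * (L * M) := by
          rw [← Finset.mul_sum, sum_fstT hR hrk]
  have h3 : V.card * M ≤ (2 * k * L ^ 2) * M := by
    calc V.card * M ≤ 2 * k * L * (L * M) := h2
      _ = (2 * k * L ^ 2) * M := by ring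
  exact Nat.le_of_mul_le_mul_right h3 hM

/- PROOF. `2 ^ s * 2 ^ T.card * e < 2 ^ n` for the bad terms, so `e / 2 ^ n ≤ (1/2)^s (1/2)^|T|`. Exchange
the sums over `i` and `T`; `T` occurs for at most `T.card ≤ L` values of `i`; then `rates`-type
bound is applied later. -/
theorem bad_total (hR : RefF o q F k L) :
    ∑ i, ((badM o q F rk s h i : ℕ) : ℝ) / 2 ^ n ≤
      L * (1 / 2 : ℝ) ^ s * ∑ T ∈ F, (1 / 2 : ℝ) ^ T.card := by
  classical
  have h1 : ∀ i : Fin n, ((badM o q F rk s h i : ℕ) : ℝ) / 2 ^ n ≤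
      ∑ T ∈ F, if i ∈ T then (1 / 2 : ℝ) ^ s * (1 / 2 : ℝ) ^ T.card else 0 := by
    intro i
    unfold badM
    push_cast
    rw [Finset.sum_div, ← Finset.sum_filter]
    have h2 : badT o q F rk s h i ⊆ F.filter fun T => i ∈ T := by
      intro T hT
      rw [mem_badT] at hT
      exact Finset.mem_filter.2 ⟨hT.1, hT.2.1⟩
    refine le_trans (Finset.sum_le_sum fun T hT => ?_)
      (Finset.sum_le_sum_of_subset_of_nonneg h2 fun T _ _ => by positivity)
    rw [mem_badT] at hT
    have h3 : 2 ^ s * (2 ^ T.card * (fstT o q F rk h i T).card) ≤ 2 ^ n :=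
      (not_le.1 hT.2.2).le
    have h4 : (2 : ℝ) ^ s * (2 ^ T.card * ((fstT o q F rk h i T).card : ℝ)) ≤ 2 ^ n := by
      exact_mod_cast h3
    rw [div_le_iff₀ (by positivity), one_div, inv_pow, inv_pow]
    have hs : (0 : ℝ) < 2 ^ s := by positivity
    have hT' : (0 : ℝ) < 2 ^ T.card := by positivity
    rw [← mul_inv, ← div_eq_inv_mul, le_div_iff₀ (by positivity)]
    linarith
  calc ∑ i, ((badM o q F rk s h i : ℕ) : ℝ) / 2 ^ n
      ≤ ∑ i : Fin n, ∑ T ∈ F, if i ∈ T then (1 / 2 : ℝ) ^ s * (1 / 2 : ℝ) ^ T.card else 0 :=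
        Finset.sum_le_sum fun i _ => h1 i
    _ = ∑ T ∈ F, (T.card : ℝ) * ((1 / 2 : ℝ) ^ s * (1 / 2 : ℝ) ^ T.card) := by
        rw [Finset.sum_comm]
        refine Finset.sum_congr rfl fun T _ => ?_
        rw [← Finset.sum_filter, Finset.sum_const, nsmul_eq_mul]
        congr 2
        congr 1
        ext i
        simp
    _ ≤ ∑ T ∈ F, (L : ℝ) * ((1 / 2 : ℝ) ^ s * (1 / 2 : ℝ) ^ T.card) := by
        refine Finset.sum_le_sum fun T hT => mul_le_mul_of_nonneg_right ?_ (by positivity)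
        exact_mod_cast hR.len T hT
    _ = L * (1 / 2 : ℝ) ^ s * ∑ T ∈ F, (1 / 2 : ℝ) ^ T.card := by
        rw [Finset.mul_sum]
        refine Finset.sum_congr rfl fun T _ => ?_
        ring

end Pool.Agent.H.MP_cba12a_lc.RK
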