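import Pool.Agent.H.MP_cba12a_lc.RK.Est
import Pool.Agent.H.MP_cba12a_lc.RK.VisA

/-!
The list of the visible variables on a representative sample.
-/

namespace Pool.Agent.H.MP_cba12a_lc.RK

open Finset Pool.Agent.H.MP_cba12a_lc

variable {n m : ℕ} {o : Fin n → Bool} {f q : (Fin n → Bool) → Bool} {ω : Fin m → Fin n → Bool}
  {R : ℕ} {τ : ℝ} {h : List (List Lit)} {V : List Lit}

private theorem EstV_est (hS : Smp o f q ω R τ V) (hr : h.length ≤ R) (hh : OrL o h)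
    {i j : Fin n} (hj : j ≠ i) :
    |(pcnt (smp f ω) h ((i : ℕ), o i) [] : ℝ) / m - mu (pv q h i (o i) [])| < 4 * τ ∧
    |(pcnt (smp f ω) h ((i : ℕ), o i) [((j : ℕ), o j)] : ℝ) / m -
      mu (pv q h i (o i) [((j : ℕ), o j)])| < 4 * τ ∧
    |(pcnt (smp f ω) (strip ((j : ℕ), o j) h) ((i : ℕ), o i) [neg ((j : ℕ), o j)] : ℝ) / m -
      mu (pv q (strip ((j : ℕ), o j) h) i (o i) [neg ((j : ℕ), o j)])| < 4 * τ := by
  have hne : (j : ℕ) ≠ i := fun hc => hj (Fin.ext hc)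
  refine ⟨?_, ?_, ?_⟩
  · exact pp_est hS hr hh (Z := []) (fun l hl => absurd hl (by simp))
  · refine pp_est hS hr hh (Z := [((j : ℕ), o j)]) (fun l hl => ?_)
    rw [List.mem_singleton] at hl
    rw [hl]
    exact ⟨j.2, hne⟩
  · refine pp_est hS (h := strip ((j : ℕ), o j) h) ?_ (hh.strip _)
      (Z := [neg ((j : ℕ), o j)]) (fun l hl => ?_)
    · unfold strip
      rw [List.length_map]
      exact hr
    · rw [List.mem_singleton] at hl
      rw [hl]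
      exact ⟨j.2, hne⟩

/- `κ β ≥ 4 M`; the empirical value of `β` is within `8 τ`, that of `M` within `4 τ`;
`κ * (β - 8 τ) ≥ 4 M - 8 κ τ ≥ 3 (M + 4 τ)`. -/
theorem vis_of (hS : Smp o f q ω R τ V) (hr : h.length ≤ R) (hh : OrL o h) {i j : Fin n} {κ : ℕ}
    (hM : (8 * κ + 12) * τ ≤ mu (pv q h i (o i) [])) (hj : j ≠ i) (hjV : ((j : ℕ), o j) ∈ V)
    (hβ : 4 * mu (pv q h i (o i) []) ≤ κ * beta o q h i j) :
    ((j : ℕ), o j) ∈ vis κ V (smp f ω) h ((i : ℕ), o i) := by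
  obtain ⟨h1, h2, h3⟩ := EstV_est hS hr hh hj
  rw [beta_eq hh hj] at hβ
  have hm : (0 : ℝ) < m := by exact_mod_cast hS.hm
  have hτ := hS.hτ
  obtain ⟨P, hP⟩ : ∃ P, P = pcnt (smp f ω) h ((i : ℕ), o i) [] := ⟨_, rfl⟩
  obtain ⟨A, hA⟩ : ∃ A, A = pcnt (smp f ω) h ((i : ℕ), o i) [((j : ℕ), o j)] := ⟨_, rfl⟩
  obtain ⟨B, hB⟩ : ∃ B, B =
    pcnt (smp f ω) (strip ((j : ℕ), o j) h) ((i : ℕ), o i) [neg ((j : ℕ), o j)] := ⟨_, rfl⟩
  rw [← hP] at h1
  rw [← hA] at h2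
  rw [← hB] at h3
  generalize mu (pv q h i (o i) []) = M at hM hβ h1
  generalize mu (pv q h i (o i) [((j : ℕ), o j)]) = μ₁ at hβ h2
  generalize mu (pv q (strip ((j : ℕ), o j) h) i (o i) [neg ((j : ℕ), o j)]) = μ₂ at hβ h3
  rw [abs_lt] at h1 h2 h3
  have hκ : (0 : ℝ) ≤ κ := Nat.cast_nonneg κ
  have e1 : 3 * ((P : ℝ) / m) ≤ κ * ((A : ℝ) / m - (B : ℝ) / m) := by
    have e2 : κ * (μ₁ - μ₂ - 8 * τ) ≤ κ * ((A : ℝ) / m - (B : ℝ) / m) :=
      mul_le_mul_of_nonneg_left (by linarith [h2.1, h3.2]) hκ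
    nlinarith [h1.2]
  have e3 : 3 * (P : ℝ) ≤ κ * ((A : ℝ) - B) := by
    have e4 : κ * ((A : ℝ) / m - (B : ℝ) / m) = κ * ((A : ℝ) - B) / m := by ring
    rw [e4, ← mul_div_assoc] at e1
    exact (div_le_div_iff_of_pos_right hm).1 e1
  have e5 : ((A : ℝ) - B) ≤ ((A - B : ℕ) : ℝ) := by
    have e7 : A ≤ (A - B) + B := by omega
    have e8 : (A : ℝ) ≤ (((A - B) + B : ℕ) : ℝ) := Nat.cast_le.2 e7
    rw [Nat.cast_add] at e8
    linarith
  have e6 : 3 * P ≤ κ * (A - B) := by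
    have := e3.trans (mul_le_mul_of_nonneg_left e5 hκ)
    exact_mod_cast this
  unfold vis
  rw [List.mem_filter]
  refine ⟨hjV, ?_⟩
  rw [Bool.and_eq_true]
  refine ⟨?_, ?_⟩
  · have hne : (j : ℕ) ≠ i := fun hc => hj (Fin.ext hc)
    simpa using hne
  · rw [decide_eq_true_iff, ← hP, ← hA, ← hB]
    exact e6

/- `pcnt .. [] > 0` by `hM`, so the truncated difference is positive and equal to the real
difference; `κ (β + 8 τ) ≥ 3 (M - 4 τ)`. -/
theorem of_vis (hS : Smp o f q ω R τ V) (hr : h.length ≤ R) (hh : OrL o h) {i : Fin n} {κ : ℕ}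
    (hM : (8 * κ + 12) * τ ≤ mu (pv q h i (o i) [])) {l : Lit}
    (hl : l ∈ vis κ V (smp f ω) h ((i : ℕ), o i)) :
    ∃ j : Fin n, j ≠ i ∧ l = ((j : ℕ), o j) ∧ 2 * mu (pv q h i (o i) []) ≤ κ * beta o q h i j := by
  unfold vis at hl
  rw [List.mem_filter, Bool.and_eq_true, decide_eq_true_iff] at hl
  obtain ⟨hlV, hli, hle⟩ := hl
  obtain ⟨j, rfl⟩ := hS.lits l hlV
  have hj : j ≠ i := by
    rintro rfl
    simp at hli
  refine ⟨j, hj, rfl, ?_⟩
  obtain ⟨h1, h2, h3⟩ := EstV_est hS hr hh hj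
  rw [beta_eq hh hj]
  have hm : (0 : ℝ) < m := by exact_mod_cast hS.hm
  have hτ := hS.hτ
  obtain ⟨P, hP⟩ : ∃ P, P = pcnt (smp f ω) h ((i : ℕ), o i) [] := ⟨_, rfl⟩
  obtain ⟨A, hA⟩ : ∃ A, A = pcnt (smp f ω) h ((i : ℕ), o i) [((j : ℕ), o j)] := ⟨_, rfl⟩
  obtain ⟨B, hB⟩ : ∃ B, B =
    pcnt (smp f ω) (strip ((j : ℕ), o j) h) ((i : ℕ), o i) [neg ((j : ℕ), o j)] := ⟨_, rfl⟩
  rw [← hP, ← hA, ← hB] at hle
  rw [← hP] at h1
  rw [← hA] at h2
  rw [← hB] at h3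
  generalize mu (pv q h i (o i) []) = M at hM h1 ⊢
  generalize mu (pv q h i (o i) [((j : ℕ), o j)]) = μ₁ at h2 ⊢
  generalize mu (pv q (strip ((j : ℕ), o j) h) i (o i) [neg ((j : ℕ), o j)]) = μ₂ at h3 ⊢
  rw [abs_lt] at h1 h2 h3
  have hκ : (0 : ℝ) ≤ κ := Nat.cast_nonneg κ
  have hκτ : 0 ≤ κ * τ := mul_nonneg hκ hτ.le
  have hPm : 0 < (P : ℝ) / m := by nlinarith [h1.1]
  have hP0 : 0 < P := by
    rcases Nat.eq_zero_or_pos P with h0 | h0
    · rw [h0, Nat.cast_zero, zero_div] at hPm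
      exact absurd hPm (lt_irrefl _)
    · exact h0
  have hAB : B ≤ A := by
    by_contra hc
    rw [Nat.sub_eq_zero_of_le (by omega), Nat.mul_zero] at hle
    omega
  have e1 : 3 * (P : ℝ) ≤ κ * ((A : ℝ) - B) := by
    have e2 : ((3 * P : ℕ) : ℝ) ≤ ((κ * (A - B) : ℕ) : ℝ) := by exact_mod_cast hle
    rw [Nat.cast_mul, Nat.cast_mul, Nat.cast_sub hAB] at e2
    exact_mod_cast e2
  have e3 : 3 * ((P : ℝ) / m) ≤ κ * ((A : ℝ) / m - (B : ℝ) / m) := by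
    have e4 : κ * ((A : ℝ) / m - (B : ℝ) / m) = κ * ((A : ℝ) - B) / m := by ring
    rw [e4, ← mul_div_assoc]
    exact (div_le_div_iff_of_pos_right hm).2 e1
  have e5 : κ * ((A : ℝ) / m - (B : ℝ) / m) ≤ κ * (μ₁ - μ₂ + 8 * τ) :=
    mul_le_mul_of_nonneg_left (by linarith [h2.2, h3.1]) hκ
  nlinarith [h1.1]

/- `of_vis` and `vis_card` with `κ := 4 * k * L`; the list is `Nodup`. -/
theorem length_vis_le {k L : ℕ} {F : Finset (Finset (Fin n))} {rk : Finset (Fin n) → ℕ}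
    (hS : Smp o f q ω R τ V) (hR : RefF o q F k L) (hrk : Function.Injective rk)
    (hr : h.length ≤ R) (hh : OrL o h) {i : Fin n}
    (hM0 : 0 < mu (pv q h i (o i) []))
    (hM : (8 * ((4 * k * L : ℕ) : ℝ) + 12) * τ ≤ mu (pv q h i (o i) [])) :
    (vis (4 * k * L) V (smp f ω) h ((i : ℕ), o i)).length ≤ 2 * k * L ^ 2 := by
  classical
  have hnd : (vis (4 * k * L) V (smp f ω) h ((i : ℕ), o i)).Nodup := by
    unfold vis
    exact hS.nodup.filter _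
  obtain ⟨J, hJ⟩ : ∃ J : Finset (Fin n), J = univ.filter fun j => j ≠ i ∧
    2 * mu (pv q h i (o i) []) ≤ ((4 * k * L : ℕ) : ℝ) * beta o q h i j := ⟨_, rfl⟩
  have h1 : (vis (4 * k * L) V (smp f ω) h ((i : ℕ), o i)).toFinset ⊆
      J.image fun j : Fin n => ((j : ℕ), o j) := by
    intro l hl
    rw [List.mem_toFinset] at hl
    obtain ⟨j, hj, rfl, hb⟩ := of_vis hS hr hh hM hl
    rw [mem_image, hJ]
    exact ⟨j, mem_filter.2 ⟨mem_univ _, hj, hb⟩, rfl⟩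
  have h2 : J.card ≤ 2 * k * L ^ 2 := by
    have h2n : (0 : ℝ) < 2 ^ n := by positivity
    refine vis_card (h := h) (i := i) hR hrk ?_ ?_
    · rw [mu_pv_eq] at hM0
      rcases Nat.eq_zero_or_pos (pvS o q h i).card with h0 | h0
      · rw [h0, Nat.cast_zero, zero_div] at hM0
        exact absurd hM0 (lt_irrefl _)
      · exact h0
    · intro j hj
      rw [hJ, mem_filter] at hj
      obtain ⟨_, hj, hb⟩ := hj
      refine ⟨hj, ?_⟩
      rw [mu_pv_eq, beta] at hb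
      have h3 : ((4 * k * L : ℕ) : ℝ) = 2 * (2 * (k : ℝ) * L) := by
        push_cast
        ring
      rw [h3] at hb
      have h4 : ((pvS o q h i).card : ℝ) / 2 ^ n ≤
          (2 * (k : ℝ) * L) * (((cU o q h i j).card : ℝ) - (cD o q h i j).card) / 2 ^ n := by
        have h5 : 2 * (2 * (k : ℝ) * L) *
            ((((cU o q h i j).card : ℝ) - (cD o q h i j).card) / 2 ^ n) =
            2 * ((2 * (k : ℝ) * L) *
              (((cU o q h i j).card : ℝ) - (cD o q h i j).card) / 2 ^ n) := by ring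
        rw [h5] at hb
        linarith
      have h6 := (div_le_div_iff_of_pos_right h2n).1 h4
      have h7 : ((pvS o q h i).card : ℝ) + 2 * k * L * (cD o q h i j).card ≤
          2 * k * L * (cU o q h i j).card := by linarith
      exact_mod_cast h7
  calc (vis (4 * k * L) V (smp f ω) h ((i : ℕ), o i)).length =
      (vis (4 * k * L) V (smp f ω) h ((i : ℕ), o i)).toFinset.card :=
        (List.toFinset_card_of_nodup hnd).symm
    _ ≤ (J.image fun j : Fin n => ((j : ℕ), o j)).card := card_le_card h1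
    _ ≤ J.card := card_image_le
    _ ≤ 2 * k * L ^ 2 := h2

end Pool.Agent.H.MP_cba12a_lc.RK
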