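import Pool.Agent.H.MP_cba12a_lc.RK.Frc

/-!
Random exposure: few variables are blocked through sets with few elements outside `T`.
-/

namespace Pool.Agent.H.MP_cba12a_lc.RK

open Finset Pool.Agent.H.MP_cba12a_lc

variable {n : ℕ}

private theorem expo_lin (D s : ℕ) : 2 ^ s * (D + 1) ≤ 2 ^ s * s + 2 ^ D := by
  rcases Nat.lt_or_ge D s with h | h
  · have h1 : 2 ^ s * (D + 1) ≤ 2 ^ s * s := Nat.mul_le_mul_left _ h
    exact le_trans h1 (Nat.le_add_right _ _)
  · obtain ⟨e, rfl⟩ := Nat.exists_eq_add_of_le h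
    have h1 : e + 1 ≤ 2 ^ e := Nat.lt_two_pow_self
    have h2 : 2 ^ s * (e + 1) ≤ 2 ^ s * 2 ^ e := Nat.mul_le_mul_left _ h1
    have h3 : 2 ^ s * (s + e + 1) = 2 ^ s * s + 2 ^ s * (e + 1) := by ring
    rw [h3, pow_add]
    exact Nat.add_le_add_left h2 _

/- PROOF. `D + 1 ≤ s + 2 ^ D / 2 ^ s` for all naturals, i.e. `2 ^ s * (D + 1) ≤ 2 ^ s * s + 2 ^ D`
(for `D ≤ s - 1` trivial; for `D = s + e` it says `2 ^ s * (e + 1) ≤ 2 ^ (s + e)`). Sum over `E`
and use `frc_sum` and `hs`. -/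
theorem frc_le {o : Fin n → Bool} {𝓕 : Finset (Finset (Fin n))} {T : Finset (Fin n)}
    {E : Finset (Fin n → Bool)} (hT : ∀ x ∈ E, On o T x)
    (hF : ∀ x ∈ E, ∀ S ∈ 𝓕, ¬ On o S x) {r s : ℕ} (c : Fin n → Fin (r + 1))
    (hs : 2 ^ n ≤ 2 ^ s * (2 ^ T.card * E.card)) :
    ∑ x ∈ E, (frc o 𝓕 T c x).card ≤ s * E.card := by
  have h1 := frc_sum hT hF c
  have h2 : ∑ x ∈ E, 2 ^ s * ((frc o 𝓕 T c x).card + 1)
      ≤ ∑ x ∈ E, (2 ^ s * s + 2 ^ (frc o 𝓕 T c x).card) :=
    Finset.sum_le_sum fun x _ => expo_lin _ _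
  rw [← Finset.mul_sum, Finset.sum_add_distrib, Finset.sum_add_distrib, Finset.sum_const,
    Finset.sum_const, smul_eq_mul, smul_eq_mul, mul_one] at h2
  have h3 : 2 ^ T.card * (2 ^ s * (∑ x ∈ E, (frc o 𝓕 T c x).card + E.card))
      ≤ 2 ^ T.card * (E.card * (2 ^ s * s) + ∑ x ∈ E, 2 ^ (frc o 𝓕 T c x).card) :=
    Nat.mul_le_mul_left _ h2
  rw [Nat.mul_add (2 ^ T.card) (E.card * (2 ^ s * s))] at h3
  have h4 : (2 ^ T.card * 2 ^ s) * (∑ x ∈ E, (frc o 𝓕 T c x).card + E.card)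
      ≤ (2 ^ T.card * 2 ^ s) * (s * E.card + E.card) := by
    calc (2 ^ T.card * 2 ^ s) * (∑ x ∈ E, (frc o 𝓕 T c x).card + E.card)
        = 2 ^ T.card * (2 ^ s * (∑ x ∈ E, (frc o 𝓕 T c x).card + E.card)) := by ring
      _ ≤ 2 ^ T.card * (E.card * (2 ^ s * s))
          + 2 ^ T.card * ∑ x ∈ E, 2 ^ (frc o 𝓕 T c x).card := h3
      _ ≤ 2 ^ T.card * (E.card * (2 ^ s * s)) + 2 ^ s * (2 ^ T.card * E.card) :=
          Nat.add_le_add_left (le_trans h1 hs) _
      _ = (2 ^ T.card * 2 ^ s) * (s * E.card + E.card) := by ring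
  have h5 := Nat.le_of_mul_le_mul_left h4 (by positivity)
  omega

private theorem expo_pow (r w : ℕ) (h : w ≤ r) : (r + 1) ^ w ≤ 4 * r ^ w := by
  rcases Nat.eq_zero_or_pos r with h0 | h0
  · subst h0
    have : w = 0 := by omega
    subst this
    norm_num
  · have hr : (0 : ℝ) < r := by exact_mod_cast h0
    have h1 : (((r : ℝ) + 1)) ^ w ≤ 4 * (r : ℝ) ^ w := by
      have h2 : (r : ℝ) + 1 = r * (1 / r + 1) := by
        field_simp
        ring
      have h3 : (1 / (r : ℝ) + 1) ^ w ≤ 4 := by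
        have h4 : (1 / (r : ℝ) + 1) ^ w ≤ (Real.exp (1 / r)) ^ w :=
          pow_le_pow_left₀ (by positivity) (Real.add_one_le_exp _) _
        have h5 : (Real.exp (1 / (r : ℝ))) ^ w = Real.exp (w * (1 / r)) :=
          (Real.exp_nat_mul _ _).symm
        have h6 : (w : ℝ) * (1 / r) ≤ 1 := by
          rw [mul_one_div, div_le_one hr]
          exact_mod_cast h
        have h7 : Real.exp (w * (1 / (r : ℝ))) ≤ Real.exp 1 := Real.exp_le_exp.mpr h6
        have h8 := Real.exp_one_lt_d9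
        linarith
      rw [h2, mul_pow]
      have h9 : (0 : ℝ) ≤ (r : ℝ) ^ w := by positivity
      nlinarith
    exact_mod_cast h1

/- PROOF. `4 * r ^ w ≥ (r + 1) ^ w` for `w ≤ r` (since `(1 + 1/r) ^ r ≤ e ≤ 4`; use
`Real.add_one_le_exp`, or Bernoulli-free: `(1 + 1/r)^r ≤ exp 1 < 2.7182818286`), and the number of
colourings with `c j = 0` and `c l ≠ 0` for all `l ∈ W` is `r ^ w * (r + 1) ^ (n - 1 - w)`
(`Fintype.card_piFinset`). -/
theorem col_count {r : ℕ} (j : Fin n) (W : Finset (Fin n)) (hj : j ∉ W) (hW : W.card ≤ r) :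
    (r + 1) ^ n ≤ 4 * (r + 1) *
      (univ.filter fun c : Fin n → Fin (r + 1) => c j = 0 ∧ ∀ l ∈ W, c l ≠ 0).card := by
  classical
  set A : Fin n → Finset (Fin (r + 1)) := fun l =>
    if l = j then {0} else if l ∈ W then univ.erase 0 else univ with hA
  have hfil : (univ.filter fun c : Fin n → Fin (r + 1) => c j = 0 ∧ ∀ l ∈ W, c l ≠ 0)
      = Fintype.piFinset A := by
    ext c
    rw [mem_filter, Fintype.mem_piFinset]
    constructor
    · rintro ⟨-, h1, h2⟩ l
      rw [hA]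
      by_cases hl : l = j
      · subst hl
        simp [h1]
      · by_cases hl2 : l ∈ W
        · simp [hl, hl2, h2 l hl2]
        · simp [hl, hl2]
    · intro h
      refine ⟨mem_univ _, ?_, fun l hl => ?_⟩
      · have := h j
        simpa [hA] using this
      · have h3 := h l
        have h4 : l ≠ j := fun h5 => hj (h5 ▸ hl)
        simpa [hA, h4, hl] using h3
  rw [hfil, Fintype.card_piFinset]
  have hsplit : ∏ l, (A l).card
      = (∏ l ∈ univ \ insert j W, (A l).card) * ∏ l ∈ insert j W, (A l).card :=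
    (Finset.prod_sdiff (subset_univ (insert j W))).symm
  have hrest : ∏ l ∈ univ \ insert j W, (A l).card = (r + 1) ^ (univ \ insert j W).card := by
    rw [← Finset.prod_const]
    refine Finset.prod_congr rfl fun l hl => ?_
    rw [mem_sdiff, mem_insert, not_or] at hl
    simp [hA, hl.2.1, hl.2.2]
  have hin : ∏ l ∈ insert j W, (A l).card = r ^ W.card := by
    rw [Finset.prod_insert hj]
    have h1 : (A j).card = 1 := by simp [hA]
    rw [h1, one_mul, ← Finset.prod_const]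
    refine Finset.prod_congr rfl fun l hl => ?_
    have h4 : l ≠ j := fun h5 => hj (h5 ▸ hl)
    simp [hA, h4, hl]
  have hcard : (univ \ insert j W).card + (W.card + 1) = n := by
    have h1 := Finset.card_sdiff_add_card_eq_card (subset_univ (insert j W))
    rw [Finset.card_insert_of_notMem hj, Finset.card_univ, Fintype.card_fin] at h1
    exact h1
  rw [hsplit, hrest, hin]
  calc (r + 1) ^ n = (r + 1) ^ ((univ \ insert j W).card + (W.card + 1)) := by rw [hcard]
    _ = (r + 1) ^ (univ \ insert j W).card * (r + 1) * (r + 1) ^ W.card := by ring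
    _ ≤ (r + 1) ^ (univ \ insert j W).card * (r + 1) * (4 * r ^ W.card) :=
        Nat.mul_le_mul_left _ (expo_pow r W.card hW)
    _ = 4 * (r + 1) * ((r + 1) ^ (univ \ insert j W).card * r ^ W.card) := by ring

/- PROOF. If `j ∈ blkS o 𝓕 T (r + 1) x` with the set `S` then `j ∈ frc o 𝓕 T c x` for all
colourings `c` with `c j = 0` and `c ≠ 0` on `W := (S \ T).erase j`, which has at most `r`
elements. Sum `frc_le` over all `(r + 1) ^ n` colourings, exchange the sums, use `col_count`. -/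
theorem expo {o : Fin n → Bool} {𝓕 : Finset (Finset (Fin n))} {T : Finset (Fin n)}
    {E : Finset (Fin n → Bool)} (hT : ∀ x ∈ E, On o T x)
    (hF : ∀ x ∈ E, ∀ S ∈ 𝓕, ¬ On o S x) {r s : ℕ} (hr : 1 ≤ r)
    (hs : 2 ^ n ≤ 2 ^ s * (2 ^ T.card * E.card)) :
    ∑ x ∈ E, (blkS o 𝓕 T r x).card ≤ 4 * r * s * E.card := by
  classical
  obtain ⟨r, rfl⟩ : ∃ r', r = r' + 1 := ⟨r - 1, by omega⟩
  have hone : ∀ x, ∀ j ∈ blkS o 𝓕 T (r + 1) x, (r + 1) ^ n ≤ 4 * (r + 1) *
      (univ.filter fun c : Fin n → Fin (r + 1) => j ∈ frc o 𝓕 T c x).card := by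
    intro x j hj
    rw [mem_blkS] at hj
    obtain ⟨hjT, S, hS, hSr, hjS, hOn⟩ := hj
    have hjST : j ∈ S \ T := mem_sdiff.mpr ⟨hjS, hjT⟩
    have hWc : ((S \ T).erase j).card ≤ r := by
      rw [Finset.card_erase_of_mem hjST]
      omega
    refine le_trans (col_count j ((S \ T).erase j) (Finset.notMem_erase _ _) hWc) ?_
    refine Nat.mul_le_mul_left _ (Finset.card_le_card fun c hc => ?_)
    rw [mem_filter] at hc ⊢
    refine ⟨mem_univ _, ?_⟩
    unfold frc
    rw [mem_filter]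
    refine ⟨mem_univ _, hjT, hc.2.1, S, hS, hjS, fun l hl => ⟨hc.2.2 l hl, hOn l ?_⟩⟩
    rw [mem_erase, mem_sdiff] at hl
    exact mem_erase.mpr ⟨hl.1, hl.2.1⟩
  have hx : ∀ x, (r + 1) ^ n * (blkS o 𝓕 T (r + 1) x).card
      ≤ 4 * (r + 1) * ∑ c : Fin n → Fin (r + 1), (frc o 𝓕 T c x).card := by
    intro x
    calc (r + 1) ^ n * (blkS o 𝓕 T (r + 1) x).card
        = ∑ j ∈ blkS o 𝓕 T (r + 1) x, (r + 1) ^ n := by
          rw [Finset.sum_const, smul_eq_mul, mul_comm]
      _ ≤ ∑ j ∈ blkS o 𝓕 T (r + 1) x, 4 * (r + 1) *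
          (univ.filter fun c : Fin n → Fin (r + 1) => j ∈ frc o 𝓕 T c x).card :=
          Finset.sum_le_sum (hone x)
      _ ≤ ∑ j, 4 * (r + 1) *
          (univ.filter fun c : Fin n → Fin (r + 1) => j ∈ frc o 𝓕 T c x).card :=
          Finset.sum_le_sum_of_subset (subset_univ _)
      _ = 4 * (r + 1) * ∑ j, ∑ c : Fin n → Fin (r + 1),
            if j ∈ frc o 𝓕 T c x then 1 else 0 := by
          rw [← Finset.mul_sum]
          congr 1
          refine Finset.sum_congr rfl fun j _ => ?_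
          rw [Finset.card_filter]
      _ = 4 * (r + 1) * ∑ c : Fin n → Fin (r + 1), (frc o 𝓕 T c x).card := by
          rw [Finset.sum_comm]
          congr 1
          refine Finset.sum_congr rfl fun c _ => ?_
          rw [← Finset.card_filter]
          congr 1
          ext j
          simp
  have hfin : (r + 1) ^ n * ∑ x ∈ E, (blkS o 𝓕 T (r + 1) x).card
      ≤ (r + 1) ^ n * (4 * (r + 1) * s * E.card) := by
    calc (r + 1) ^ n * ∑ x ∈ E, (blkS o 𝓕 T (r + 1) x).card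
        = ∑ x ∈ E, (r + 1) ^ n * (blkS o 𝓕 T (r + 1) x).card := Finset.mul_sum _ _ _
      _ ≤ ∑ x ∈ E, 4 * (r + 1) * ∑ c : Fin n → Fin (r + 1), (frc o 𝓕 T c x).card :=
          Finset.sum_le_sum fun x _ => hx x
      _ = 4 * (r + 1) * ∑ c : Fin n → Fin (r + 1), ∑ x ∈ E, (frc o 𝓕 T c x).card := by
          rw [← Finset.mul_sum, Finset.sum_comm]
      _ ≤ 4 * (r + 1) * ∑ c : Fin n → Fin (r + 1), s * E.card :=
          Nat.mul_le_mul_left _ (Finset.sum_le_sum fun c _ => frc_le hT hF c hs)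
      _ = (r + 1) ^ n * (4 * (r + 1) * s * E.card) := by
          rw [Finset.sum_const, smul_eq_mul, Finset.card_univ, Fintype.card_fun, Fintype.card_fin,
            Fintype.card_fin]
          ring
  exact Nat.le_of_mul_le_mul_left hfin (by positivity)

end Pool.Agent.H.MP_cba12a_lc.RK
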