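import Pool.Agent.H.MP_cba12a_lc.RK.EstF

/-!
A greedy choice of literals, and the extension step of the search.
-/

namespace Pool.Agent.H.MP_cba12a_lc.RK

open Finset Pool.Agent.H.MP_cba12a_lc

variable {n m : ℕ} {o : Fin n → Bool} {f q : (Fin n → Bool) → Bool} {ω : Fin m → Fin n → Bool}
  {R : ℕ} {τ : ℝ} {h : List (List Lit)} {V : List Lit}

theorem greedyB (q : (Fin n → Bool) → Bool) (h : List (List Lit)) (i : Fin n) (v : Bool)
    (Z T : List Lit) : ∀ j : ℕ,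
    (∃ S : List Lit, S.length ≤ j ∧ (∀ l ∈ S, l ∈ T) ∧
      ∀ l ∈ T, 3 / 4 * mu (pv q h i v (S ++ Z)) < mu (pv q h i v (l :: (S ++ Z)))) ∨
    (∃ S : List Lit, S.length ≤ j ∧ (∀ l ∈ S, l ∈ T) ∧
      mu (pv q h i v (S ++ Z)) ≤ (3 / 4) ^ j * mu (pv q h i v Z)) := by
  intro j
  induction j with
  | zero => right; exact ⟨[], by simp, by simp, by simp⟩
  | succ j ih =>
    rcases ih with ⟨S, h1, h2, h3⟩ | ⟨S, h1, h2, h3⟩
    · left; exact ⟨S, by omega, h2, h3⟩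
    · by_cases hc : ∀ l ∈ T, 3 / 4 * mu (pv q h i v (S ++ Z)) < mu (pv q h i v (l :: (S ++ Z)))
      · left; exact ⟨S, by omega, h2, hc⟩
      · right
        push Not at hc
        obtain ⟨l, hl, hle⟩ := hc
        refine ⟨l :: S, by simpa using h1, ?_, ?_⟩
        · intro l' hl'
          rcases List.mem_cons.1 hl' with rfl | hl'
          · exact hl
          · exact h2 l' hl'
        · rw [pow_succ, List.cons_append]
          linarith

private theorem Ext_card_le {A : Finset (Fin n → Bool)} {E : (Fin n → Bool) → Bool}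
    (hE : ∀ x ∈ A, E x = true) : (A.card : ℝ) / 2 ^ n ≤ mu E := by
  have h1 : A.card ≤ ct E := by
    unfold ct
    exact card_le_card fun x hx => mem_filter.2 ⟨mem_univ _, hE x hx⟩
  have h2 : ((Fintype.card (Fin n → Bool) : ℕ) : ℝ) = 2 ^ n := by
    rw [Fintype.card_fun]
    simp
  unfold mu
  rw [h2]
  refine div_le_div_of_nonneg_right ?_ (by positivity)
  exact_mod_cast h1

theorem ext_ex {F : Finset (Finset (Fin n))} {rk : Finset (Fin n) → ℕ} {T : Finset (Fin n)}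
    {k N c : ℕ} {ρ : ℝ} {i : Fin n} {Z U : List Lit}
    (hS : Smp o f q ω R τ V) (hr : h.length ≤ R) (hh : OrL o h) (hρ : 256 * τ ≤ ρ)
    (hc : (27 / 64 : ℝ) ^ c * (2 * k) < 1) (hTV : ∀ j ∈ T, ((j : ℕ), o j) ∈ V)
    (hT0 : ρ ≤ ((fstT o q F rk h i T).card : ℝ) / 2 ^ n)
    (hTk : mu (pv q h i (o i) []) ≤ 2 * k * (((fstT o q F rk h i T).card : ℝ) / 2 ^ n))
    (hU : ∀ l ∈ U, l ∈ V) (hZ : ∀ l ∈ Z, ∃ j ∈ T.erase i, l = ((j : ℕ), o j))
    (hN1 : (U.length + 1) ^ (3 * c) ≤ N) (hN2 : (1 / ρ) ^ 10 ≤ (N : ℝ)) :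
    ∃ C ∈ extR N (3 * c) V U (smp f ω) h ((i : ℕ), o i) Z,
      (∀ l ∈ C, ∃ j ∈ T.erase i, l = ((j : ℕ), o j)) ∧ (∀ l ∈ Z, l ∈ C) ∧
      ∀ j ∈ T.erase i, ((j : ℕ), o j) ∈ U → ((j : ℕ), o j) ∈ C := by
  classical
  have hρ0 : 0 < ρ := by
    have := hS.hτ
    linarith
  have hge : ∀ S : List Lit, (∀ l ∈ S, ∃ j ∈ T.erase i, l = ((j : ℕ), o j)) →
      ((fstT o q F rk h i T).card : ℝ) / 2 ^ n ≤ mu (pv q h i (o i) S) := by
    intro S hSl
    refine Ext_card_le fun x hx => ?_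
    obtain ⟨h1, h2, -⟩ := mem_fstT.1 hx
    rw [pv_iff] at h1 ⊢
    refine ⟨h1.1, h1.2.1, h1.2.2.1, h1.2.2.2.1, ?_⟩
    rw [sat_iff]
    intro l hl
    obtain ⟨j, hj, rfl⟩ := hSl l hl
    rw [getElem?_ofFn]
    exact ⟨j.2, h2 j (mem_of_mem_erase hj)⟩
  have hφ0 : 0 < ((fstT o q F rk h i T).card : ℝ) / 2 ^ n := lt_of_lt_of_le hρ0 hT0
  have hZle : mu (pv q h i (o i) Z) ≤ mu (pv q h i (o i) []) := by
    refine mu_mono fun x hx => ?_
    rw [pv_iff] at hx ⊢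
    exact ⟨hx.1, hx.2.1, hx.2.2.1, hx.2.2.2.1, sat_iff.2 fun l hl => absurd hl (by simp)⟩
  obtain ⟨S1, hS1l, hS1U, hS1⟩ : ∃ S : List Lit, S.length ≤ 3 * c ∧
      (∀ l ∈ S, l ∈ U.filter fun l => decide (∃ j ∈ T.erase i, l = ((j : ℕ), o j))) ∧
      ∀ l ∈ U.filter fun l => decide (∃ j ∈ T.erase i, l = ((j : ℕ), o j)),
        3 / 4 * mu (pv q h i (o i) (S ++ Z)) < mu (pv q h i (o i) (l :: (S ++ Z))) := by
    rcases greedyB q h i (o i) Z
      (U.filter fun l => decide (∃ j ∈ T.erase i, l = ((j : ℕ), o j))) (3 * c) with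
      h1 | ⟨S, -, hSU, hSle⟩
    · exact h1
    · exfalso
      have h1 : ((fstT o q F rk h i T).card : ℝ) / 2 ^ n ≤ mu (pv q h i (o i) (S ++ Z)) := by
        refine hge _ fun l hl => ?_
        rcases List.mem_append.1 hl with hl | hl
        · have := (List.mem_filter.1 (hSU l hl)).2
          rwa [decide_eq_true_iff] at this
        · exact hZ l hl
      have h2 : ((3 : ℝ) / 4) ^ (3 * c) = (27 / 64) ^ c := by
        rw [pow_mul]; norm_num
      rw [h2] at hSle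
      have h3 : (27 / 64 : ℝ) ^ c * mu (pv q h i (o i) Z) ≤
          (27 / 64 : ℝ) ^ c * (2 * k * (((fstT o q F rk h i T).card : ℝ) / 2 ^ n)) :=
        mul_le_mul_of_nonneg_left (hZle.trans hTk) (by positivity)
      have h4 : (27 / 64 : ℝ) ^ c * (2 * k * (((fstT o q F rk h i T).card : ℝ) / 2 ^ n)) <
          ((fstT o q F rk h i T).card : ℝ) / 2 ^ n := by
        have h5 := mul_lt_mul_of_pos_right hc hφ0
        rw [one_mul] at h5
        calc _ = (27 / 64 : ℝ) ^ c * (2 * k) * (((fstT o q F rk h i T).card : ℝ) / 2 ^ n) := by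
              ring
          _ < _ := h5
      linarith
  have hSZ : ∀ l ∈ S1 ++ Z, ∃ j ∈ T.erase i, l = ((j : ℕ), o j) := by
    intro l hl
    rcases List.mem_append.1 hl with hl | hl
    · have := (List.mem_filter.1 (hS1U l hl)).2
      rwa [decide_eq_true_iff] at this
    · exact hZ l hl
  have hSZV : ∀ l ∈ S1 ++ Z, l ∈ V ∧ l.1 ≠ i := by
    intro l hl
    obtain ⟨j, hj, rfl⟩ := hSZ l hl
    exact ⟨hTV j (mem_of_mem_erase hj), fun h => ne_of_mem_erase hj (Fin.ext h)⟩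
  have hα1 : ρ ≤ mu (pv q h i (o i) (S1 ++ Z)) := hT0.trans (hge _ hSZ)
  have hα : 256 * τ ≤ mu (pv q h i (o i) (S1 ++ Z)) := hρ.trans hα1
  have hb := freq_len hS hr hh hSZV hα
  have hpowN : 2 ^ (freq4 V (smp f ω) h ((i : ℕ), o i) (S1 ++ Z)).length ≤ N := by
    have h2 : ρ ^ 10 ≤ mu (pv q h i (o i) (S1 ++ Z)) ^ 10 := pow_le_pow_left₀ hρ0.le hα1 10
    have h3 : (2 : ℝ) ^ (freq4 V (smp f ω) h ((i : ℕ), o i) (S1 ++ Z)).length * ρ ^ 10 ≤ 1 :=
      le_trans (mul_le_mul_of_nonneg_left h2 (by positivity)) hb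
    have h4 : (2 : ℝ) ^ (freq4 V (smp f ω) h ((i : ℕ), o i) (S1 ++ Z)).length ≤
        (1 / ρ) ^ 10 := by
      rw [one_div_pow, le_div_iff₀ (by positivity)]
      exact h3
    have h5 : (2 : ℝ) ^ (freq4 V (smp f ω) h ((i : ℕ), o i) (S1 ++ Z)).length ≤ N :=
      h4.trans hN2
    exact_mod_cast h5
  obtain ⟨W, hW, hWl⟩ := mem_subs hpowN (fun l => ∃ j ∈ T.erase i, l = ((j : ℕ), o j))
  refine ⟨W ++ (S1 ++ Z), ?_, ?_, ?_, ?_⟩
  · unfold extR
    exact List.mem_flatMap.2 ⟨S1, mem_seeds hN1 hS1l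
      (fun l hl => (List.mem_filter.1 (hS1U l hl)).1), List.mem_map.2 ⟨W, hW, rfl⟩⟩
  · intro l hl
    rcases List.mem_append.1 hl with hl | hl
    · exact ((hWl l).1 hl).2
    · exact hSZ l hl
  · intro l hl
    exact List.mem_append_right _ (List.mem_append_right _ hl)
  · intro j hj hjU
    have hl : ((j : ℕ), o j) ∈ U.filter fun l => decide (∃ j ∈ T.erase i, l = ((j : ℕ), o j)) :=
      List.mem_filter.2 ⟨hjU, decide_eq_true ⟨j, hj, rfl⟩⟩
    refine List.mem_append_left _ ((hWl _).2 ⟨?_, j, hj, rfl⟩)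
    exact freq_of hS hr hh hSZV hα (hTV j (mem_of_mem_erase hj))
      (fun h => ne_of_mem_erase hj (Fin.ext h)) (hS1 _ hl)

end Pool.Agent.H.MP_cba12a_lc.RK
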