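import Pool.Agent.H.MP_cba12a_lc.RK.Defs

/-!
The sum of the rates of the terms is small unless the function is almost constantly true.
-/

namespace Pool.Agent.H.MP_cba12a_lc.RK

open Finset Pool.Agent.H.MP_cba12a_lc

variable {n : ℕ} {o : Fin n → Bool} {q : (Fin n → Bool) → Bool} {F : Finset (Finset (Fin n))}
  {k L : ℕ}

private theorem Rates_sum_pr {ι : Type} (N : Finset ι) (Q : ι → (Fin n → Bool) → Prop)
    (hd : ∀ i ∈ N, ∀ j ∈ N, ∀ x, Q i x → Q j x → i = j) : ∑ i ∈ N, pr (Q i) ≤ 1 := by
  classical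
  have hN : (0 : ℝ) < 2 ^ n := by positivity
  have h1 : ∀ i, pr (Q i) * 2 ^ n = ∑ x, bR (decide (Q i x)) := fun i =>
    (sum_bR (Q i) (fun x => decide (Q i x)) fun x => decide_eq_true_iff).symm
  have h2 : (∑ i ∈ N, pr (Q i)) * 2 ^ n ≤ 1 * 2 ^ n := by
    rw [sum_mul, sum_congr rfl fun i _ => h1 i, sum_comm]
    have h3 : ∀ x : Fin n → Bool, ∑ i ∈ N, bR (decide (Q i x)) ≤ 1 := by
      intro x
      by_cases hx : ∃ i ∈ N, Q i x
      · obtain ⟨i, hi, hq⟩ := hx
        rw [sum_eq_single i]
        · unfold bR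
          split_ifs <;> norm_num
        · intro j hj hji
          have hqj : ¬ Q j x := fun hc => hji (hd j hj i hi x hc hq)
          unfold bR
          rw [decide_eq_false hqj]
          simp
        · intro hc
          exact absurd hi hc
      · have h4 : ∑ i ∈ N, bR (decide (Q i x)) = 0 := by
          refine sum_eq_zero fun i hi => ?_
          have hqi : ¬ Q i x := fun hc => hx ⟨i, hi, hc⟩
          unfold bR
          rw [decide_eq_false hqi]
          simp
        rw [h4]
        exact zero_le_one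
    refine (sum_le_sum fun x _ => h3 x).trans ?_
    rw [sum_const, card_univ, nsmul_eq_mul, mul_one, one_mul]
    simp
  exact le_of_mul_le_mul_right h2 hN

/- PROOF. The events that `D` is the only member of the family which holds are disjoint. -/
theorem disj_rates (hR : RefF o q F k L) {𝓓 : Finset (Finset (Fin n))} (h𝓓 : 𝓓 ⊆ F)
    (hd : ∀ A ∈ 𝓓, ∀ B ∈ 𝓓, A ≠ B → Disjoint A B) :
    (∑ D ∈ 𝓓, (1 / 2 : ℝ) ^ D.card) * pr (fun x => q x = false) ≤ 1 := by
  classical
  have h1 : ∀ D ∈ 𝓓, (1 / 2 : ℝ) ^ D.card * pr (fun x => q x = false) ≤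
      pr (fun y => On o D y ∧ ∀ D' ∈ 𝓓, D' ≠ D → ¬ On o D' y) := by
    intro D hD
    rw [pr_on]
    refine mul_le_mul_of_nonneg_left (pr_mono fun x hx => ?_) (by positivity)
    intro D' hD' hne hon
    have h2 : On o D' x := by
      intro i hi
      have h3 : i ∉ D := disjoint_left.1 (hd D' hD' D hD hne) hi
      have h4 := hon i hi
      rw [sOn_not_mem h3] at h4
      exact h4
    have h5 : q x = true := (hR.iff x).2 ⟨D', h𝓓 hD', h2⟩
    rw [hx] at h5
    exact Bool.noConfusion h5
  rw [sum_mul]
  refine (sum_le_sum h1).trans (Rates_sum_pr 𝓓 _ ?_)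
  intro A hA B hB x hx hy
  by_contra hne
  exact hx.2 B hB (Ne.symm hne) hy.1

/- PROOF. Take a smallest member, discard the members which meet it, and go on. -/
theorem greedy_disj (hread : ∀ i, (F.filter fun T => i ∈ T).card ≤ k)
    (hlen : ∀ T ∈ F, T.card ≤ L) : ∀ G ⊆ F, (∀ T ∈ G, T.Nonempty) → ∃ 𝓓 ⊆ G,
      (∀ A ∈ 𝓓, ∀ B ∈ 𝓓, A ≠ B → Disjoint A B) ∧
      ∑ T ∈ G, (1 / 2 : ℝ) ^ T.card ≤ k * L * ∑ D ∈ 𝓓, (1 / 2 : ℝ) ^ D.card := by
  classical
  intro G
  induction G using Finset.strongInduction with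
  | H G ih =>
    intro hG hne
    rcases G.eq_empty_or_nonempty with h0 | h0
    · refine ⟨∅, empty_subset _, fun A hA => absurd hA (notMem_empty A), ?_⟩
      rw [h0]
      simp
    · obtain ⟨T0, hT0, hmin⟩ := exists_min_image G Finset.card h0
      have hT0' : T0 ∉ G.filter fun T => Disjoint T T0 := by
        intro hc
        have h1 := (mem_filter.1 hc).2
        rw [disjoint_self] at h1
        have h2 := hne T0 hT0
        rw [h1] at h2
        exact absurd h2 (by simp)
      have hss : (G.filter fun T => Disjoint T T0) ⊂ G := by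
        refine ⟨filter_subset _ _, fun hc => hT0' (hc hT0)⟩
      obtain ⟨𝓓, h𝓓, hdis, hsum⟩ := ih _ hss (fun T hT => hG (mem_of_mem_filter T hT))
        (fun T hT => hne T (mem_of_mem_filter T hT))
      have hnot : T0 ∉ 𝓓 := fun hc => hT0' (h𝓓 hc)
      refine ⟨insert T0 𝓓, ?_, ?_, ?_⟩
      · intro T hT
        rcases mem_insert.1 hT with h1 | h1
        · rw [h1]
          exact hT0
        · exact mem_of_mem_filter T (h𝓓 h1)
      · intro A hA B hB hAB
        rcases mem_insert.1 hA with h1 | h1
        · rcases mem_insert.1 hB with h2 | h2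
          · exact absurd (h1.trans h2.symm) hAB
          · rw [h1]
            exact ((mem_filter.1 (h𝓓 h2)).2).symm
        · rcases mem_insert.1 hB with h2 | h2
          · rw [h2]
            exact (mem_filter.1 (h𝓓 h1)).2
          · exact hdis A h1 B h2 hAB
      · rw [sum_insert hnot, mul_add,
          ← sum_filter_add_sum_filter_not G (fun T => Disjoint T T0)]
        have hcard : (G.filter fun T => ¬ Disjoint T T0).card ≤ L * k := by
          have h1 : (G.filter fun T => ¬ Disjoint T T0) ⊆
              T0.biUnion fun i => F.filter fun T => i ∈ T := by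
            intro T hT
            obtain ⟨h2, h3⟩ := mem_filter.1 hT
            rw [not_disjoint_iff] at h3
            obtain ⟨i, hi, hi'⟩ := h3
            exact mem_biUnion.2 ⟨i, hi', mem_filter.2 ⟨hG h2, hi⟩⟩
          refine (card_le_card h1).trans ((card_biUnion_le_card_mul T0 _ k
            fun i _ => hread i).trans ?_)
          exact Nat.mul_le_mul_right k (hlen T0 (hG hT0))
        have h2 : ∑ T ∈ G.filter (fun T => ¬ Disjoint T T0), (1 / 2 : ℝ) ^ T.card ≤
            k * L * (1 / 2 : ℝ) ^ T0.card := by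
          have h3 : ∀ T ∈ G.filter (fun T => ¬ Disjoint T T0),
              (1 / 2 : ℝ) ^ T.card ≤ (1 / 2 : ℝ) ^ T0.card := fun T hT =>
            pow_le_pow_of_le_one (by norm_num) (by norm_num) (hmin T (mem_of_mem_filter T hT))
          refine (sum_le_sum h3).trans ?_
          rw [sum_const, nsmul_eq_mul]
          refine mul_le_mul_of_nonneg_right ?_ (by positivity)
          have h4 : (((G.filter fun T => ¬ Disjoint T T0).card : ℕ) : ℝ) ≤ ((L * k : ℕ) : ℝ) := by
            exact_mod_cast hcard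
          push_cast at h4
          linarith
        linarith

/- PROOF. `greedy_disj` and `disj_rates`. -/
theorem rates (hR : RefF o q F k L) :
    (∑ T ∈ F, (1 / 2 : ℝ) ^ T.card) * pr (fun x => q x = false) ≤ k * L := by
  classical
  have hp := pr_nonneg (fun x : Fin n → Bool => q x = false)
  by_cases h0 : ∅ ∈ F
  · have h1 : pr (fun x => q x = false) = 0 := by
      have h2 : pr (fun x => q x = false) ≤
          ∑ i ∈ (∅ : Finset (Fin 1)), pr ((fun _ _ => False : Fin 1 → (Fin n → Bool) → Prop) i) :=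
        pr_le_sum ∅ _ _ fun x hx => by
          have h3 : q x = true := (hR.iff x).2 ⟨∅, h0, fun i hi => absurd hi (notMem_empty i)⟩
          rw [hx] at h3
          exact Bool.noConfusion h3
      rw [sum_empty] at h2
      exact le_antisymm h2 hp
    rw [h1, mul_zero]
    positivity
  · obtain ⟨𝓓, h𝓓, hdis, hsum⟩ := greedy_disj hR.read hR.len F (Subset.refl F)
      (fun T hT => nonempty_iff_ne_empty.2 fun hc => h0 (hc ▸ hT))
    have h1 := disj_rates hR h𝓓 hdis
    calc (∑ T ∈ F, (1 / 2 : ℝ) ^ T.card) * pr (fun x => q x = false)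
        ≤ (k * L * ∑ D ∈ 𝓓, (1 / 2 : ℝ) ^ D.card) * pr (fun x => q x = false) :=
          mul_le_mul_of_nonneg_right hsum hp
      _ = k * L * ((∑ D ∈ 𝓓, (1 / 2 : ℝ) ^ D.card) * pr (fun x => q x = false)) := by ring
      _ ≤ k * L * 1 := mul_le_mul_of_nonneg_left h1 (by positivity)
      _ = k * L := by ring

end Pool.Agent.H.MP_cba12a_lc.RK
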