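import Pool.Agent.H.MP_cba12a_lc.RK.Step
import Pool.Agent.H.MP_cba12a_lc.RK.Core
import Pool.Agent.H.MP_cba12a_lc.RK.Rates

/-!
The isoperimetric inequality at the end of the algorithm, and the error of the hypothesis.
-/

namespace Pool.Agent.H.MP_cba12a_lc.RK

open Finset Pool.Agent.H.MP_cba12a_lc

variable {n m : ℕ} {o : Fin n → Bool} {f q : (Fin n → Bool) → Bool} {ω : Fin m → Fin n → Bool}
  {R : ℕ} {τ : ℝ} {V : List Lit}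

/- PROOF. If no candidate passes then for every `i`, by `step_ne`, `M_i < 2 k ρ` or
`M_i < 4 k L badM_i / 2^n`, in both cases `M_i ≤ 2 k ρ + 4 k L badM_i / 2^n` (`mu_pv_eq`). Sum over
`i`, `iso_pv`, `bad_total`, and `rates`: `∑_T (1/2)^|T| ≤ k L * 4 a` as `pr (q = false) ≥ 1/(4a)`. -/
theorem iso_final {F : Finset (Finset (Fin n))} {rk : Finset (Fin n) → ℕ}
    {k L r s c N A0 B Θ a : ℕ} {ρ : ℝ} {H : List (List Lit)}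
    (hS : Smp o f q ω R τ V) (hR : RefF o q F k L) (hrk : Function.Injective rk)
    (hFV : ∀ T ∈ F, ∀ j ∈ T, ((j : ℕ), o j) ∈ V)
    (hr : H.length ≤ R) (hh : ∀ D ∈ H, ∀ l ∈ D, l ∈ V)
    (hc : (27 / 64 : ℝ) ^ c * (2 * k) < 1)
    (hr1 : 1 ≤ r) (hrs : k * (k * L) * 2 ^ s ≤ 2 ^ r)
    (hΘ : A0 * (4 * (4 * r * s + 3)) * 2 ^ (2 * (4 * (4 * r * s + 3)) + s + 4) ≤ Θ)
    (hN1 : (2 * k * L ^ 2 + 1) ^ (3 * c) ≤ N) (hN3 : (4 * Θ ^ 2 + 1) ^ (3 * c) ≤ N)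
    (hN2 : (1 / ρ) ^ 10 ≤ (N : ℝ)) (hA0 : 1 ≤ A0)
    (hτ1 : 256 * τ ≤ ρ) (hτ2 : (32 * L + 12) * τ ≤ ρ) (hτ3 : (8 * Θ + 4) * τ ≤ ρ)
    (hτ4 : 4 * (A0 + 1) * τ ≤ ρ) (hB : 1 ≤ ρ / 2 * B)
    (hgood : goodR A0 B N (3 * c) Θ (4 * k * L) V (smp f ω) H = []) (ha : 1 ≤ a)
    (hneg : 1 / (4 * a) ≤ mu (ev q false [] [])) :
    2 * mu (ev q true [] H) * mu (ev q false [] H) ≤
      n * (2 * k * ρ) + 16 * a * (k : ℝ) ^ 2 * (L : ℝ) ^ 3 * (1 / 2 : ℝ) ^ s := by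
  have hτ := hS.hτ
  have hρ0 : 0 < ρ := by linarith
  have hp : (0 : ℝ) < 2 ^ n := by positivity
  have ha' : (1 : ℝ) ≤ a := by exact_mod_cast ha
  have hkρ : 0 ≤ 2 * (k : ℝ) * ρ := by positivity
  have hi : ∀ i, mu (pv q H i (o i) []) ≤
      2 * k * ρ + 4 * k * L * (((badM o q F rk s H i : ℕ) : ℝ) / 2 ^ n) := by
    intro i
    by_contra hcon
    rw [not_le] at hcon
    have h0 : (0 : ℝ) ≤ 4 * k * L * (((badM o q F rk s H i : ℕ) : ℝ) / 2 ^ n) := by positivity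
    refine step_ne hS hR hrk hFV hr hh hc hr1 hrs hΘ hN1 hN3 hN2 hA0 hτ1 hτ2 hτ3 hτ4 hB
      (i := i) ?_ ?_ ?_ hgood
    · linarith
    · linarith
    · rw [mu_pv_eq] at hcon
      have h1 : 4 * k * L * (((badM o q F rk s H i : ℕ) : ℝ) / 2 ^ n) <
          ((pvS o q H i).card : ℝ) / 2 ^ n := by linarith
      rw [← mul_div_assoc, div_lt_div_iff_of_pos_right hp] at h1
      exact_mod_cast h1.le
  have h1 := iso_pv hR.up (h := H) fun D hD l hl => hS.lits l (hh D hD l hl)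
  have h2 : ∑ i, mu (pv q H i (o i) []) ≤
      n * (2 * k * ρ) + 4 * k * L * ∑ i, ((badM o q F rk s H i : ℕ) : ℝ) / 2 ^ n := by
    refine (sum_le_sum fun i _ => hi i).trans (le_of_eq ?_)
    rw [sum_add_distrib, sum_const, card_univ, Fintype.card_fin, nsmul_eq_mul, mul_sum]
  have h3 : ∑ i, ((badM o q F rk s H i : ℕ) : ℝ) / 2 ^ n ≤
      L * (1 / 2 : ℝ) ^ s * ∑ T ∈ F, (1 / 2 : ℝ) ^ T.card := bad_total hR
  have h4 := rates hR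
  have h5 : pr (fun x => q x = false) = mu (ev q false [] []) := by
    rw [mu_eq_pr]
    refine pr_congr fun x => ?_
    rw [ev_iff]
    constructor
    · exact fun h => ⟨h, rfl, rfl⟩
    · exact fun h => h.1
  rw [h5] at h4
  have h6 : 0 ≤ ∑ T ∈ F, (1 / 2 : ℝ) ^ T.card := sum_nonneg fun T _ => by positivity
  have h7 : (∑ T ∈ F, (1 / 2 : ℝ) ^ T.card) * (1 / (4 * a)) ≤ k * L :=
    (mul_le_mul_of_nonneg_left hneg h6).trans h4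
  have h8 : (∑ T ∈ F, (1 / 2 : ℝ) ^ T.card) ≤ k * L * (4 * a) := by
    rw [mul_one_div, div_le_iff₀ (by positivity)] at h7
    exact h7
  have h9 : 4 * (k : ℝ) * L * (L * (1 / 2 : ℝ) ^ s * ∑ T ∈ F, (1 / 2 : ℝ) ^ T.card) ≤
      4 * k * L * (L * (1 / 2 : ℝ) ^ s * (k * L * (4 * a))) := by
    refine mul_le_mul_of_nonneg_left (mul_le_mul_of_nonneg_left h8 (by positivity)) (by positivity)
  have h10 : 4 * (k : ℝ) * L * ∑ i, ((badM o q F rk s H i : ℕ) : ℝ) / 2 ^ n ≤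
      4 * k * L * (L * (1 / 2 : ℝ) ^ s * ∑ T ∈ F, (1 / 2 : ℝ) ^ T.card) :=
    mul_le_mul_of_nonneg_left h3 (by positivity)
  have h11 : 4 * (k : ℝ) * L * (L * (1 / 2 : ℝ) ^ s * (k * L * (4 * a))) =
      16 * a * (k : ℝ) ^ 2 * (L : ℝ) ^ 3 * (1 / 2 : ℝ) ^ s := by ring
  linarith

/- PROOF. `coreR_spec`, `iso_final`, `fin_error`, `rk := fun T => (Fintype.equivFin _ T : ℕ)`. -/
theorem core_error {F : Finset (Finset (Fin n))}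
    {k L r s c N A0 B Θ a : ℕ} {ρ : ℝ}
    (hS : Smp o f q ω R τ V) (hR : RefF o q F k L)
    (hFV : ∀ T ∈ F, ∀ j ∈ T, ((j : ℕ), o j) ∈ V)
    (hc : (27 / 64 : ℝ) ^ c * (2 * k) < 1)
    (hr1 : 1 ≤ r) (hrs : k * (k * L) * 2 ^ s ≤ 2 ^ r)
    (hΘ : A0 * (4 * (4 * r * s + 3)) * 2 ^ (2 * (4 * (4 * r * s + 3)) + s + 4) ≤ Θ)
    (hN1 : (2 * k * L ^ 2 + 1) ^ (3 * c) ≤ N) (hN3 : (4 * Θ ^ 2 + 1) ^ (3 * c) ≤ N)
    (hN2 : (1 / ρ) ^ 10 ≤ (N : ℝ)) (hA0 : 1 ≤ A0)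
    (hτ1 : 256 * τ ≤ ρ) (hτ2 : (32 * L + 12) * τ ≤ ρ) (hτ3 : (8 * Θ + 4) * τ ≤ ρ)
    (hτ4 : 4 * (A0 + 1) * τ ≤ ρ) (hB0 : 0 < B) (hB : 1 ≤ ρ / 2 * B)
    (hRB : 1 < R * (1 / (B : ℝ) - τ)) (ha : 1 ≤ a) (hτa : 32 * a * τ ≤ 1)
    (hFP : 1 / (A0 : ℝ) + R * (2 * τ) ≤ 1 / (16 * a))
    (hfin : n * (2 * k * ρ) + 16 * a * (k : ℝ) ^ 2 * (L : ℝ) ^ 3 * (1 / 2 : ℝ) ^ s ≤
      1 / (8 * a ^ 2)) :
    mu (errE f (fin4 a (smp f ω) (coreR A0 B R N (3 * c) Θ (4 * k * L) V (smp f ω)))) ≤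
      1 / a := by
  obtain ⟨H, hH, hlen, hlit, hfp, hgood⟩ := coreR_spec (A := A0) (B := B) (R := R) (N := N)
    (a := 3 * c) (Θ := Θ) (κ := 4 * k * L) hS.hm (by omega) hB0 hS.hτ hS.rep hRB
    (V := V) (fun l hl => by
      obtain ⟨i, rfl⟩ := hS.lits l hl
      exact i.2)
  rw [hH]
  refine fin_error hS.hm ha hS.hτ hτa hS.rep hS.dist (hfp.trans hFP) fun hneg => ?_
  exact (iso_final (rk := fun T => (Fintype.equivFin _ T : ℕ)) hS hR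
    (fun T T' h => (Fintype.equivFin _).injective (Fin.ext h)) hFV hlen hlit hc hr1 hrs hΘ hN1 hN3
    hN2 hA0 hτ1 hτ2 hτ3 hτ4 hB hgood ha hneg).trans hfin

end Pool.Agent.H.MP_cba12a_lc.RK
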