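import Pool.Agent.H.MP_cba12a_lc.RK.Defs

/-!
The first satisfied term at the pivotal points, and the signal `|cU| - |cD|`.
-/

namespace Pool.Agent.H.MP_cba12a_lc.RK

open Finset Pool.Agent.H.MP_cba12a_lc

variable {n : ℕ} {o : Fin n → Bool} {q : (Fin n → Bool) → Bool} {F : Finset (Finset (Fin n))}
  {k L : ℕ} {rk : Finset (Fin n) → ℕ} {h : List (List Lit)} {i : Fin n}

/-- the points of `fstT` satisfy the term, which contains `i` -/
theorem on_of_fstT {T : Finset (Fin n)} {x : Fin n → Bool} (hx : x ∈ fstT o q F rk h i T) :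
    On o T x := (mem_fstT.1 hx).2.1

/- PROOF. If `i ∉ S` and `S` holds at `x` then `S` holds at `flp i x` (`on_flp_of_not_mem`), so
`q (flp i x) = true`. -/
theorem not_on_forb (hR : RefF o q F k L) {T : Finset (Fin n)} {x : Fin n → Bool}
    (hx : x ∈ fstT o q F rk h i T) : ∀ S ∈ forb F rk i T, ¬ On o S x := by
  intro S hS hon
  obtain ⟨hpv, _, hlt⟩ := mem_fstT.1 hx
  obtain ⟨hSF, hS | hS⟩ := mem_forb.1 hS
  · have h1 : q (flp i x) = true := (hR.iff _).2 ⟨S, hSF, (on_flp_of_not_mem hS).2 hon⟩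
    have h2 := (pv_iff.1 hpv).2.2.2.1
    rw [h1] at h2
    exact absurd h2 (by simp)
  · exact hlt S hSF hS hon

/- PROOF. Every pivotal point lies in `fstT T` for exactly one `T ∈ F`, the satisfied term of
smallest `rk`; it contains `i`. Disjoint union (`card_biUnion`), or count the pairs. -/
theorem sum_fstT (hR : RefF o q F k L) (hrk : Function.Injective rk) :
    ∑ T ∈ F.filter (fun T => i ∈ T), (fstT o q F rk h i T).card = (pvS o q h i).card := by
  classical
  have hdis : ∀ T ∈ F.filter (fun T => i ∈ T), ∀ T' ∈ F.filter (fun T => i ∈ T), T ≠ T' →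
      Disjoint (fstT o q F rk h i T) (fstT o q F rk h i T') := by
    intro T hT T' hT' hne
    rw [disjoint_left]
    intro x hx hx'
    obtain ⟨_, h1, h2⟩ := mem_fstT.1 hx
    obtain ⟨_, h1', h2'⟩ := mem_fstT.1 hx'
    rcases lt_trichotomy (rk T) (rk T') with h3 | h3 | h3
    · exact h2' T (mem_filter.1 hT).1 h3 h1
    · exact hne (hrk h3)
    · exact h2 T' (mem_filter.1 hT').1 h3 h1'
  rw [← card_biUnion hdis]
  congr 1
  ext x
  rw [mem_biUnion, mem_pvS]
  constructor
  · rintro ⟨T, _, hx⟩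
    exact (mem_fstT.1 hx).1
  · intro hx
    obtain ⟨_, hq, _, hf, _⟩ := pv_iff.1 hx
    obtain ⟨T0, hT0, hon0⟩ := (hR.iff x).1 hq
    obtain ⟨T, hT, hmin⟩ := exists_min_image (F.filter fun T => On o T x) rk
      ⟨T0, mem_filter.2 ⟨hT0, hon0⟩⟩
    obtain ⟨hTF, hon⟩ := mem_filter.1 hT
    refine ⟨T, mem_filter.2 ⟨hTF, ?_⟩, mem_fstT.2 ⟨hx, hon, ?_⟩⟩
    · by_contra hi
      have h1 : q (flp i x) = true := (hR.iff _).2 ⟨T, hTF, (on_flp_of_not_mem hi).2 hon⟩
      rw [h1] at hf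
      exact absurd hf (by simp)
    · intro S hS hlt hSon
      exact absurd (hmin S (mem_filter.2 ⟨hS, hSon⟩)) (not_le.2 hlt)

theorem mu_eq_card (E : (Fin n → Bool) → Bool) :
    mu E = ((univ.filter fun x => E x = true).card : ℝ) / 2 ^ n := by
  unfold mu ct
  rw [Fintype.card_fun, Fintype.card_fin, Fintype.card_bool]
  push_cast
  rfl

theorem mu_pv_eq : mu (pv q h i (o i) []) = ((pvS o q h i).card : ℝ) / 2 ^ n := by
  rw [mu_eq_card]
  rfl

/- PROOF. `mu_eq_card`, `pv_iff`, `sat_cons`, `getElem?_ofFn`; for the second event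
`satD_strip` (with `v := o j`, `y j = !(o j)`), `neg`. -/
theorem beta_eq (hh : OrL o h) {j : Fin n} (hj : j ≠ i) :
    beta o q h i j = mu (pv q h i (o i) [((j : ℕ), o j)]) -
      mu (pv q (strip ((j : ℕ), o j) h) i (o i) [neg ((j : ℕ), o j)]) := by
  have _ := hj
  have hsat : ∀ (x : Fin n → Bool) (v : Bool),
      sat (List.ofFn x) [((j : ℕ), v)] = true ↔ x j = v := by
    intro x v
    rw [sat_iff]
    constructor
    · intro h1
      obtain ⟨_, h2⟩ := (getElem?_ofFn x j v).1 (h1 ((j : ℕ), v) (by simp))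
      exact h2
    · intro h1 l hl
      rw [List.mem_singleton] at hl
      rw [hl]
      exact (getElem?_ofFn x j v).2 ⟨j.2, h1⟩
  have hlt : ∀ D ∈ h, ∀ l ∈ D, l.1 < n := by
    intro D hD l hl
    obtain ⟨t, rfl⟩ := hh D hD l hl
    exact t.2
  have hno : ∀ D ∈ h, ((j : ℕ), !(o j)) ∉ D := by
    intro D hD hl
    obtain ⟨t, ht⟩ := hh D hD _ hl
    have h1 : j = t := Fin.ext (congrArg Prod.fst ht)
    have h2 : (!(o j)) = o t := congrArg Prod.snd ht
    rw [← h1] at h2
    cases h3 : o j <;> rw [h3] at h2 <;> exact absurd h2 (by simp)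
  have hU : cU o q h i j =
      univ.filter fun x => pv q h i (o i) [((j : ℕ), o j)] x = true := by
    ext x
    rw [mem_cU, mem_filter, pv_iff, pv_iff, hsat]
    constructor
    · rintro ⟨⟨h1, h2, h3, h4, _⟩, h5⟩
      exact ⟨mem_univ _, h1, h2, h3, h4, h5⟩
    · rintro ⟨_, h1, h2, h3, h4, h5⟩
      exact ⟨⟨h1, h2, h3, h4, sat_iff.2 fun l hl => absurd hl (by simp)⟩, h5⟩
  have hD : cD o q h i j = univ.filter fun x =>
      pv q (strip ((j : ℕ), o j) h) i (o i) [neg ((j : ℕ), o j)] x = true := by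
    ext x
    rw [mem_cD, mem_filter, pv_iff, neg, hsat]
    constructor
    · rintro ⟨h1, h2, h3, h4, h5⟩
      rw [satD_strip hlt hno h1] at h5
      exact ⟨mem_univ _, h2, h3, h5, h4, h1⟩
    · rintro ⟨_, h2, h3, h5, h4, h1⟩
      refine ⟨h1, h2, h3, h4, ?_⟩
      rw [satD_strip hlt hno h1]
      exact h5
  rw [mu_eq_card, mu_eq_card, beta, hU, hD, sub_div]

end Pool.Agent.H.MP_cba12a_lc.RK
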