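import Pool.Agent.H.MP_cba12a_lc.RK.First

/-!
The signal `|cU| - |cD|`.
-/

namespace Pool.Agent.H.MP_cba12a_lc.RK

open Finset Pool.Agent.H.MP_cba12a_lc

variable {n : ℕ} {o : Fin n → Bool} {q : (Fin n → Bool) → Bool} {F : Finset (Finset (Fin n))}
  {k L : ℕ} {rk : Finset (Fin n) → ℕ} {h : List (List Lit)} {i : Fin n}

/-- a point at which `q` holds has a first satisfied term -/
theorem exists_first (hR : RefF o q F k L) {x : Fin n → Bool} (hq : q x = true) :
    ∃ T ∈ F, On o T x ∧ ∀ S ∈ F, rk S < rk T → ¬ On o S x := by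
  classical
  obtain ⟨T0, hT0, hO0⟩ := (hR.iff x).1 hq
  obtain ⟨T, hT, hmin⟩ := exists_min_image (F.filter fun T => On o T x) rk
    ⟨T0, mem_filter.2 ⟨hT0, hO0⟩⟩
  rw [mem_filter] at hT
  refine ⟨T, hT.1, hT.2, fun S hS hlt hO => ?_⟩
  exact absurd (hmin S (mem_filter.2 ⟨hS, hO⟩)) (not_le.2 hlt)

/-- the terms which hold at a pivotal point contain `i` -/
theorem mem_of_pivot (hR : RefF o q F k L) {T : Finset (Fin n)} {x : Fin n → Bool} (hT : T ∈ F)
    (hO : On o T x) (hp : q (flp i x) = false) : i ∈ T := by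
  by_contra hi
  have h1 : q (flp i x) = true := (hR.iff _).2 ⟨T, hT, (on_flp_of_not_mem hi).2 hO⟩
  rw [hp] at h1
  exact Bool.noConfusion h1

theorem flp_comm {i j : Fin n} (hj : j ≠ i) (x : Fin n → Bool) :
    flp i (flp j x) = flp j (flp i x) := by
  funext l
  by_cases h1 : l = i
  · subst h1
    rw [flp_same, flp_ne hj.symm, flp_ne hj.symm, flp_same]
  · by_cases h2 : l = j
    · subst h2
      rw [flp_ne h1, flp_same, flp_same, flp_ne h1]
    · rw [flp_ne h1, flp_ne h2, flp_ne h2, flp_ne h1]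

/-- `i` stays pivotal when `j` is switched off -/
theorem pivot_off (hR : RefF o q F k L) {j : Fin n} (hj : j ≠ i) {x : Fin n → Bool}
    (hx : x j = o j) (hp : q (flp i x) = false) : q (flp i (flp j x)) = false := by
  rw [← Bool.not_eq_true]
  intro hc
  have h1 := up_flp hR.up (i := j) (x := flp i (flp j x)) (by
    rw [flp_ne hj, flp_same, hx]) hc
  rw [flp_comm hj, flp_flp, hp] at h1
  exact Bool.noConfusion h1

theorem flp_inj (j : Fin n) : Function.Injective (flp (n := n) j) := by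
  intro x y hxy
  rw [← flp_flp j x, hxy, flp_flp]

/-- outside `h` is kept when `j` is switched off -/
theorem satD_off (hh : OrL o h) {j : Fin n} {y : Fin n → Bool} (hy : y j = !(o j))
    (hs : satD (List.ofFn (flp j y)) h = false) : satD (List.ofFn y) h = false := by
  rw [← Bool.not_eq_true]
  intro hc
  rw [satD_iff] at hc
  obtain ⟨C, hC, hs1⟩ := hc
  rw [sat_iff] at hs1
  have h2 : satD (List.ofFn (flp j y)) h = true := by
    rw [satD_iff]
    refine ⟨C, hC, ?_⟩
    rw [sat_iff]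
    intro l hl
    obtain ⟨a, ha⟩ := hh C hC l hl
    have h3 := hs1 l hl
    rw [getElem?_ofFn] at h3 ⊢
    obtain ⟨hlt, h4⟩ := h3
    refine ⟨hlt, ?_⟩
    by_cases hlj : (⟨l.1, hlt⟩ : Fin n) = j
    · have ha1 : l.1 = (a : ℕ) := by rw [ha]
      have ha2 : l.2 = o a := by rw [ha]
      have ha3 : a = j := by
        rw [← hlj]
        exact Fin.ext ha1.symm
      rw [hlj, flp_same, hy, Bool.not_not, ha2, ha3]
    · rw [flp_ne hlj, h4]
  rw [hs] at h2
  exact Bool.noConfusion h2

theorem fstT_disj (hrk : Function.Injective rk) {S T : Finset (Fin n)} (hS : S ∈ F) (hT : T ∈ F)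
    (hne : S ≠ T) : Disjoint (fstT o q F rk h i S) (fstT o q F rk h i T) := by
  classical
  rw [Finset.disjoint_left]
  intro x hxS hxT
  rw [mem_fstT] at hxS hxT
  rcases lt_trichotomy (rk S) (rk T) with h1 | h1 | h1
  · exact hxT.2.2 S hS h1 hxS.2.1
  · exact hne (hrk h1)
  · exact hxS.2.2 T hT h1 hxT.2.1

/- PROOF. `cU` is the disjoint union of the sets `fstT T ∩ {x j = o j}`, `T ∈ F`, `i ∈ T`. Those
with `j ∈ T` are `fstT T`. If `j ∉ T` and `x ∈ fstT T`, `x j = o j`, then `flp j x ∈ cD`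
(`T` holds at `flp j x`; `q (flp i (flp j x)) = false` because `q (flp i x) = false` and `q` is
up, see `up_flp`, `up_le`; `flp j (flp j x) = x` is outside `h`). `flp j` is injective. -/
theorem cU_le (hR : RefF o q F k L) (hrk : Function.Injective rk) {j : Fin n} (hj : j ≠ i) :
    (cU o q h i j).card ≤ (cD o q h i j).card +
      ∑ T ∈ F.filter (fun T => i ∈ T ∧ j ∈ T), (fstT o q F rk h i T).card := by
  classical
  have hsub : cU o q h i j ⊆ ((F.filter fun T => i ∈ T ∧ j ∈ T).biUnion fun T =>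
      fstT o q F rk h i T) ∪ ((cU o q h i j).filter fun x => ∃ T ∈ F, j ∉ T ∧ On o T x) := by
    intro x hx
    rw [mem_union]
    by_cases hT : ∃ T ∈ F, j ∉ T ∧ On o T x
    · exact Or.inr (mem_filter.2 ⟨hx, hT⟩)
    · left
      rw [mem_cU] at hx
      have hp := pv_iff.1 hx.1
      obtain ⟨T, hTF, hO, hmin⟩ := exists_first (rk := rk) hR hp.2.1
      have hi : i ∈ T := mem_of_pivot hR hTF hO hp.2.2.2.1
      have hjT : j ∈ T := by
        by_contra hc
        exact hT ⟨T, hTF, hc, hO⟩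
      rw [mem_biUnion]
      exact ⟨T, mem_filter.2 ⟨hTF, hi, hjT⟩, mem_fstT.2 ⟨hx.1, hO, hmin⟩⟩
  have h1 := card_le_card hsub
  have h2 := card_union_le ((F.filter fun T => i ∈ T ∧ j ∈ T).biUnion fun T =>
      fstT o q F rk h i T) ((cU o q h i j).filter fun x => ∃ T ∈ F, j ∉ T ∧ On o T x)
  have h3 : ((F.filter fun T => i ∈ T ∧ j ∈ T).biUnion fun T => fstT o q F rk h i T).card ≤
      ∑ T ∈ F.filter (fun T => i ∈ T ∧ j ∈ T), (fstT o q F rk h i T).card := card_biUnion_le
  have h4 : ((cU o q h i j).filter fun x => ∃ T ∈ F, j ∉ T ∧ On o T x).card ≤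
      (cD o q h i j).card := by
    refine card_le_card_of_injOn (flp j) ?_ (fun x _ y _ hxy => flp_inj j hxy)
    intro x hx
    rw [mem_coe, mem_filter, mem_cU] at hx
    obtain ⟨⟨hpv, hxj⟩, T, hT, hjT, hO⟩ := hx
    have hp := pv_iff.1 hpv
    rw [mem_coe, mem_cD]
    refine ⟨?_, ?_, ?_, ?_, ?_⟩
    · rw [flp_same, hxj]
    · rw [flp_ne hj.symm, hp.1]
    · exact (hR.iff _).2 ⟨T, hT, (on_flp_of_not_mem hjT).2 hO⟩
    · exact pivot_off hR hj hxj hp.2.2.2.1
    · rw [flp_flp]
      exact hp.2.2.1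
  omega

open Classical in
/- PROOF. Let `y ∈ cD`. Then `y` is outside `h` (`h` is up, and `flp j y` is above `y`), so `y` is
pivotal and lies in exactly one `fstT T`, `T ∈ F`, `i ∈ T`, and `j ∉ T` as `y j ≠ o j`. Let
`x := flp j y`. Either `x ∈ fstT T`, `x j = o j`; the number of these `y` is at most
`∑_{T ∌ j} #(fstT T ∩ {x j = o j}) = |cU| - ∑_{T ∋ j} |fstT T|`. Or `x ∉ fstT T`: `x i = o i`,
`q x = true`, `x` is outside `h`, `T` holds at `x`, so either `q (flp i x) = true`, so a term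
`S ∌ i` holds at `flp i x`, hence at `x`, or an `S ∈ F` with `rk S < rk T` holds at `x`; in both
cases `S ∈ forb F rk i T`, `S` does not hold at `y` (`not_on_forb`), so `j ∈ S` and
`On o (S.erase j) y`. -/
theorem cD_le (hR : RefF o q F k L) (hrk : Function.Injective rk) (hh : OrL o h) {j : Fin n}
    (hj : j ≠ i) :
    (cD o q h i j).card + ∑ T ∈ F.filter (fun T => i ∈ T ∧ j ∈ T), (fstT o q F rk h i T).card ≤
      (cU o q h i j).card + ∑ T ∈ F.filter (fun T => i ∈ T ∧ j ∉ T),
        ((fstT o q F rk h i T).filter fun x =>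
          ∃ S ∈ forb F rk i T, j ∈ S ∧ On o (S.erase j) x).card := by
  have hdisj : ∀ S ∈ F.filter (fun T => i ∈ T ∧ j ∈ T), ∀ T ∈ F.filter (fun T => i ∈ T ∧ j ∈ T),
      S ≠ T → Disjoint (fstT o q F rk h i S) (fstT o q F rk h i T) := by
    intro S hS T hT hne
    exact fstT_disj hrk (mem_filter.1 hS).1 (mem_filter.1 hT).1 hne
  -- the points which stay in the same part
  have hA1 : ((cD o q h i j).filter fun y => ∃ T ∈ F, j ∉ T ∧ flp j y ∈ fstT o q F rk h i T).card +
      ∑ T ∈ F.filter (fun T => i ∈ T ∧ j ∈ T), (fstT o q F rk h i T).card ≤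
        (cU o q h i j).card := by
    rw [← card_biUnion (fun S hS T hT hne => hdisj S hS T hT hne),
      ← card_image_of_injective _ (flp_inj j), ← card_union_of_disjoint]
    · refine card_le_card ?_
      intro x hx
      rw [mem_union, mem_image, mem_biUnion] at hx
      rw [mem_cU]
      rcases hx with ⟨y, hy, rfl⟩ | ⟨T, hT, hxT⟩
      · rw [mem_filter, mem_cD] at hy
        obtain ⟨T, hT, hjT, hxT⟩ := hy.2
        refine ⟨(mem_fstT.1 hxT).1, ?_⟩
        rw [flp_same, hy.1.1, Bool.not_not]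
      · refine ⟨(mem_fstT.1 hxT).1, ?_⟩
        exact on_of_fstT hxT j (mem_filter.1 hT).2.2
    · rw [Finset.disjoint_left]
      intro x hx1 hx2
      rw [mem_image] at hx1
      rw [mem_biUnion] at hx2
      obtain ⟨y, hy, rfl⟩ := hx1
      rw [mem_filter] at hy
      obtain ⟨T, hT, hjT, hxT⟩ := hy.2
      obtain ⟨S, hS, hxS⟩ := hx2
      rw [mem_filter] at hS
      have hne : S ≠ T := by
        rintro rfl
        exact hjT hS.2.2
      exact Finset.disjoint_left.1 (fstT_disj hrk hS.1 hT hne) hxS hxT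
  have hsub : cD o q h i j ⊆
      ((cD o q h i j).filter fun y => ∃ T ∈ F, j ∉ T ∧ flp j y ∈ fstT o q F rk h i T) ∪
      ((F.filter fun T => i ∈ T ∧ j ∉ T).biUnion fun T => (fstT o q F rk h i T).filter fun x =>
          ∃ S ∈ forb F rk i T, j ∈ S ∧ On o (S.erase j) x) := by
    intro y hy
    rw [mem_union]
    by_cases hA : ∃ T ∈ F, j ∉ T ∧ flp j y ∈ fstT o q F rk h i T
    · exact Or.inl (mem_filter.2 ⟨hy, hA⟩)
    · right
      rw [mem_cD] at hy
      obtain ⟨hyj, hyi, hqy, hqi, hs⟩ := hy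
      have hs' := satD_off hh hyj hs
      have hpv : pv q h i (o i) [] y = true := pv_iff.2 ⟨hyi, hqy, hs', hqi, sat_nil _⟩
      obtain ⟨T, hTF, hO, hmin⟩ := exists_first (rk := rk) hR hqy
      have hi : i ∈ T := mem_of_pivot hR hTF hO hqi
      have hjT : j ∉ T := by
        intro hc
        have h1 := hO j hc
        rw [hyj] at h1
        exact absurd h1 (by cases o j <;> simp)
      have hyT : y ∈ fstT o q F rk h i T := mem_fstT.2 ⟨hpv, hO, hmin⟩
      have hOx : On o T (flp j y) := (on_flp_of_not_mem hjT).2 hO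
      rw [mem_biUnion]
      refine ⟨T, mem_filter.2 ⟨hTF, hi, hjT⟩, mem_filter.2 ⟨hyT, ?_⟩⟩
      -- a term of `forb` which holds at the new point
      have hex : ∃ S ∈ forb F rk i T, On o S (flp j y) := by
        by_contra hno
        refine hA ⟨T, hTF, hjT, mem_fstT.2 ⟨pv_iff.2 ⟨?_, ?_, hs, ?_, sat_nil _⟩, hOx, ?_⟩⟩
        · rw [flp_ne hj.symm, hyi]
        · exact (hR.iff _).2 ⟨T, hTF, hOx⟩
        · rw [← Bool.not_eq_true]
          intro hc
          obtain ⟨S, hS, hOS⟩ := (hR.iff _).1 hc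
          have hiS : i ∉ S := by
            intro hc'
            have h1 := hOS i hc'
            rw [flp_same, flp_ne hj.symm, hyi] at h1
            exact absurd h1 (by cases o i <;> simp)
          exact hno ⟨S, mem_forb.2 ⟨hS, Or.inl hiS⟩, (on_flp_of_not_mem hiS).1 hOS⟩
        · intro S hS hlt hOS
          exact hno ⟨S, mem_forb.2 ⟨hS, Or.inr hlt⟩, hOS⟩
      obtain ⟨S, hS, hOS⟩ := hex
      have hnot := not_on_forb hR hyT S hS
      have hjS : j ∈ S := by
        by_contra hc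
        exact hnot ((on_flp_of_not_mem hc).1 hOS)
      exact ⟨S, hS, hjS, (on_flp_of_not_mem (notMem_erase j S)).1
        (On.mono (erase_subset j S) hOS)⟩
  have h1 := card_le_card hsub
  have h2 := card_union_le
    ((cD o q h i j).filter fun y => ∃ T ∈ F, j ∉ T ∧ flp j y ∈ fstT o q F rk h i T)
    ((F.filter fun T => i ∈ T ∧ j ∉ T).biUnion fun T => (fstT o q F rk h i T).filter fun x =>
          ∃ S ∈ forb F rk i T, j ∈ S ∧ On o (S.erase j) x)
  have h3 : ((F.filter fun T => i ∈ T ∧ j ∉ T).biUnion fun T =>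
      (fstT o q F rk h i T).filter fun x =>
          ∃ S ∈ forb F rk i T, j ∈ S ∧ On o (S.erase j) x).card ≤
      ∑ T ∈ F.filter (fun T => i ∈ T ∧ j ∉ T),
        ((fstT o q F rk h i T).filter fun x =>
          ∃ S ∈ forb F rk i T, j ∈ S ∧ On o (S.erase j) x).card := card_biUnion_le
  omega

end Pool.Agent.H.MP_cba12a_lc.RK
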