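import Pool.Agent.H.MP_cba12a_lc.RK.Defs

/-!
Random exposure: the forced variables of a colouring.
-/

namespace Pool.Agent.H.MP_cba12a_lc.RK

open Finset Pool.Agent.H.MP_cba12a_lc

variable {n : ℕ}

open Classical in
/-- the forced variables of a colouring: `j` has colour `0` and a set of `𝓕` has all its elements
outside `T` and different from `j` of another colour and satisfied -/
noncomputable def frc (o : Fin n → Bool) (𝓕 : Finset (Finset (Fin n))) (T : Finset (Fin n))
    {r : ℕ} (c : Fin n → Fin (r + 1)) (x : Fin n → Bool) : Finset (Fin n) :=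
  univ.filter fun j => j ∉ T ∧ c j = 0 ∧ ∃ S ∈ 𝓕, j ∈ S ∧ ∀ l ∈ (S \ T).erase j, c l ≠ 0 ∧ x l = o l

private def Frc_fl (B : Finset (Fin n)) (x : Fin n → Bool) : Fin n → Bool :=
  fun j => if j ∈ B then !(x j) else x j

private theorem Frc_fl_fl (B : Finset (Fin n)) (x : Fin n → Bool) :
    Frc_fl B (Frc_fl B x) = x := by
  funext j
  by_cases h : j ∈ B <;> simp [Frc_fl, h]

private theorem Frc_mem {o : Fin n → Bool} {𝓕 : Finset (Finset (Fin n))} {T : Finset (Fin n)}
    {r : ℕ} {c : Fin n → Fin (r + 1)} {x : Fin n → Bool} {j : Fin n} :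
    j ∈ frc o 𝓕 T c x ↔ j ∉ T ∧ c j = 0 ∧ ∃ S ∈ 𝓕, j ∈ S ∧
      ∀ l ∈ (S \ T).erase j, c l ≠ 0 ∧ x l = o l := by
  classical
  unfold frc
  rw [mem_filter]
  simp

private theorem Frc_congr {o : Fin n → Bool} {𝓕 : Finset (Finset (Fin n))} {T : Finset (Fin n)}
    {r : ℕ} {c : Fin n → Fin (r + 1)} {x y : Fin n → Bool}
    (h : ∀ l, c l ≠ 0 → l ∉ T → x l = y l) : frc o 𝓕 T c x = frc o 𝓕 T c y := by
  ext j
  rw [Frc_mem, Frc_mem]
  refine and_congr_right fun _ => and_congr_right fun _ => ?_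
  constructor
  · rintro ⟨S, hS, hj, hl⟩
    refine ⟨S, hS, hj, fun l hl' => ?_⟩
    have h1 := hl l hl'
    have h2 : l ∉ T := (mem_sdiff.1 (mem_of_mem_erase hl')).2
    exact ⟨h1.1, by rw [← h l h1.1 h2]; exact h1.2⟩
  · rintro ⟨S, hS, hj, hl⟩
    refine ⟨S, hS, hj, fun l hl' => ?_⟩
    have h1 := hl l hl'
    have h2 : l ∉ T := (mem_sdiff.1 (mem_of_mem_erase hl')).2
    exact ⟨h1.1, by rw [h l h1.1 h2]; exact h1.2⟩

private theorem Frc_off {o : Fin n → Bool} {𝓕 : Finset (Finset (Fin n))} {T : Finset (Fin n)}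
    {r : ℕ} {c : Fin n → Fin (r + 1)} {x : Fin n → Bool} {j : Fin n}
    (hT : On o T x) (hF : ∀ S ∈ 𝓕, ¬ On o S x) (hj : j ∈ frc o 𝓕 T c x) : x j ≠ o j := by
  rw [Frc_mem] at hj
  obtain ⟨_, _, S, hS, hjS, hl⟩ := hj
  intro hx
  refine hF S hS fun l hlS => ?_
  by_cases h1 : l ∈ T
  · exact hT l h1
  · by_cases h2 : l = j
    · rw [h2]; exact hx
    · exact (hl l (mem_erase.2 ⟨h2, mem_sdiff.2 ⟨hlS, h1⟩⟩)).2

/- PROOF. Map the pairs `(x, B)` with `x ∈ E`, `B ⊆ frc c x` to `y := x` with the coordinates in `B`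
flipped. `frc c y = frc c x`, because `frc c` only looks at coordinates of colour `≠ 0` and
`B` has colour `0`. `On o T y` because `B` is disjoint from `T`. The map is injective: for `j ∈ frc`
we have `x j ≠ o j` (otherwise the set `S` would hold at `x ∈ E`: its elements in `T` hold by `hT`,
the others are satisfied), so `B = {j ∈ frc c y | y j = o j}` and `x` is `y` flipped on `B`.
Number of `y` with `On o T y` is `2 ^ (n - T.card)`: see `pr_on` with `Q := True`, or directly;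
to avoid subtraction the bound is multiplied by `2 ^ T.card`: you can also map the triples
`(x, B, C)`, `C ⊆ T`, where `C` says which coordinates of `T` are flipped: an injection of the
triples into all of `Fin n → Bool`. -/
theorem frc_sum {o : Fin n → Bool} {𝓕 : Finset (Finset (Fin n))} {T : Finset (Fin n)}
    {E : Finset (Fin n → Bool)} (hT : ∀ x ∈ E, On o T x)
    (hF : ∀ x ∈ E, ∀ S ∈ 𝓕, ¬ On o S x) {r : ℕ} (c : Fin n → Fin (r + 1)) :
    2 ^ T.card * ∑ x ∈ E, 2 ^ (frc o 𝓕 T c x).card ≤ 2 ^ n := by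
  classical
  set P : Finset ((_ : Finset (Fin n)) × ((_ : (Fin n → Bool)) × Finset (Fin n))) :=
    T.powerset.sigma fun _ => E.sigma fun x => (frc o 𝓕 T c x).powerset with hP
  have hcard : P.card = 2 ^ T.card * ∑ x ∈ E, 2 ^ (frc o 𝓕 T c x).card := by
    rw [hP, card_sigma, sum_const, card_powerset, smul_eq_mul, card_sigma]
    simp [card_powerset]
  have huniv : (univ : Finset (Fin n → Bool)).card = 2 ^ n := by simp
  rw [← hcard, ← huniv]
  refine card_le_card_of_injOn (fun p => Frc_fl (p.1 ∪ p.2.2) p.2.1) (fun _ _ => mem_univ _) ?_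
  rintro ⟨C, x, B⟩ hp ⟨C', x', B'⟩ hp' heq
  have hp1 : C ⊆ T ∧ x ∈ E ∧ B ⊆ frc o 𝓕 T c x := by
    simpa [hP, mem_sigma, mem_powerset] using hp
  have hp2 : C' ⊆ T ∧ x' ∈ E ∧ B' ⊆ frc o 𝓕 T c x' := by
    simpa [hP, mem_sigma, mem_powerset] using hp'
  obtain ⟨hC, hx, hB⟩ := hp1
  obtain ⟨hC', hx', hB'⟩ := hp2
  have heq' : ∀ j, Frc_fl (C ∪ B) x j = Frc_fl (C' ∪ B') x' j := fun j => congrFun heq j
  have hBT : ∀ j ∈ B, j ∉ T ∧ c j = 0 := fun j hj => by
    have := Frc_mem.1 (hB hj)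
    exact ⟨this.1, this.2.1⟩
  have hBT' : ∀ j ∈ B', j ∉ T ∧ c j = 0 := fun j hj => by
    have := Frc_mem.1 (hB' hj)
    exact ⟨this.1, this.2.1⟩
  have hCC : C = C' := by
    ext j
    by_cases hjT : j ∈ T
    · have h1 := heq' j
      have hxj := hT x hx j hjT
      have hxj' := hT x' hx' j hjT
      have hb : j ∉ B := fun hb => (hBT j hb).1 hjT
      have hb' : j ∉ B' := fun hb => (hBT' j hb).1 hjT
      unfold Frc_fl at h1
      rw [hxj, hxj'] at h1
      by_cases hc : j ∈ C <;> by_cases hc' : j ∈ C' <;> simp [hc, hc', hb, hb'] at h1 ⊢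
    · exact ⟨fun h => absurd (hC h) hjT, fun h => absurd (hC' h) hjT⟩
  subst hCC
  have hz : ∀ j, Frc_fl B x j = Frc_fl B' x' j := by
    intro j
    by_cases hjT : j ∈ T
    · have hb : j ∉ B := fun hb => (hBT j hb).1 hjT
      have hb' : j ∉ B' := fun hb => (hBT' j hb).1 hjT
      unfold Frc_fl
      rw [if_neg hb, if_neg hb', hT x hx j hjT, hT x' hx' j hjT]
    · have h1 := heq' j
      have hc : j ∉ C := fun h => hjT (hC h)
      unfold Frc_fl at h1 ⊢
      simpa [hc] using h1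
  have hfx : frc o 𝓕 T c x = frc o 𝓕 T c x' := by
    refine Frc_congr fun l hl _ => ?_
    have hb : l ∉ B := fun hb => hl (hBT l hb).2
    have hb' : l ∉ B' := fun hb => hl (hBT' l hb).2
    have h1 := hz l
    unfold Frc_fl at h1
    rwa [if_neg hb, if_neg hb'] at h1
  have hBB : B = B' := by
    ext j
    by_cases hj : j ∈ frc o 𝓕 T c x
    · have h1 := Frc_off (hT x hx) (hF x hx) hj
      have h2 := Frc_off (hT x' hx') (hF x' hx') (hfx ▸ hj)
      have h3 := hz j
      unfold Frc_fl at h3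
      have e1 : x j = !(o j) := by
        revert h1; cases x j <;> cases o j <;> simp
      have e2 : x' j = !(o j) := by
        revert h2; cases x' j <;> cases o j <;> simp
      rw [e1, e2] at h3
      by_cases hb : j ∈ B <;> by_cases hb' : j ∈ B' <;> simp [hb, hb'] at h3 ⊢
    · exact ⟨fun h => absurd (hB h) hj, fun h => absurd (hfx ▸ hB' h) hj⟩
  subst hBB
  have hxx : x = x' := by
    have h1 : Frc_fl B x = Frc_fl B x' := funext hz
    rw [← Frc_fl_fl B x, h1, Frc_fl_fl]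
  subst hxx
  rfl

end Pool.Agent.H.MP_cba12a_lc.RK
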