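import Pool.Agent.H.MP_cba12a_lc.RK.Expo

/-!
Variables blocked through sets with many elements outside `T`, and the total.
-/

namespace Pool.Agent.H.MP_cba12a_lc.RK

open Finset Pool.Agent.H.MP_cba12a_lc

variable {n : ℕ}

open Classical in
private theorem Long_count (o : Fin n → Bool) (A : Finset (Fin n)) :
    2 ^ A.card * (univ.filter fun x : Fin n → Bool => On o A x).card = 2 ^ n := by
  have h1 : (univ.filter fun x : Fin n → Bool => On o A x) =
      Fintype.piFinset fun i => if i ∈ A then ({o i} : Finset Bool) else univ := by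
    ext x
    rw [mem_filter, Fintype.mem_piFinset]
    constructor
    · rintro ⟨_, h⟩ i
      by_cases hi : i ∈ A
      · rw [if_pos hi, mem_singleton]
        exact h i hi
      · rw [if_neg hi]
        exact mem_univ _
    · intro h
      refine ⟨mem_univ _, fun i hi => ?_⟩
      have h2 := h i
      rw [if_pos hi, mem_singleton] at h2
      exact h2
  have h2 : (2 : ℕ) ^ A.card = ∏ i : Fin n, if i ∈ A then 2 else 1 := by
    rw [prod_ite_mem, univ_inter, prod_const]
  rw [h1, Fintype.card_piFinset, h2, ← prod_mul_distrib]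
  have h3 : ∀ i : Fin n, ((if i ∈ A then 2 else 1) *
      (if i ∈ A then ({o i} : Finset Bool) else univ).card) = 2 := by
    intro i
    by_cases hi : i ∈ A
    · rw [if_pos hi, if_pos hi, card_singleton]
    · rw [if_neg hi, if_neg hi, card_univ, Fintype.card_bool]
  rw [prod_congr rfl fun i _ => h3 i, prod_const, card_univ, Fintype.card_fin]

/-- Union bound over the pairs `(j, S)`. -/
theorem long_le {o : Fin n → Bool} {𝓕 : Finset (Finset (Fin n))} {T J : Finset (Fin n)}
    {E : Finset (Fin n → Bool)} {k r s : ℕ} (hT : ∀ x ∈ E, On o T x)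
    (hread : ∀ j ∈ J, (𝓕.filter fun S => j ∈ S).card ≤ k)
    (hs : 2 ^ n ≤ 2 ^ s * (2 ^ T.card * E.card)) (hr : k * J.card * 2 ^ s ≤ 2 ^ r) :
    ∑ x ∈ E, (blkL o 𝓕 J T r x).card ≤ E.card := by
  classical
  set V : Fin n → Finset (Finset (Fin n)) := fun j =>
    𝓕.filter fun S => j ∈ S ∧ j ∉ T ∧ r < (S \ T).card with hV
  have h1 : ∀ x, (blkL o 𝓕 J T r x).card ≤
      ∑ j ∈ J, ∑ S ∈ V j, if On o (S.erase j) x then 1 else 0 := by
    intro x
    unfold blkL
    rw [card_filter]
    refine sum_le_sum fun j _ => ?_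
    split_ifs with h
    · obtain ⟨hjT, S, hS, hrS, hjS, hon⟩ := h
      have h2 : S ∈ V j := mem_filter.2 ⟨hS, hjS, hjT, hrS⟩
      have h3 := single_le_sum (f := fun S => if On o (S.erase j) x then 1 else 0)
        (fun S _ => Nat.zero_le _) h2
      simp only [if_pos hon] at h3
      exact h3
    · exact Nat.zero_le _
  have h2 : ∀ j, ∀ S ∈ V j, 2 ^ (T.card + r) *
      (∑ x ∈ E, if On o (S.erase j) x then 1 else 0) ≤ 2 ^ n := by
    intro j S hS
    obtain ⟨_, hjS, hjT, hrS⟩ := mem_filter.1 hS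
    rw [← card_filter]
    have h3 : (E.filter fun x => On o (S.erase j) x).card ≤
        (univ.filter fun x : Fin n → Bool => On o (T ∪ S.erase j) x).card := by
      refine card_le_card fun x hx => ?_
      obtain ⟨hxE, hx⟩ := mem_filter.1 hx
      refine mem_filter.2 ⟨mem_univ _, fun i hi => ?_⟩
      rcases mem_union.1 hi with h | h
      · exact hT x hxE i h
      · exact hx i h
    have h4 : T.card + r ≤ (T ∪ S.erase j).card := by
      have h5 : T ∪ S.erase j = T ∪ (S \ T).erase j := by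
        ext i
        simp only [mem_union, mem_erase, mem_sdiff]
        tauto
      have h6 : Disjoint T ((S \ T).erase j) :=
        disjoint_left.2 fun i hi h => (mem_sdiff.1 (mem_of_mem_erase h)).2 hi
      rw [h5, card_union_of_disjoint h6, card_erase_of_mem (mem_sdiff.2 ⟨hjS, hjT⟩)]
      omega
    calc 2 ^ (T.card + r) * (E.filter fun x => On o (S.erase j) x).card
        ≤ 2 ^ (T ∪ S.erase j).card *
          (univ.filter fun x : Fin n → Bool => On o (T ∪ S.erase j) x).card :=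
          Nat.mul_le_mul (Nat.pow_le_pow_right (by norm_num) h4) h3
      _ = 2 ^ n := Long_count _ _
  have h3 : 2 ^ (T.card + r) * ∑ x ∈ E, (blkL o 𝓕 J T r x).card ≤ J.card * k * 2 ^ n := by
    calc 2 ^ (T.card + r) * ∑ x ∈ E, (blkL o 𝓕 J T r x).card
        ≤ 2 ^ (T.card + r) * ∑ x ∈ E, ∑ j ∈ J, ∑ S ∈ V j,
          (if On o (S.erase j) x then 1 else 0) :=
          Nat.mul_le_mul_left _ (sum_le_sum fun x _ => h1 x)
      _ = ∑ j ∈ J, ∑ S ∈ V j, 2 ^ (T.card + r) *
          (∑ x ∈ E, if On o (S.erase j) x then 1 else 0) := by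
          rw [sum_comm, mul_sum]
          refine sum_congr rfl fun j _ => ?_
          rw [sum_comm, mul_sum]
      _ ≤ ∑ j ∈ J, ∑ _S ∈ V j, 2 ^ n := sum_le_sum fun j _ => sum_le_sum fun S hS => h2 j S hS
      _ ≤ ∑ _j ∈ J, k * 2 ^ n := by
          refine sum_le_sum fun j hj => ?_
          rw [sum_const, smul_eq_mul]
          refine Nat.mul_le_mul_right _ ((card_le_card fun S hS => ?_).trans (hread j hj))
          exact mem_filter.2 ⟨(mem_filter.1 hS).1, (mem_filter.1 hS).2.1⟩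
      _ = J.card * k * 2 ^ n := by
          rw [sum_const, smul_eq_mul, mul_assoc]
  have h4 : J.card * k * 2 ^ n ≤ 2 ^ (T.card + r) * E.card := by
    calc J.card * k * 2 ^ n ≤ J.card * k * (2 ^ s * (2 ^ T.card * E.card)) :=
          Nat.mul_le_mul_left _ hs
      _ = k * J.card * 2 ^ s * (2 ^ T.card * E.card) := by ring
      _ ≤ 2 ^ r * (2 ^ T.card * E.card) := Nat.mul_le_mul_right _ hr
      _ = 2 ^ (T.card + r) * E.card := by
          rw [pow_add]
          ring
  exact Nat.le_of_mul_le_mul_left (h3.trans h4) (by positivity)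

/-- `blk o 𝓕 J T x ⊆ blkS o 𝓕 T r x ∪ blkL o 𝓕 J T r x`. -/
theorem blk_sum {o : Fin n → Bool} {𝓕 : Finset (Finset (Fin n))} {T J : Finset (Fin n)}
    {E : Finset (Fin n → Bool)} {k r s : ℕ} (hT : ∀ x ∈ E, On o T x)
    (hF : ∀ x ∈ E, ∀ S ∈ 𝓕, ¬ On o S x)
    (hread : ∀ j ∈ J, (𝓕.filter fun S => j ∈ S).card ≤ k) (hr1 : 1 ≤ r)
    (hs : 2 ^ n ≤ 2 ^ s * (2 ^ T.card * E.card)) (hr : k * J.card * 2 ^ s ≤ 2 ^ r) :
    ∑ x ∈ E, (blk o 𝓕 J T x).card ≤ (4 * r * s + 1) * E.card := by
  classical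
  have h1 : ∀ x, (blk o 𝓕 J T x).card ≤
      (blkS o 𝓕 T r x).card + (blkL o 𝓕 J T r x).card := by
    intro x
    refine (card_le_card fun j hj => ?_).trans (card_union_le _ _)
    obtain ⟨hJ, hjT, S, hS, hjS, hon⟩ := mem_blk.1 hj
    rcases le_or_gt (S \ T).card r with h | h
    · exact mem_union_left _ (mem_blkS.2 ⟨hjT, S, hS, h, hjS, hon⟩)
    · exact mem_union_right _ (mem_blkL.2 ⟨hJ, hjT, S, hS, h, hjS, hon⟩)
  calc ∑ x ∈ E, (blk o 𝓕 J T x).card
      ≤ ∑ x ∈ E, ((blkS o 𝓕 T r x).card + (blkL o 𝓕 J T r x).card) :=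
        sum_le_sum fun x _ => h1 x
    _ = ∑ x ∈ E, (blkS o 𝓕 T r x).card + ∑ x ∈ E, (blkL o 𝓕 J T r x).card :=
        sum_add_distrib
    _ ≤ 4 * r * s * E.card + E.card :=
        Nat.add_le_add (expo hT hF hr1 hs) (long_le hT hread hs hr)
    _ = (4 * r * s + 1) * E.card := by ring

end Pool.Agent.H.MP_cba12a_lc.RK
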