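import Pool.Agent.H.MP_cba12a_lc.RK.NumA

/-!
The parameters. `u := uu n k a ≥ 1`, `k * a * clog (n + 2) ≤ 2 ^ (u - 1)`. The constants are
`c1 := 2 ^ 23`, `c2 := 2 ^ 30`, `c3 := 2 ^ 27`; keep them as variables with hypotheses (`hc1 : c1 = 2 ^ 23`) so
that nothing evaluates powers with huge exponents.
-/

namespace Pool.Agent.H.MP_cba12a_lc.RK

open Pool.Agent.H.MP_5be563_lc.PT Pool.Agent.H.MP_cba12a_lc

private theorem numC_dbl (e T : ℕ) (hT : 1 ≤ T) : dbl e T ≤ T := by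
  unfold dbl
  induction e with
  | zero => simpa using hT
  | succ e ih =>
    rw [Function.iterate_succ_apply']
    split_ifs with h
    · exact h
    · exact ih

private theorem numC_bd (n k a : ℕ) (hk : 1 ≤ k) (ha : 1 ≤ a) :
    1 ≤ bd n k a ∧ k ≤ bd n k a ∧ a ≤ bd n k a ∧ Nat.clog 2 (n + 2) ≤ bd n k a ∧
      uu n k a ≤ bd n k a := by
  have hl : 1 ≤ Nat.clog 2 (n + 2) := Nat.clog_pos (by norm_num) (by omega)
  have hv := Nat.le_pow_clog (b := 2) (by norm_num) (k * a * Nat.clog 2 (n + 2))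
  have hb : 2 ^ Nat.clog 2 (k * a * Nat.clog 2 (n + 2)) ≤ bd n k a := by
    unfold bd
    have h0 : 1 ≤ Nat.clog 2 (2 * k) := Nat.clog_pos (by norm_num) (by omega)
    exact Nat.pow_le_pow_right (by norm_num)
      ((Nat.le_self_pow (by norm_num) _).trans (Nat.le_mul_of_pos_left _ h0))
  have hu : Nat.clog 2 (k * a * Nat.clog 2 (n + 2)) + 1 ≤
      2 ^ Nat.clog 2 (k * a * Nat.clog 2 (n + 2)) := Nat.lt_two_pow_self
  have h1 : k * a * Nat.clog 2 (n + 2) ≤ bd n k a := hv.trans hb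
  have hka : 1 ≤ k * a := Nat.mul_le_mul hk ha
  refine ⟨Nat.one_le_two_pow.trans hb, ?_, ?_, ?_, ?_⟩
  · calc k = k * 1 * 1 := by ring
      _ ≤ k * a * Nat.clog 2 (n + 2) := Nat.mul_le_mul (Nat.mul_le_mul_left k ha) hl
      _ ≤ _ := h1
  · calc a = 1 * a * 1 := by ring
      _ ≤ k * a * Nat.clog 2 (n + 2) := Nat.mul_le_mul (Nat.mul_le_mul_right a hk) hl
      _ ≤ _ := h1
  · calc Nat.clog 2 (n + 2) = 1 * Nat.clog 2 (n + 2) := by ring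
      _ ≤ k * a * Nat.clog 2 (n + 2) := Nat.mul_le_mul_right _ hka
      _ ≤ _ := h1
  · unfold uu
    exact hu.trans hb

private theorem numC_pW (c1 c2 n k a : ℕ) (hk : 1 ≤ k) (ha : 1 ≤ a) (y : ℕ) (hn : n + 1 ≤ y)
    (hy : bd n k a ≤ y) :
    pW c1 c2 ((2 * bd n k a) ^ 8) n k a ≤ 2 ^ 21 * c2 * y ^ 7 * ((2 * y) ^ 8) ^ c1 := by
  obtain ⟨h1, hkb, hab, hlb, hub⟩ := numC_bd n k a hk ha
  have hk' : k ≤ y := hkb.trans hy
  have ha' : a ≤ y := hab.trans hy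
  have hl' : Nat.clog 2 (n + 2) ≤ y := hlb.trans hy
  have hu' : uu n k a ≤ y := hub.trans hy
  have hy1 : 1 ≤ y := h1.trans hy
  have hL : pL c2 n k a ≤ 2 * c2 * y ^ 2 := by
    unfold pL
    have h2 : Nat.clog 2 (n + 2) + uu n k a ^ 2 ≤ 2 * y ^ 2 := by
      have h3 : y ≤ y ^ 2 := Nat.le_self_pow (by norm_num) y
      have h4 : uu n k a ^ 2 ≤ y ^ 2 := Nat.pow_le_pow_left hu' 2
      omega
    calc c2 * (Nat.clog 2 (n + 2) + uu n k a ^ 2) ≤ c2 * (2 * y ^ 2) := Nat.mul_le_mul_left _ h2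
      _ = _ := by ring
  have hT : pT c1 ((2 * bd n k a) ^ 8) n k a ≤ ((2 * y) ^ 8) ^ c1 := by
    unfold pT
    refine Nat.pow_le_pow_left ?_ c1
    refine (numC_dbl _ _ (Nat.one_le_pow _ _ (by omega))).trans ?_
    exact Nat.pow_le_pow_left (by omega) 8
  unfold pW
  calc 2 ^ 20 * k * a ^ 3 * (n + 1) * pL c2 n k a * pT c1 ((2 * bd n k a) ^ 8) n k a
      ≤ 2 ^ 20 * y * y ^ 3 * y * (2 * c2 * y ^ 2) * ((2 * y) ^ 8) ^ c1 := by gcongr
    _ = _ := by ring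

/- PROOF. `k, a ≤ bd`, `pL ≤ 2 * c2 * bd ^ 2`, `pT ≤ ((2 bd) ^ 8) ^ c1`. -/
theorem exists_poly (c1 c2 : ℕ) : ∃ P : Polynomial ℕ, ∀ n k a b : ℕ, 1 ≤ k → 1 ≤ a →
    16 * (2 * (n + 1) * pW c1 c2 ((2 * bd n k a) ^ 8) n k a) ≤ P.eval (n + bd n k a) ∧
    4 * ((2 * n + 1) * (128 * k * a ^ 2 * (n + 1) + 1) + 1 + Nat.clog 2 b) *
      (16 * (2 * (n + 1) * pW c1 c2 ((2 * bd n k a) ^ 8) n k a)) ^ 2 ≤
      P.eval (n + bd n k a + Nat.clog 2 b) := by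
  obtain ⟨Y, hY⟩ : ∃ Y : Polynomial ℕ, Y = Polynomial.X + 1 := ⟨_, rfl⟩
  obtain ⟨C0, hC0⟩ : ∃ C0 : ℕ, C0 = 2 ^ 21 * c2 := ⟨_, rfl⟩
  obtain ⟨W, hW⟩ : ∃ W : Polynomial ℕ,
      W = Polynomial.C C0 * Y ^ 7 * ((Polynomial.C 2 * Y) ^ 8) ^ c1 := ⟨_, rfl⟩
  obtain ⟨D, hD⟩ : ∃ D : Polynomial ℕ, D = Polynomial.C 16 * (Polynomial.C 2 * Y * W) := ⟨_, rfl⟩
  have hYe : ∀ x, Y.eval x = x + 1 := fun x => by
    rw [hY, Polynomial.eval_add, Polynomial.eval_X, Polynomial.eval_one]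
  have hWe : ∀ x, W.eval x = C0 * (x + 1) ^ 7 * ((2 * (x + 1)) ^ 8) ^ c1 := fun x => by
    rw [hW, Polynomial.eval_mul, Polynomial.eval_mul, Polynomial.eval_C, Polynomial.eval_pow,
      Polynomial.eval_pow, Polynomial.eval_pow, Polynomial.eval_mul, Polynomial.eval_C, hYe]
  have hDe : ∀ x, D.eval x = 16 * (2 * (x + 1) * W.eval x) := fun x => by
    rw [hD, Polynomial.eval_mul, Polynomial.eval_mul, Polynomial.eval_mul, Polynomial.eval_C,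
      Polynomial.eval_C, hYe]
  have hmain : ∀ n k a x : ℕ, 1 ≤ k → 1 ≤ a → n + bd n k a ≤ x →
      16 * (2 * (n + 1) * pW c1 c2 ((2 * bd n k a) ^ 8) n k a) ≤ D.eval x := by
    intro n k a x hk ha hx
    have h1 := numC_pW c1 c2 n k a hk ha (x + 1) (by omega) (by omega)
    rw [← hC0] at h1
    rw [hDe, hWe]
    have h2 : n + 1 ≤ x + 1 := by omega
    gcongr
  refine ⟨D + Polynomial.C 4 * ((Polynomial.C 2 * Y) * (Polynomial.C 128 * Y * Y ^ 2 * Y + 1) + 1 + Y) *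
    D ^ 2, fun n k a b hk ha => ⟨?_, ?_⟩⟩
  · rw [Polynomial.eval_add]
    exact (hmain n k a _ hk ha le_rfl).trans (Nat.le_add_right _ _)
  · rw [Polynomial.eval_add]
    refine le_trans ?_ (Nat.le_add_left _ _)
    obtain ⟨x, hx⟩ : ∃ x, x = n + bd n k a + Nat.clog 2 b := ⟨_, rfl⟩
    rw [← hx]
    have h1 := hmain n k a x hk ha (by omega)
    obtain ⟨h2, hkb, hab, -, -⟩ := numC_bd n k a hk ha
    have hk' : k ≤ x + 1 := by omega
    have ha' : a ≤ x + 1 := by omega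
    have hn' : n + 1 ≤ x + 1 := by omega
    have h2n : 2 * n + 1 ≤ 2 * (x + 1) := by omega
    have hb' : Nat.clog 2 b ≤ x + 1 := by omega
    have he : (Polynomial.C 4 * ((Polynomial.C 2 * Y) *
        (Polynomial.C 128 * Y * Y ^ 2 * Y + 1) + 1 + Y) * D ^ 2).eval x =
        4 * ((2 * (x + 1)) * (128 * (x + 1) * (x + 1) ^ 2 * (x + 1) + 1) + 1 + (x + 1)) *
          D.eval x ^ 2 := by
      simp only [Polynomial.eval_mul, Polynomial.eval_add, Polynomial.eval_pow, Polynomial.eval_C,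
        Polynomial.eval_one, hYe]
    rw [he]
    gcongr

end Pool.Agent.H.MP_cba12a_lc.RK
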