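import Pool.Agent.H.MP_cba12a_lc.RK.Defs

/-!
The reference formula, with short terms.
-/

namespace Pool.Agent.H.MP_cba12a_lc.RK

open Finset Pool.Agent.H.MP_cba12a_lc

variable {n m : ℕ}

private theorem Short_dst (f g : (Fin n → Bool) → Bool) : dst f g = pr fun x => f x ≠ g x := by
  classical
  rw [pr_def]
  unfold dst mu ct
  rw [Fintype.card_fun, Fintype.card_fin, Fintype.card_bool]
  push_cast
  congr 2
  refine congrArg card ?_
  ext x
  simp

private theorem Short_on (o : Fin n → Bool) (T : Finset (Fin n)) :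
    pr (fun x => On o T x) ≤ (1 / 2 : ℝ) ^ T.card := by
  have h := pr_on o T (fun _ => True)
  have h1 : pr (fun x => On o T x) = pr (fun x => On o T x ∧ True) :=
    pr_congr fun x => ⟨fun h => ⟨h, trivial⟩, fun h => h.1⟩
  rw [h1, h]
  have h2 : pr (fun x : Fin n → Bool => (fun _ : Fin n → Bool => True) (sOn o T x)) ≤ 1 :=
    pr_le_one _
  calc (1 / 2 : ℝ) ^ T.card * pr (fun x : Fin n → Bool => True) ≤ (1 / 2 : ℝ) ^ T.card * 1 :=
        mul_le_mul_of_nonneg_left h2 (by positivity)
    _ = (1 / 2 : ℝ) ^ T.card := mul_one _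

private theorem Short_up (o : Fin n → Bool) (T : Finset (Fin n)) (i : Fin n) (x : Fin n → Bool)
    (h : On o T (Function.update x i (!(o i)))) : On o T (Function.update x i (o i)) := by
  intro j hj
  by_cases hji : j = i
  · subst hji
    rw [Function.update_self]
  · have := h j hj
    rw [Function.update_of_ne hji] at this ⊢
    exact this

private theorem Short_count {F : Finset (Finset (Fin n))} {k : ℕ} (L : ℕ)
    (hk : ∀ i, (F.filter fun T => i ∈ T).card ≤ k) :
    (F.filter fun T => ¬ T.card ≤ L).card ≤ n * k := by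
  classical
  have h1 : (F.filter fun T => ¬ T.card ≤ L) ⊆
      (univ : Finset (Fin n)).biUnion fun i => F.filter fun T => i ∈ T := by
    intro T hT
    rw [mem_filter] at hT
    have h2 : 0 < T.card := by omega
    obtain ⟨i, hi⟩ := card_pos.1 h2
    rw [mem_biUnion]
    exact ⟨i, mem_univ i, mem_filter.2 ⟨hT.1, hi⟩⟩
  refine (card_le_card h1).trans (card_biUnion_le.trans ?_)
  refine (sum_le_sum fun i _ => hk i).trans ?_
  rw [sum_const, card_univ, Fintype.card_fin, smul_eq_mul]

/- PROOF. `q'` is the OR of the terms of `F` with at most `L` variables. `q ≠ q'` only where a term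
with more than `L` variables holds; each has measure `(1/2)^|T| ≤ (1/2)^L` (`pr_on`), and there
are at most `n * k` of them, since each contains a variable. `Up o q'`: a disjunction of the
`On o T`, cf. `dnP_not_on`. -/
theorem short_ref {o : Fin n → Bool} {q : (Fin n → Bool) → Bool} {F : Finset (Finset (Fin n))}
    {k : ℕ} (L : ℕ) (hF : ∀ x, q x = true ↔ ∃ T ∈ F, On o T x)
    (hk : ∀ i, (F.filter fun T => i ∈ T).card ≤ k) :
    ∃ q' : (Fin n → Bool) → Bool, RefF o q' (F.filter fun T => T.card ≤ L) k L ∧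
      dst q q' ≤ n * k * (1 / 2 : ℝ) ^ L := by
  classical
  obtain ⟨q', hq'⟩ : ∃ q' : (Fin n → Bool) → Bool, ∀ x, q' x = true ↔
      ∃ T ∈ F.filter (fun T => T.card ≤ L), On o T x :=
    ⟨fun x => @decide (∃ T ∈ F.filter (fun T => T.card ≤ L), On o T x) (Classical.dec _),
      fun x => @decide_eq_true_iff _ (Classical.dec _)⟩
  refine ⟨q', ⟨?_, hq', ?_, ?_⟩, ?_⟩
  · intro i x h
    rw [hq'] at h ⊢
    obtain ⟨T, hT, h1⟩ := h
    exact ⟨T, hT, Short_up o T i x h1⟩
  · intro i
    refine (card_le_card ?_).trans (hk i)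
    intro T hT
    rw [mem_filter, mem_filter] at hT
    exact mem_filter.2 ⟨hT.1.1, hT.2⟩
  · intro T hT
    exact (mem_filter.1 hT).2
  · rw [Short_dst]
    have h1 := pr_le_sum (F.filter fun T => ¬ T.card ≤ L)
      (fun x => q x ≠ q' x)
      (fun T x => On o T x) (by
        intro x hx
        by_contra hno
        apply hx
        rw [Bool.eq_iff_iff, hq', hF]
        constructor
        · rintro ⟨T, hT, hTx⟩
          refine ⟨T, ?_, hTx⟩
          rw [mem_filter]
          refine ⟨hT, ?_⟩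
          by_contra hL
          exact hno ⟨T, mem_filter.2 ⟨hT, hL⟩, hTx⟩
        · rintro ⟨T, hT, hTx⟩
          exact ⟨T, (mem_filter.1 hT).1, hTx⟩)
    refine h1.trans ?_
    have h2 : ∀ T ∈ F.filter fun T => ¬ T.card ≤ L, pr (fun x => On o T x) ≤ (1 / 2 : ℝ) ^ L := by
      intro T hT
      rw [mem_filter] at hT
      exact (Short_on o T).trans (pow_le_pow_of_le_one (by norm_num) (by norm_num) (by omega))
    refine (sum_le_sum h2).trans ?_
    rw [sum_const, nsmul_eq_mul]
    refine mul_le_mul_of_nonneg_right ?_ (by positivity)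
    exact_mod_cast Short_count L hk

/- PROOF. `exists_reference4` gives `q`, `G`; take `F := G.image (fun T => T.image Prod.fst)`, then
`short_ref`. All literals of `G` are oriented (`l.2 = o l.1`), so `∀ l ∈ T, x l.1 = l.2` says
`On o (T.image Prod.fst) x`. -/
theorem exists_ref {Θ k L : ℕ} {f g : (Fin n → Bool) → Bool} {o : Fin n → Bool}
    {ω : Fin m → Fin n → Bool} (hm : 0 < m) (hΘ : 0 < Θ) (hu : Unate g) (hg : Up o g)
    (hk : ReadK k g)
    (hfg : dst f g ≤ 1 / (16 * Θ)) {R : ℕ} (hrep : Rep f ω R (1 / (16 * Θ))) :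
    ∃ (q : (Fin n → Bool) → Bool) (F : Finset (Finset (Fin n))), RefF o q F k L ∧
      dst f q ≤ (n + 1) * (1 / Θ) + n * k * (1 / 2 : ℝ) ^ L ∧
      ∀ T ∈ F, ∀ j ∈ T, ((j : ℕ), o j) ∈ orient n Θ (smp f ω) := by
  classical
  obtain ⟨q, G, hq, hfq, hqG, hread, hlit, hor⟩ := exists_reference4 hm hΘ hu hg hk hfg hrep
  have hF : ∀ x, q x = true ↔ ∃ T ∈ G.image (fun T => T.image Prod.fst), On o T x := by
    intro x
    rw [hqG]
    constructor
    · rintro ⟨T, hT, hTx⟩
      refine ⟨_, mem_image_of_mem _ hT, ?_⟩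
      intro i hi
      obtain ⟨l, hl, rfl⟩ := mem_image.1 hi
      rw [hTx l hl, hor T hT l hl]
    · rintro ⟨T', hT', hTx⟩
      obtain ⟨T, hT, rfl⟩ := mem_image.1 hT'
      refine ⟨T, hT, ?_⟩
      intro l hl
      rw [hTx l.1 (mem_image_of_mem _ hl), hor T hT l hl]
  have hk' : ∀ i, ((G.image (fun T => T.image Prod.fst)).filter fun T => i ∈ T).card ≤ k := by
    intro i
    refine le_trans ?_ (hread i)
    have h1 : ((G.image (fun T => T.image Prod.fst)).filter fun T => i ∈ T) ⊆
        (G.filter fun T => ∃ l ∈ T, l.1 = i).image (fun T => T.image Prod.fst) := by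
      intro T' hT'
      rw [mem_filter] at hT'
      obtain ⟨T, hT, rfl⟩ := mem_image.1 hT'.1
      obtain ⟨l, hl, hli⟩ := mem_image.1 hT'.2
      exact mem_image_of_mem _ (mem_filter.2 ⟨hT, l, hl, hli⟩)
    exact (card_le_card h1).trans card_image_le
  obtain ⟨q', hq', hd⟩ := short_ref L hF hk'
  refine ⟨q', _, hq', ?_, ?_⟩
  · have := dst_triangle f q q'
    linarith
  · intro T' hT' j hj
    rw [mem_filter] at hT'
    obtain ⟨T, hT, rfl⟩ := mem_image.1 hT'.1
    obtain ⟨l, hl, rfl⟩ := mem_image.1 hj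
    rw [← hor T hT l hl]
    exact hlit T hT l hl

end Pool.Agent.H.MP_cba12a_lc.RK
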