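import Pool.Agent.H.MP_cba12a_lc.RK.Final
import Pool.Agent.H.MP_cba12a_lc.RK.Short
import Pool.Agent.H.MP_cba12a_lc.RK.Num

/-!
The learner succeeds on most samples.
-/

namespace Pool.Agent.H.MP_cba12a_lc.RK

open Finset Pool.Agent.H.MP_5be563_lc.PT Pool.Agent.H.MP_cba12a_lc

theorem mu_errE_eq {n : ℕ} (f : (Fin n → Bool) → Bool) (H : List (List Lit)) :
    mu (errE f H) = err f H := by
  unfold mu err ct
  rw [Fintype.card_fun, Fintype.card_fin, Fintype.card_bool]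
  push_cast
  congr 2
  refine congrArg Finset.card ?_
  ext x
  simp only [Finset.mem_filter, Finset.mem_univ, true_and, errE_iff]
  exact ne_comm

private theorem Main_num {n k a L Θ W : ℕ} (hk : 1 ≤ k) (ha : 1 ≤ a) (hL : 1 ≤ L) (hΘ : 1 ≤ Θ)
    (hW : W = 2 ^ 20 * k * a ^ 3 * (n + 1) * L * Θ) {P : ℝ}
    (hP : P = (k : ℝ) * a ^ 2 * (n + 1)) :
    1 ≤ P ∧ 0 < (W : ℝ) ∧ 256 * (1 / (W : ℝ)) ≤ 1 / (32 * P) ∧
      (32 * (L : ℝ) + 12) * (1 / (W : ℝ)) ≤ 1 / (32 * P) ∧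
      (8 * (Θ : ℝ) + 4) * (1 / (W : ℝ)) ≤ 1 / (32 * P) ∧
      4 * (((32 * a : ℕ) : ℝ) + 1) * (1 / (W : ℝ)) ≤ 1 / (32 * P) ∧
      128 * P * (1 / (W : ℝ)) ≤ 1 / (8192 * a) ∧ 32 * (a : ℝ) * (1 / (W : ℝ)) ≤ 1 := by
  have hk' : (1 : ℝ) ≤ k := by exact_mod_cast hk
  have ha' : (1 : ℝ) ≤ a := by exact_mod_cast ha
  have hL' : (1 : ℝ) ≤ L := by exact_mod_cast hL
  have hΘ' : (1 : ℝ) ≤ Θ := by exact_mod_cast hΘ
  have hn1 : (1 : ℝ) ≤ (n : ℝ) + 1 := by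
    have : (0 : ℝ) ≤ n := by positivity
    linarith
  have hP1 : 1 ≤ P := by
    rw [hP]
    have h1 : (1 : ℝ) ≤ (a : ℝ) ^ 2 := one_le_pow₀ ha'
    have h2 : (1 : ℝ) ≤ (k : ℝ) * a ^ 2 := by nlinarith
    nlinarith
  have hP0 : 0 < P := by linarith
  obtain ⟨X, hX⟩ : ∃ X : ℝ, X = a * L * Θ := ⟨_, rfl⟩
  have hWr : (W : ℝ) = 2 ^ 20 * P * X := by
    rw [hW, hP, hX]
    push_cast
    ring
  have haL : (1 : ℝ) ≤ a * L := by nlinarith
  have haΘ : (1 : ℝ) ≤ a * Θ := by nlinarith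
  have hLΘ : (1 : ℝ) ≤ L * Θ := by nlinarith
  have xL : (L : ℝ) ≤ X := by
    rw [hX]
    nlinarith
  have xΘ : (Θ : ℝ) ≤ X := by
    rw [hX]
    nlinarith
  have xa : (a : ℝ) ≤ X := by
    rw [hX]
    nlinarith
  have x1 : 1 ≤ X := ha'.trans xa
  have hW0 : 0 < (W : ℝ) := by
    rw [hWr]
    positivity
  have key : ∀ Y : ℝ, 0 ≤ Y → Y * 32 ≤ 2 ^ 20 * X → Y * (1 / (W : ℝ)) ≤ 1 / (32 * P) := by
    intro Y _ hY
    rw [mul_one_div, div_le_div_iff₀ hW0 (by positivity), one_mul, hWr]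
    calc Y * (32 * P) = Y * 32 * P := by ring
      _ ≤ 2 ^ 20 * X * P := mul_le_mul_of_nonneg_right hY hP0.le
      _ = 2 ^ 20 * P * X := by ring
  refine ⟨hP1, hW0, key _ (by norm_num) (by linarith), key _ (by positivity) (by linarith),
    key _ (by positivity) (by linarith), key _ (by positivity) ?_, ?_, ?_⟩
  · push_cast
    linarith
  · rw [mul_one_div, div_le_div_iff₀ hW0 (by positivity), one_mul, hWr]
    calc 128 * P * (8192 * a) = 2 ^ 20 * P * a := by ring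
      _ ≤ 2 ^ 20 * P * X := mul_le_mul_of_nonneg_left xa (by positivity)
  · rw [mul_one_div, div_le_one hW0, hWr]
    have h1 : X ≤ P * X := le_mul_of_one_le_left (by linarith) hP1
    nlinarith

private theorem Main_c {k : ℕ} (hk : 1 ≤ k) :
    (27 / 64 : ℝ) ^ (Nat.clog 2 (2 * k) + 1) * (2 * k) < 1 := by
  have h1 : (2 * (k : ℝ)) ≤ 2 ^ (Nat.clog 2 (2 * k) + 1) := by
    have h2 : 2 * k ≤ 2 ^ Nat.clog 2 (2 * k) := Nat.le_pow_clog (by norm_num) _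
    have h3 : (2 * (k : ℝ)) ≤ 2 ^ Nat.clog 2 (2 * k) := by exact_mod_cast h2
    rw [pow_succ]
    have : (0 : ℝ) < 2 ^ Nat.clog 2 (2 * k) := by positivity
    linarith
  calc (27 / 64 : ℝ) ^ (Nat.clog 2 (2 * k) + 1) * (2 * k) ≤
        (27 / 64 : ℝ) ^ (Nat.clog 2 (2 * k) + 1) * 2 ^ (Nat.clog 2 (2 * k) + 1) :=
        mul_le_mul_of_nonneg_left h1 (by positivity)
    _ = (27 / 32) ^ (Nat.clog 2 (2 * k) + 1) := by rw [← mul_pow]; norm_num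
    _ < 1 := pow_lt_one₀ (by norm_num) (by norm_num) (by omega)

/-- The error of the hypothesis on a representative sample. -/
private theorem Main_err {n k a m L Θ N W s r : ℕ} {f g : (Fin n → Bool) → Bool}
    {ω : Fin m → Fin n → Bool} (hk : 1 ≤ k) (ha : 1 ≤ a) (hL : 1 ≤ L) (hΘ : 1 ≤ Θ) (hm : 0 < m)
    (hW : W = 2 ^ 20 * k * a ^ 3 * (n + 1) * L * Θ) (hread : ReadK k g) (hu : Unate g)
    (hdst : dst f g ≤ 1 / (16 * ((2 * (n + 1) * W : ℕ) : ℝ)))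
    (hω : Rep f ω (128 * k * a ^ 2 * (n + 1)) (1 / (16 * ((2 * (n + 1) * W : ℕ) : ℝ))))
    (hr1 : 1 ≤ r) (hrs : k * (k * L) * 2 ^ s ≤ 2 ^ r)
    (hT : 32 * a * (4 * (4 * r * s + 3)) * 2 ^ (2 * (4 * (4 * r * s + 3)) + s + 4) ≤ Θ)
    (hN1 : (2 * k * L ^ 2 + 1) ^ (3 * (Nat.clog 2 (2 * k) + 1)) ≤ N)
    (hN3 : (4 * Θ ^ 2 + 1) ^ (3 * (Nat.clog 2 (2 * k) + 1)) ≤ N)
    (hN2 : (32 * k * a ^ 2 * (n + 1)) ^ 10 ≤ N)
    (hnL : 2 * n * k * W ≤ 2 ^ L) (hs : 256 * a ^ 3 * k ^ 2 * L ^ 3 ≤ 2 ^ s) :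
    mu (errE f (fin4 a (smp f ω) (coreR (32 * a) (64 * k * a ^ 2 * (n + 1))
      (128 * k * a ^ 2 * (n + 1)) N (3 * (Nat.clog 2 (2 * k) + 1)) Θ (4 * k * L)
      (orient n (2 * (n + 1) * W) (smp f ω)) (smp f ω)))) ≤ 1 / (a : ℝ) := by
  obtain ⟨P, hP⟩ : ∃ P : ℝ, P = (k : ℝ) * a ^ 2 * (n + 1) := ⟨_, rfl⟩
  obtain ⟨hP1, hW0, b1, b2, b3, b4, b5, b6⟩ := Main_num hk ha hL hΘ hW hP
  have hk' : (1 : ℝ) ≤ k := by exact_mod_cast hk
  have ha' : (1 : ℝ) ≤ a := by exact_mod_cast ha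
  have hn1 : (1 : ℝ) ≤ (n : ℝ) + 1 := by
    have : (0 : ℝ) ≤ n := by positivity
    linarith
  have hWn : 0 < W := by exact_mod_cast hW0
  have hM0 : 0 < 2 * (n + 1) * W := by positivity
  obtain ⟨o, ho⟩ := exists_orient hu
  obtain ⟨q, F, hR, hfq, hFV⟩ := exists_ref (L := L) hm hM0 hu ho hread hdst hω
  obtain ⟨hV1, -⟩ := orient_facts hm hM0 ho hdst hω
  have hfq' : dst f q ≤ 1 / (W : ℝ) := by
    refine hfq.trans ?_
    have e1 : ((n : ℝ) + 1) * (1 / ((2 * (n + 1) * W : ℕ) : ℝ)) = 1 / 2 * (1 / (W : ℝ)) := by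
      push_cast
      field_simp
    have e2 : (n : ℝ) * k * (1 / 2) ^ L ≤ 1 / 2 * (1 / (W : ℝ)) := by
      have h1 : (2 : ℝ) * n * k * W ≤ 2 ^ L := by exact_mod_cast hnL
      have h2 : (n : ℝ) * k * (1 / 2) ^ L = (n : ℝ) * k / 2 ^ L := by
        rw [one_div, inv_pow, div_eq_mul_inv]
      rw [h2, div_le_iff₀ (by positivity)]
      have h3 : 1 / 2 * (1 / (W : ℝ)) * (2 * n * k * W) ≤ 1 / 2 * (1 / (W : ℝ)) * 2 ^ L :=
        mul_le_mul_of_nonneg_left h1 (by positivity)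
      refine le_trans (le_of_eq ?_) h3
      field_simp
    rw [e1]
    linarith
  have hω' : Rep f ω (128 * k * a ^ 2 * (n + 1)) (1 / (W : ℝ)) := by
    intro v C h hC hr hh
    refine (hω v C h hC hr hh).trans_le ?_
    refine one_div_le_one_div_of_le hW0 ?_
    push_cast
    have h1 : (W : ℝ) ≤ (n + 1) * W := le_mul_of_one_le_left hW0.le hn1
    linarith
  have hS : Smp o f q ω (128 * k * a ^ 2 * (n + 1)) (1 / (W : ℝ))
      (orient n (2 * (n + 1) * W) (smp f ω)) :=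
    ⟨hm, by positivity, hR.up, hfq', hω', hV1, (nodup_allLits n).filter _⟩
  have hB : ((64 * k * a ^ 2 * (n + 1) : ℕ) : ℝ) = 64 * P := by
    rw [hP]; push_cast; ring
  have hRr : ((128 * k * a ^ 2 * (n + 1) : ℕ) : ℝ) = 128 * P := by
    rw [hP]; push_cast; ring
  have h8 : (1 : ℝ) / (8192 * a) < 1 := by
    rw [div_lt_one (by positivity)]
    linarith
  refine core_error (ρ := 1 / (32 * P)) (L := L) (r := r) (s := s) hS hR hFV (Main_c hk) hr1 hrs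
    hT hN1 hN3 ?_ (by omega) b1 b2 b3 b4 (by positivity) ?_ ?_ ha b6 ?_ ?_
  · have h1 : 1 / (1 / (32 * P)) = ((32 * k * a ^ 2 * (n + 1) : ℕ) : ℝ) := by
      rw [one_div_one_div, hP]; push_cast; ring
    rw [h1]
    exact_mod_cast hN2
  · rw [hB]
    refine le_of_eq ?_
    field_simp
    norm_num
  · rw [hRr, hB, mul_sub]
    have h1 : 128 * P * (1 / (64 * P)) = 2 := by
      field_simp
      norm_num
    rw [h1]
    linarith
  · rw [hRr]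
    have h1 : (1 : ℝ) / ((32 * a : ℕ) : ℝ) = 1 / 2 * (1 / (16 * a)) := by
      push_cast
      field_simp
      norm_num
    have h2 : 128 * P * (2 * (1 / (W : ℝ))) = 2 * (128 * P * (1 / (W : ℝ))) := by ring
    have h3 : (1 : ℝ) / (8192 * a) = 1 / 512 * (1 / (16 * a)) := by
      field_simp
      norm_num
    have h4 : (0 : ℝ) < 1 / (16 * a) := by positivity
    rw [h1, h2]
    rw [h3] at b5
    linarith
  · have h1 : (n : ℝ) * (2 * k * (1 / (32 * P))) ≤ 1 / (16 * a ^ 2) := by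
      have e1 : (n : ℝ) * (2 * k * (1 / (32 * P))) = n / (n + 1) * (1 / (16 * a ^ 2)) := by
        rw [hP]
        field_simp
        ring
      rw [e1]
      have h2 : (n : ℝ) / (n + 1) ≤ 1 := by
        rw [div_le_one (by positivity)]
        linarith
      exact mul_le_of_le_one_left (by positivity) h2
    have h2 : 16 * (a : ℝ) * (k : ℝ) ^ 2 * (L : ℝ) ^ 3 * (1 / 2) ^ s ≤ 1 / (16 * a ^ 2) := by
      have h3 : (256 : ℝ) * a ^ 3 * k ^ 2 * L ^ 3 ≤ 2 ^ s := by exact_mod_cast hs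
      have e1 : 16 * (a : ℝ) * (k : ℝ) ^ 2 * (L : ℝ) ^ 3 * (1 / 2) ^ s =
          16 * (a : ℝ) * (k : ℝ) ^ 2 * (L : ℝ) ^ 3 / 2 ^ s := by
        rw [one_div, inv_pow, div_eq_mul_inv]
      rw [e1, div_le_div_iff₀ (by positivity) (by positivity), one_mul]
      refine le_trans (le_of_eq ?_) h3
      ring
    have e2 : (1 : ℝ) / (8 * a ^ 2) = 1 / (16 * a ^ 2) + 1 / (16 * a ^ 2) := by
      field_simp
      norm_num
    rw [e2]
    exact add_le_add h1 h2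

private theorem Main_all {n k a b m L Θ N W s r : ℕ} {f g : (Fin n → Bool) → Bool}
    (hk : 1 ≤ k) (ha : 1 ≤ a) (hb : 1 ≤ b) (hL : 1 ≤ L) (hΘ : 1 ≤ Θ)
    (hW : W = 2 ^ 20 * k * a ^ 3 * (n + 1) * L * Θ) (hread : ReadK k g) (hu : Unate g)
    (hfg : 16 * (2 * (n + 1) * W) * (univ.filter fun x => f x ≠ g x).card ≤ 2 ^ n)
    (hm : 4 * ((2 * n + 1) * (128 * k * a ^ 2 * (n + 1) + 1) + 1 + Nat.clog 2 b) *
      (16 * (2 * (n + 1) * W)) ^ 2 ≤ m)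
    (hr1 : 1 ≤ r) (hrs : k * (k * L) * 2 ^ s ≤ 2 ^ r)
    (hT : 32 * a * (4 * (4 * r * s + 3)) * 2 ^ (2 * (4 * (4 * r * s + 3)) + s + 4) ≤ Θ)
    (hN1 : (2 * k * L ^ 2 + 1) ^ (3 * (Nat.clog 2 (2 * k) + 1)) ≤ N)
    (hN3 : (4 * Θ ^ 2 + 1) ^ (3 * (Nat.clog 2 (2 * k) + 1)) ≤ N)
    (hN2 : (32 * k * a ^ 2 * (n + 1)) ^ 10 ≤ N)
    (hnL : 2 * n * k * W ≤ 2 ^ L) (hs : 256 * a ^ 3 * k ^ 2 * L ^ 3 ≤ 2 ^ s)
    (lrn : (Fin m → Fin n → Bool) → List (List Lit))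
    (hlearn : ∀ ω, lrn ω = fin4 a (smp f ω) (coreR (32 * a) (64 * k * a ^ 2 * (n + 1))
      (128 * k * a ^ 2 * (n + 1)) N (3 * (Nat.clog 2 (2 * k) + 1)) Θ (4 * k * L)
      (orient n (2 * (n + 1) * W) (smp f ω)) (smp f ω))) :
    (1 - 1 / (b : ℝ)) * ((2 : ℝ) ^ n) ^ m ≤
      ((univ.filter fun ω : Fin m → Fin n → Bool => err f (lrn ω) ≤ 1 / (a : ℝ)).card : ℝ) := by
  classical
  have hk' : (1 : ℝ) ≤ k := by exact_mod_cast hk
  obtain ⟨-, hW0r, -⟩ := Main_num hk ha hL hΘ hW rfl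
  have hW0 : 0 < W := by exact_mod_cast hW0r
  have hM0 : 0 < 2 * (n + 1) * W := by positivity
  have hM0r : (0 : ℝ) < ((2 * (n + 1) * W : ℕ) : ℝ) := by exact_mod_cast hM0
  have hM1 : (1 : ℝ) ≤ ((2 * (n + 1) * W : ℕ) : ℝ) := by exact_mod_cast hM0
  have hm0 : 0 < m := by
    refine lt_of_lt_of_le ?_ hm
    positivity
  have hdst : dst f g ≤ 1 / (16 * ((2 * (n + 1) * W : ℕ) : ℝ)) := by
    unfold dst
    rw [div_le_div_iff₀ (by positivity) (by positivity), one_mul, mul_comm]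
    exact_mod_cast hfg
  refine rep_of_large f (128 * k * a ^ 2 * (n + 1)) b hb
    (1 / (16 * ((2 * (n + 1) * W : ℕ) : ℝ))) (by positivity) ?_ ?_ _ ?_
  · rw [div_le_one (by positivity)]
    linarith
  · have hm' : (4 : ℝ) * ((2 * n + 1) * (((128 * k * a ^ 2 * (n + 1) : ℕ) : ℝ) + 1) + 1 +
        Nat.clog 2 b) * (16 * ((2 * (n + 1) * W : ℕ) : ℝ)) ^ 2 ≤ m := by
      exact_mod_cast hm
    rw [one_div, inv_pow, ← div_eq_mul_inv, le_div_iff₀ (by positivity)]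
    exact hm'
  · intro ω hω
    rw [← mu_errE_eq, hlearn]
    exact Main_err hk ha hL hΘ hm0 hW hread hu hdst hω hr1 hrs hT hN1 hN3 hN2 hnL hs

/- PROOF. As the second part of `old/UnateReadK.lean`: `rep_of_large` with `τ0 := 1/(16 M0)`,
`M0 := 2 (n + 1) W`; `exists_orient`, `exists_ref` with `L := pL ..`, `orient_facts`; `τ := 1 / W`,
`ρ := 1 / (32 k a^2 (n + 1))`, `core_error` with `r := 300 u`, `s := 200 u`, `c := clog (2 k) + 1`,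
`A0 := 32 a`, `B := 64 k a^2 (n + 1)`, `R := 128 k a^2 (n + 1)`, `Θ := pT`, `N := pN`. -/
theorem main {c1 c2 c3 : ℕ} (hc1 : c1 = 2 ^ 23) (hc2 : c2 = 2 ^ 30) (hc3 : c3 = 2 ^ 27)
    (n k a b m : ℕ) (f g : (Fin n → Bool) → Bool) (hk : 1 ≤ k) (ha : 1 ≤ a) (hb : 1 ≤ b)
    (hread : ReadK k g) (hu : Unate g)
    (hfg : 16 * (2 * (n + 1) * pW c1 c2 ((2 * bd n k a) ^ 8) n k a) *
      (univ.filter fun x => f x ≠ g x).card ≤ 2 ^ n)
    (hm : 4 * ((2 * n + 1) * (128 * k * a ^ 2 * (n + 1) + 1) + 1 + Nat.clog 2 b) *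
      (16 * (2 * (n + 1) * pW c1 c2 ((2 * bd n k a) ^ 8) n k a)) ^ 2 ≤ m) :
    (1 - 1 / (b : ℝ)) * ((2 : ℝ) ^ n) ^ m ≤
      ((univ.filter fun ω : Fin m → Fin n → Bool =>
        err f (learn c1 c2 c3 (n, k, a, smp f ω)) ≤ 1 / (a : ℝ)).card : ℝ) := by
  have hLpos : 1 ≤ pL c2 n k a := by
    unfold pL
    have h1 := uu_pos n k a
    have h2 : 0 < uu n k a ^ 2 := pow_pos h1 2
    have h3 : 0 < c2 := by rw [hc2]; exact Nat.two_pow_pos 30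
    exact Nat.mul_pos h3 (by omega)
  have hTpos : 1 ≤ pT c1 ((2 * bd n k a) ^ 8) n k a := by
    rw [pT_eq hk ha]
    exact Nat.one_le_two_pow
  have hu1 := uu_pos n k a
  have hr1 : 1 ≤ 300 * uu n k a := by omega
  exact Main_all hk ha hb hLpos hTpos rfl hread hu hfg hm hr1 (num_rs hk ha hc2)
    (num_T hk ha hc1) (num_N1 hk ha hc2 hc3) (num_N3 hk ha hc1 hc3) num_N2 (num_L hk ha hc1 hc2)
    (num_s hk ha hc2) (fun ω => learn c1 c2 c3 (n, k, a, smp f ω)) fun ω => rfl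

end Pool.Agent.H.MP_cba12a_lc.RK
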