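import Pool.Agent.H.MP_cba12a_lc.RK.Defs

/-!
A term without some variables of small influence is a near implicant.
-/

namespace Pool.Agent.H.MP_cba12a_lc.RK

open Finset Pool.Agent.H.MP_cba12a_lc

variable {n : ℕ} {o : Fin n → Bool} {q : (Fin n → Bool) → Bool}

private theorem near_pr_flp (i : Fin n) (P : (Fin n → Bool) → Prop) :
    pr (fun x => P (flp i x)) = pr P := by
  unfold pr
  exact mu_flp i (fun x => @decide (P x) (Classical.propDecidable _))

private theorem near_sOn_insert (d : Fin n) (D : Finset (Fin n)) (x : Fin n → Bool) :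
    sOn o (insert d D) x = sOn o {d} (sOn o D x) := by
  funext i
  by_cases hd : i = d
  · subst hd
    rw [sOn_mem (mem_insert_self _ _), sOn_mem (mem_singleton_self _)]
  · rw [sOn_not_mem (A := {d}) (by simpa using hd)]
    by_cases hi : i ∈ D
    · rw [sOn_mem hi, sOn_mem (mem_insert_of_mem hi)]
    · rw [sOn_not_mem hi, sOn_not_mem (by simp [hd, hi])]

/- PROOF. `pr_on` with `A := D` and this `P`: `pr (On o D x ∧ P x) = (1/2) ^ |D| * pr (P (sOn o D x))`. -/
theorem pr_sOn_le (D : Finset (Fin n)) (P : (Fin n → Bool) → Prop) :
    pr (fun x => P (sOn o D x)) ≤ 2 ^ D.card * pr P := by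
  have h := pr_on o D P
  have h1 : pr (fun x => P (sOn o D x)) = 2 ^ D.card * pr (fun x => On o D x ∧ P x) := by
    rw [h, ← mul_assoc, ← mul_pow]
    norm_num
  rw [h1]
  exact mul_le_mul_of_nonneg_left (pr_mono fun x hx => hx.2) (by positivity)

/- PROOF. Induction on `D`. `insert d D'`: if `q (sOn o D' x) = true` use the induction hypothesis;
else `y := sOn o D' x` has `On o A y`, `q y = false`, and `q (sOn o {d} y) = true`, so `y d ≠ o d`
and `q (flp d y) = true`. By `pr_sOn_le` the measure of these `x` is at most `2 ^ |D'|` times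
the measure of these `y`, which is `inf o q A d` by the flip in direction `d` (`mu_flp`;
`d ∉ A`). -/
theorem near_aux {A K : Finset (Fin n)} (hA : A ⊆ K) (D : Finset (Fin n)) (hD : Disjoint D K) :
    pr (fun x => On o K x ∧ q x = false ∧ q (sOn o D x) = true) ≤
      2 ^ D.card * ∑ j ∈ D, inf o q A j := by
  classical
  induction D using Finset.induction_on with
  | empty =>
    have h0 : pr (fun x => On o K x ∧ q x = false ∧ q (sOn o ∅ x) = true) ≤
        pr (fun _ : Fin n → Bool => False) := by
      refine pr_mono fun x hx => ?_
      have h1 : sOn o ∅ x = x := by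
        funext i
        exact sOn_not_mem (notMem_empty i)
      rw [h1, hx.2.1] at hx
      exact absurd hx.2.2 (by simp)
    have h2 : pr (fun _ : Fin n → Bool => False) = 0 := by
      have h3 := pr_le_sum (n := n) (∅ : Finset (Fin n)) (fun _ => False) (fun _ _ => False)
        (fun x hx => absurd hx id)
      rw [sum_empty] at h3
      exact le_antisymm h3 (pr_nonneg _)
    rw [sum_empty, mul_zero]
    exact h0.trans h2.le
  | insert d D' hd ih =>
    have hD' : Disjoint D' K := disjoint_of_subset_left (subset_insert _ _) hD
    have hdK : d ∉ K := disjoint_left.1 hD (mem_insert_self _ _)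
    have hdA : d ∉ A := fun h => hdK (hA h)
    have ih' := ih hD'
    set P : (Fin n → Bool) → Prop := fun y => On o A y ∧ y d = !(o d) ∧ q y = false ∧
      q (flp d y) = true with hP
    have h1 : pr (fun x => On o K x ∧ q x = false ∧ q (sOn o (insert d D') x) = true) ≤
        pr (fun x => On o K x ∧ q x = false ∧ q (sOn o D' x) = true) +
          pr (fun x => P (sOn o D' x)) := by
      refine pr_le_add fun x hx => ?_
      obtain ⟨hK, hq, hq2⟩ := hx
      by_cases h2 : q (sOn o D' x) = true
      · exact Or.inl ⟨hK, hq, h2⟩
      · right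
        rw [near_sOn_insert] at hq2
        have h3 : sOn o D' x d ≠ o d := by
          intro hc
          apply h2
          have h4 : sOn o {d} (sOn o D' x) = sOn o D' x := by
            refine sOn_eq fun i hi => ?_
            rw [mem_singleton.1 hi]
            exact hc
          rw [h4] at hq2
          exact hq2
        have h5 : sOn o {d} (sOn o D' x) = flp d (sOn o D' x) := by
          funext i
          by_cases hi : i = d
          · subst hi
            rw [sOn_mem (mem_singleton_self _), flp_same]
            revert h3
            cases sOn o D' x i <;> cases o i <;> simp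
          · rw [sOn_not_mem (by simpa using hi), flp_ne hi]
        refine ⟨fun i hi => ?_, ?_, by simpa using h2, by rw [← h5]; exact hq2⟩
        · rw [sOn_not_mem (disjoint_right.1 hD' (hA hi))]
          exact hK i (hA hi)
        · revert h3
          cases sOn o D' x d <;> cases o d <;> simp
    have h2 : pr P = inf o q A d := by
      unfold inf
      rw [← near_pr_flp d]
      refine pr_congr fun x => ?_
      have hon : On o A (flp d x) ↔ On o A x := by
        constructor
        · intro h i hi
          have h3 : i ≠ d := fun hc => hdA (hc ▸ hi)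
          rw [← flp_ne h3 x]
          exact h i hi
        · intro h i hi
          have h3 : i ≠ d := fun hc => hdA (hc ▸ hi)
          rw [flp_ne h3 x]
          exact h i hi
      simp only [hP, flp_flp, flp_same, hon]
      constructor
      · rintro ⟨a, b, c, e⟩
        exact ⟨a, by simpa using b, e, c⟩
      · rintro ⟨a, b, c, e⟩
        exact ⟨a, by simpa using b, e, c⟩
    have h3 := pr_sOn_le (o := o) D' P
    rw [h2] at h3
    have hnn : 0 ≤ ∑ j ∈ insert d D', inf o q A j := sum_nonneg fun j _ => pr_nonneg _
    rw [card_insert_of_notMem hd, pow_succ]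
    have h4 : ∑ j ∈ insert d D', inf o q A j = inf o q A d + ∑ j ∈ D', inf o q A j :=
      sum_insert hd
    calc _ ≤ 2 ^ D'.card * ∑ j ∈ D', inf o q A j + 2 ^ D'.card * inf o q A d :=
          h1.trans (add_le_add ih' h3)
      _ = 2 ^ D'.card * ∑ j ∈ insert d D', inf o q A j := by rw [h4]; ring
      _ ≤ 2 ^ D'.card * 2 * ∑ j ∈ insert d D', inf o q A j := by
          have h5 : (0 : ℝ) ≤ 2 ^ D'.card := by positivity
          nlinarith [mul_nonneg h5 hnn]

/-- A part `K` of a term `T` is a near implicant if the other variables of `T` have a small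
influence in the subcube of `A ⊆ K`. -/
theorem near {T K A : Finset (Fin n)} (hT : ∀ x, On o T x → q x = true) (hK : K ⊆ T)
    (hA : A ⊆ K) : pr (fun x => On o K x ∧ q x = false) ≤
      2 ^ (T \ K).card * ∑ j ∈ T \ K, inf o q A j := by
  refine le_trans (pr_mono fun x hx => ?_) (near_aux hA (T \ K) sdiff_disjoint)
  refine ⟨hx.1, hx.2, hT _ fun i hi => ?_⟩
  by_cases h : i ∈ K
  · rw [sOn_not_mem (by simp [h])]
    exact hx.1 i h
  · exact sOn_mem (mem_sdiff.2 ⟨hi, h⟩)

end Pool.Agent.H.MP_cba12a_lc.RK
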