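import Pool.Agent.H.MP_cba12a_lc.RK.Time

/-!
The parameters. `u := uu n k a ≥ 1`, `k * a * clog (n + 2) ≤ 2 ^ (u - 1)`. The constants are
`c1 := 2 ^ 23`, `c2 := 2 ^ 30`, `c3 := 2 ^ 27`; keep them as variables with hypotheses (`hc1 : c1 = 2 ^ 23`) so
that nothing evaluates powers with huge exponents.
-/

namespace Pool.Agent.H.MP_cba12a_lc.RK

open Pool.Agent.H.MP_5be563_lc.PT Pool.Agent.H.MP_cba12a_lc

theorem uu_pos (n k a : ℕ) : 1 ≤ uu n k a := by unfold uu; omega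

/-- `k, a, clog (n + 2)` are at most `2 ^ u` -/
theorem prod_le_uu (n k a : ℕ) : 2 * (k * a * Nat.clog 2 (n + 2)) ≤ 2 ^ uu n k a := by
  unfold uu
  rw [pow_succ]
  have := Nat.le_pow_clog (b := 2) (by norm_num) (k * a * Nat.clog 2 (n + 2))
  omega

private theorem NumA_ell (n : ℕ) : 1 ≤ Nat.clog 2 (n + 2) :=
  Nat.clog_pos (by norm_num) (by omega)

/-- `ℓ ≥ 1`, `a ≥ 1`. -/
theorem k_le {n k a : ℕ} (ha : 1 ≤ a) : 2 * k ≤ 2 ^ uu n k a := by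
  refine le_trans ?_ (prod_le_uu n k a)
  have h1 : k * 1 * 1 ≤ k * a * Nat.clog 2 (n + 2) :=
    Nat.mul_le_mul (Nat.mul_le_mul_left _ ha) (NumA_ell n)
  omega

theorem a_le {n k a : ℕ} (hk : 1 ≤ k) : 2 * a ≤ 2 ^ uu n k a := by
  refine le_trans ?_ (prod_le_uu n k a)
  have h1 : 1 * a * 1 ≤ k * a * Nat.clog 2 (n + 2) :=
    Nat.mul_le_mul (Nat.mul_le_mul_right _ hk) (NumA_ell n)
  omega

theorem ell_le {n k a : ℕ} (hk : 1 ≤ k) (ha : 1 ≤ a) :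
    2 * Nat.clog 2 (n + 2) ≤ 2 ^ uu n k a := by
  refine le_trans ?_ (prod_le_uu n k a)
  have h1 : 1 * 1 * Nat.clog 2 (n + 2) ≤ k * a * Nat.clog 2 (n + 2) :=
    Nat.mul_le_mul_right _ (Nat.mul_le_mul hk ha)
  omega

private theorem NumA_sq (u : ℕ) : u ^ 2 ≤ 2 ^ (u + 1) := by
  induction u with
  | zero => norm_num
  | succ u ih =>
    rcases Nat.lt_or_ge u 3 with h | h
    · interval_cases u <;> norm_num
    · have h1 : (u + 1) ^ 2 ≤ 2 * u ^ 2 := by nlinarith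
      calc (u + 1) ^ 2 ≤ 2 * u ^ 2 := h1
        _ ≤ 2 * 2 ^ (u + 1) := Nat.mul_le_mul_left _ ih
        _ = 2 ^ (u + 1 + 1) := by rw [pow_succ 2 (u + 1), mul_comm]

/-- `u ^ 2 ≤ 2 ^ (u + 1)`, `ell_le`. -/
theorem pL_le {n k a c2 : ℕ} (hk : 1 ≤ k) (ha : 1 ≤ a) (hc2 : c2 = 2 ^ 30) :
    pL c2 n k a ≤ 2 ^ (32 + uu n k a) := by
  unfold pL
  have h1 := ell_le (n := n) hk ha
  have h2 := NumA_sq (uu n k a)
  rw [pow_succ 2 (uu n k a)] at h2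
  have h3 : Nat.clog 2 (n + 2) + uu n k a ^ 2 ≤ 4 * 2 ^ uu n k a := by omega
  have h4 : 2 ^ (32 + uu n k a) = 2 ^ 30 * (4 * 2 ^ uu n k a) := by
    rw [pow_add, ← mul_assoc]
    norm_num
  rw [hc2, h4]
  exact Nat.mul_le_mul_left _ h3

/-- With `v := clog ..`, `u = v + 1`: `u ^ 2 ≤ 4 * v ^ 2` for `v ≥ 1`; if `v = 0` then `k = 1`. -/
theorem two_pow_uu_le (n k a : ℕ) (hk : 1 ≤ k) (ha : 1 ≤ a) :
    2 ^ (Nat.clog 2 (2 * k) * uu n k a ^ 2) ≤ (2 * bd n k a) ^ 8 := by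
  unfold uu bd
  have hv0 : Nat.clog 2 (k * a * Nat.clog 2 (n + 2)) = 0 → Nat.clog 2 (2 * k) ≤ 1 := by
    intro h0
    have h1 := Nat.le_pow_clog (b := 2) (by norm_num) (k * a * Nat.clog 2 (n + 2))
    rw [h0, pow_zero] at h1
    have h2 : k * 1 * 1 ≤ k * a * Nat.clog 2 (n + 2) :=
      Nat.mul_le_mul (Nat.mul_le_mul_left _ ha) (NumA_ell n)
    have h3 : k = 1 := by omega
    subst h3
    exact Nat.clog_le_of_le_pow (by norm_num)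
  revert hv0
  generalize Nat.clog 2 (k * a * Nat.clog 2 (n + 2)) = v
  generalize Nat.clog 2 (2 * k) = w
  intro hv0
  have h1 : (2 * 2 ^ (w * v ^ 2)) ^ 8 = 2 ^ ((w * v ^ 2 + 1) * 8) := by
    rw [pow_mul 2 (w * v ^ 2 + 1) 8, pow_succ 2 (w * v ^ 2), mul_comm]
  rw [h1]
  refine Nat.pow_le_pow_right (by norm_num) ?_
  rcases Nat.eq_zero_or_pos v with h | h
  · subst h
    have := hv0 rfl
    simp only [zero_add, one_pow, mul_one]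
    omega
  · have h3 : (v + 1) ^ 2 ≤ 4 * v ^ 2 := by nlinarith
    calc w * (v + 1) ^ 2 ≤ w * (4 * v ^ 2) := Nat.mul_le_mul_left _ h3
      _ ≤ (w * v ^ 2 + 1) * 8 := by nlinarith

/-- `dbl_eq`, `u ^ 2 ≤ clog (2 k) * u ^ 2`. -/
theorem pT_eq {n k a c1 : ℕ} (hk : 1 ≤ k) (ha : 1 ≤ a) :
    pT c1 ((2 * bd n k a) ^ 8) n k a = 2 ^ (c1 * uu n k a ^ 2) := by
  unfold pT
  have h0 : 1 ≤ Nat.clog 2 (2 * k) := Nat.clog_pos (by norm_num) (by omega)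
  have h1 : 2 ^ uu n k a ^ 2 ≤ (2 * bd n k a) ^ 8 :=
    le_trans (Nat.pow_le_pow_right (by norm_num) (Nat.le_mul_of_pos_left _ h0))
      (two_pow_uu_le n k a hk ha)
  rw [dbl_eq h1, ← pow_mul, mul_comm]

private theorem NumA_k {n k a : ℕ} (ha : 1 ≤ a) : k ≤ 2 ^ uu n k a :=
  le_trans (by omega) (k_le (n := n) (k := k) ha)

private theorem NumA_a {n k a : ℕ} (hk : 1 ≤ k) : a ≤ 2 ^ uu n k a :=
  le_trans (by omega) (a_le (n := n) (a := a) hk)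

theorem num_rs {n k a c2 : ℕ} (hk : 1 ≤ k) (ha : 1 ≤ a) (hc2 : c2 = 2 ^ 30) :
    k * (k * pL c2 n k a) * 2 ^ (200 * uu n k a) ≤ 2 ^ (300 * uu n k a) := by
  have h1 := NumA_k (n := n) (k := k) ha
  have h2 := pL_le (n := n) hk ha hc2
  have h3 := uu_pos n k a
  calc k * (k * pL c2 n k a) * 2 ^ (200 * uu n k a)
      ≤ 2 ^ uu n k a * (2 ^ uu n k a * 2 ^ (32 + uu n k a)) * 2 ^ (200 * uu n k a) :=
        Nat.mul_le_mul_right _ (Nat.mul_le_mul h1 (Nat.mul_le_mul h1 h2))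
    _ = 2 ^ (uu n k a + (uu n k a + (32 + uu n k a)) + 200 * uu n k a) := by
        rw [← pow_add, ← pow_add, ← pow_add]
    _ ≤ 2 ^ (300 * uu n k a) := Nat.pow_le_pow_right (by norm_num) (by omega)

theorem num_s {n k a c2 : ℕ} (hk : 1 ≤ k) (ha : 1 ≤ a) (hc2 : c2 = 2 ^ 30) :
    256 * a ^ 3 * k ^ 2 * pL c2 n k a ^ 3 ≤ 2 ^ (200 * uu n k a) := by
  have h1 := NumA_k (n := n) (k := k) ha
  have h2 := pL_le (n := n) hk ha hc2
  have h3 := uu_pos n k a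
  have h4 := NumA_a (n := n) (a := a) hk
  calc 256 * a ^ 3 * k ^ 2 * pL c2 n k a ^ 3
      ≤ 2 ^ 8 * (2 ^ uu n k a) ^ 3 * (2 ^ uu n k a) ^ 2 * (2 ^ (32 + uu n k a)) ^ 3 :=
        Nat.mul_le_mul (Nat.mul_le_mul (Nat.mul_le_mul (by norm_num)
          (Nat.pow_le_pow_left h4 3)) (Nat.pow_le_pow_left h1 2)) (Nat.pow_le_pow_left h2 3)
    _ = 2 ^ (8 + uu n k a * 3 + uu n k a * 2 + (32 + uu n k a) * 3) := by
        rw [← pow_mul, ← pow_mul, ← pow_mul, ← pow_add, ← pow_add, ← pow_add]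
    _ ≤ 2 ^ (200 * uu n k a) := Nat.pow_le_pow_right (by norm_num) (by omega)

end Pool.Agent.H.MP_cba12a_lc.RK
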