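import Pool.Agent.H.MP_cba12a_lc.RK.NumA

/-!
The parameters. `u := uu n k a ≥ 1`, `k * a * clog (n + 2) ≤ 2 ^ (u - 1)`. The constants are
`c1 := 2 ^ 23`, `c2 := 2 ^ 30`, `c3 := 2 ^ 27`; keep them as variables with hypotheses (`hc1 : c1 = 2 ^ 23`) so
that nothing evaluates powers with huge exponents.
-/

namespace Pool.Agent.H.MP_cba12a_lc.RK

open Pool.Agent.H.MP_5be563_lc.PT Pool.Agent.H.MP_cba12a_lc

private theorem NumB_T1 {u A Lam e E : ℕ} (hA : A ≤ 2 ^ u) (hL : Lam ≤ 2 ^ (20 + 2 * u))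
    (h : 25 + 3 * u + e ≤ E) : 32 * A * Lam * 2 ^ e ≤ 2 ^ E := by
  calc 32 * A * Lam * 2 ^ e ≤ 32 * 2 ^ u * 2 ^ (20 + 2 * u) * 2 ^ e := by gcongr
    _ = 2 ^ (25 + 3 * u + e) := by
        rw [show (32 : ℕ) = 2 ^ 5 by norm_num, ← pow_add, ← pow_add, ← pow_add]
        congr 1
        ring
    _ ≤ 2 ^ E := Nat.pow_le_pow_right (by norm_num) h

/- PROOF. `Λ := 4 * (4 * (300 u) * (200 u) + 3) ≤ 2 ^ 20 * u ^ 2`; the exponent is at most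
`2 ^ 22 * u ^ 2`, `32 * a * Λ ≤ 2 ^ (28 * u ^ 2)` (`a, u ^ 2 ≤ 2 ^ (u + 1)`). -/
theorem num_T {n k a c1 : ℕ} (hk : 1 ≤ k) (ha1 : 1 ≤ a) (hc1 : c1 = 2 ^ 23) :
    32 * a * (4 * (4 * (300 * uu n k a) * (200 * uu n k a) + 3)) *
      2 ^ (2 * (4 * (4 * (300 * uu n k a) * (200 * uu n k a) + 3)) + 200 * uu n k a + 4) ≤
      pT c1 ((2 * bd n k a) ^ 8) n k a := by
  rw [pT_eq hk ha1]
  have hu := uu_pos n k a
  have ha : a ≤ 2 ^ uu n k a := by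
    have := a_le (n := n) (a := a) hk
    omega
  generalize uu n k a = u at hu ha ⊢
  have huu : u ≤ u ^ 2 := by nlinarith
  have e : 4 * (4 * (300 * u) * (200 * u) + 3) = 960000 * u ^ 2 + 12 := by ring
  rw [e]
  have hu2 : u ^ 2 ≤ 2 ^ (2 * u) := by
    have h1 : u ≤ 2 ^ u := Nat.lt_two_pow_self.le
    calc u ^ 2 ≤ (2 ^ u) ^ 2 := Nat.pow_le_pow_left h1 2
      _ = 2 ^ (2 * u) := by rw [← pow_mul, mul_comm]
  have hL : 960000 * u ^ 2 + 12 ≤ 2 ^ (20 + 2 * u) := by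
    rw [pow_add]
    have : 960000 * u ^ 2 + 12 ≤ 2 ^ 20 * u ^ 2 := by
      norm_num
      omega
    exact this.trans (Nat.mul_le_mul_left _ hu2)
  apply NumB_T1 ha hL
  rw [hc1]
  norm_num
  omega

/-- lists -/
private theorem NumB_N {T X c u w E c3 R : ℕ} (hT : 2 ^ (w * u ^ 2) ≤ T)
    (hX : X ≤ 2 ^ (E * u ^ 2)) (hc : c ≤ w + 1) (hw : 1 ≤ w) (hE : 6 * E ≤ c3) (hR : 1 ≤ R) :
    X ^ (3 * c) ≤ T ^ c3 * R ^ 10 := by
  have h1 : X ^ (3 * c) ≤ T ^ c3 := by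
    calc X ^ (3 * c) ≤ (2 ^ (E * u ^ 2)) ^ (3 * c) := Nat.pow_le_pow_left hX _
      _ = 2 ^ (E * u ^ 2 * (3 * c)) := (pow_mul 2 (E * u ^ 2) (3 * c)).symm
      _ ≤ 2 ^ (w * u ^ 2 * (6 * E)) := by
          apply Nat.pow_le_pow_right (by norm_num)
          calc E * u ^ 2 * (3 * c) ≤ E * u ^ 2 * (6 * w) := by
                apply Nat.mul_le_mul_left
                omega
            _ = w * u ^ 2 * (6 * E) := by ring
      _ = (2 ^ (w * u ^ 2)) ^ (6 * E) := pow_mul 2 (w * u ^ 2) (6 * E)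
      _ ≤ T ^ (6 * E) := Nat.pow_le_pow_left hT _
      _ ≤ T ^ c3 := by
          apply Nat.pow_le_pow_right _ hE
          exact lt_of_lt_of_le (by positivity) hT
  calc X ^ (3 * c) ≤ T ^ c3 * 1 := by rw [mul_one]; exact h1
    _ ≤ T ^ c3 * R ^ 10 := Nat.mul_le_mul_left _ (Nat.one_le_pow _ _ hR)

private theorem NumB_w {k : ℕ} (hk : 1 ≤ k) : 1 ≤ Nat.clog 2 (2 * k) :=
  Nat.clog_pos (by norm_num) (by omega)

/- PROOF. `w := clog (2 k)`, `w + 1 ≤ 2 w` and `2 k L ^ 2 + 1 ≤ 2 ^ (70 u)`, so the left side is at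
most `2 ^ (420 w u ^ 2) ≤ T ^ 420`. -/
theorem num_N1 {n k a c2 c3 : ℕ} (hk : 1 ≤ k) (ha : 1 ≤ a) (hc2 : c2 = 2 ^ 30)
    (hc3 : c3 = 2 ^ 27) :
    (2 * k * pL c2 n k a ^ 2 + 1) ^ (3 * (Nat.clog 2 (2 * k) + 1)) ≤
      pN c3 ((2 * bd n k a) ^ 8) n k a := by
  unfold pN
  have hu := uu_pos n k a
  have hL := pL_le (n := n) hk ha hc2
  have hk2 := k_le (n := n) (k := k) ha
  have hT := two_pow_uu_le n k a hk ha
  refine NumB_N (E := 70) hT ?_ le_rfl (NumB_w hk) ?_ ?_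
  · generalize uu n k a = u at hu hL hk2 ⊢
    generalize pL c2 n k a = L at hL ⊢
    have h1 : 2 * k * L ^ 2 ≤ 2 ^ (64 + 3 * u) := by
      calc 2 * k * L ^ 2 ≤ 2 ^ u * (2 ^ (32 + u)) ^ 2 := by gcongr
        _ = 2 ^ (64 + 3 * u) := by
            rw [← pow_mul, ← pow_add]
            congr 1
            ring
    have huu : u ≤ u ^ 2 := by nlinarith
    calc 2 * k * L ^ 2 + 1 ≤ 2 ^ (64 + 3 * u) + 2 ^ (64 + 3 * u) :=
          Nat.add_le_add h1 (Nat.one_le_two_pow)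
      _ = 2 ^ (65 + 3 * u) := by rw [show 65 + 3 * u = (64 + 3 * u) + 1 by ring, pow_succ]; ring
      _ ≤ 2 ^ (70 * u ^ 2) := by
          apply Nat.pow_le_pow_right (by norm_num)
          omega
  · rw [hc3]
    norm_num
  · have : 0 < 32 * k * a ^ 2 * (n + 1) := by positivity
    exact this

/- PROOF. `4 Θ ^ 2 + 1 ≤ 2 ^ ((2 c1 + 3) u ^ 2)`, the exponent `3 (w + 1) ≤ 6 w`; so at most
`(2 ^ (w u ^ 2)) ^ (12 c1 + 18) ≤ T ^ c3`. -/
theorem num_N3 {n k a c1 c3 : ℕ} (hk : 1 ≤ k) (ha : 1 ≤ a) (hc1 : c1 = 2 ^ 23)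
    (hc3 : c3 = 2 ^ 27) :
    (4 * pT c1 ((2 * bd n k a) ^ 8) n k a ^ 2 + 1) ^ (3 * (Nat.clog 2 (2 * k) + 1)) ≤
      pN c3 ((2 * bd n k a) ^ 8) n k a := by
  rw [pT_eq hk ha]
  unfold pN
  have hu := uu_pos n k a
  have hT := two_pow_uu_le n k a hk ha
  refine NumB_N (E := 2 * c1 + 3) hT ?_ le_rfl (NumB_w hk) ?_ ?_
  · generalize uu n k a = u at hu ⊢
    have huu : 1 ≤ u ^ 2 := Nat.one_le_pow _ _ hu
    calc 4 * (2 ^ (c1 * u ^ 2)) ^ 2 + 1 ≤ 4 * (2 ^ (c1 * u ^ 2)) ^ 2 + 4 * (2 ^ (c1 * u ^ 2)) ^ 2 := by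
          apply Nat.add_le_add_left
          have : 0 < 4 * (2 ^ (c1 * u ^ 2)) ^ 2 := by positivity
          exact this
      _ = 2 ^ (c1 * u ^ 2 * 2 + 3) := by
          rw [pow_add, pow_mul 2 (c1 * u ^ 2) 2]
          ring
      _ ≤ 2 ^ ((2 * c1 + 3) * u ^ 2) := by
          apply Nat.pow_le_pow_right (by norm_num)
          nlinarith
  · rw [hc1, hc3]
    norm_num
  · have : 0 < 32 * k * a ^ 2 * (n + 1) := by positivity
    exact this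

theorem num_N2 {n k a c3 : ℕ} : (32 * k * a ^ 2 * (n + 1)) ^ 10 ≤
    pN c3 ((2 * bd n k a) ^ 8) n k a := by
  unfold pN
  apply Nat.le_mul_of_pos_left
  have : 0 < bd n k a := by
    unfold bd
    positivity
  positivity

/- PROOF. `log₂` of the left side is at most `53 + 6 u + 2 ℓ + c1 u ^ 2 ≤ 2 ^ 30 (ℓ + u ^ 2)`. -/
theorem num_L {n k a c1 c2 : ℕ} (hk : 1 ≤ k) (ha : 1 ≤ a) (hc1 : c1 = 2 ^ 23)
    (hc2 : c2 = 2 ^ 30) :
    2 * n * k * pW c1 c2 ((2 * bd n k a) ^ 8) n k a ≤ 2 ^ pL c2 n k a := by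
  unfold pW
  rw [pT_eq hk ha]
  have hu := uu_pos n k a
  have hL := pL_le (n := n) hk ha hc2
  have hk2 : k ≤ 2 ^ uu n k a := by
    have := k_le (n := n) (k := k) ha
    omega
  have ha2 : a ≤ 2 ^ uu n k a := by
    have := a_le (n := n) (a := a) hk
    omega
  have hn : n + 2 ≤ 2 ^ Nat.clog 2 (n + 2) := Nat.le_pow_clog (by norm_num) _
  have hl1 : 1 ≤ Nat.clog 2 (n + 2) := Nat.clog_pos (by norm_num) (by omega)
  have hE : 53 + 2 * Nat.clog 2 (n + 2) + 6 * uu n k a + c1 * uu n k a ^ 2 ≤ pL c2 n k a := by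
    unfold pL
    rw [hc1, hc2]
    have huu : uu n k a ≤ uu n k a ^ 2 := by nlinarith
    norm_num
    omega
  generalize uu n k a = u at *
  generalize pL c2 n k a = L at *
  generalize Nat.clog 2 (n + 2) = l at *
  calc 2 * n * k * (2 ^ 20 * k * a ^ 3 * (n + 1) * L * 2 ^ (c1 * u ^ 2))
      ≤ 2 * 2 ^ l * 2 ^ u * (2 ^ 20 * 2 ^ u * (2 ^ u) ^ 3 * 2 ^ l * 2 ^ (32 + u) *
        2 ^ (c1 * u ^ 2)) := by
        gcongr
        · omega
        · omega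
    _ = 2 ^ (53 + 2 * l + 6 * u + c1 * u ^ 2) := by
        rw [← pow_mul]
        simp only [← pow_add, ← pow_succ']
        congr 1
        ring
    _ ≤ 2 ^ L := Nat.pow_le_pow_right (by norm_num) hE

end Pool.Agent.H.MP_cba12a_lc.RK
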