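import Pool.Agent.H.MP_cba12a_lc.RK.NumA

/-!
The time bound is polynomial in `n` if `(log₂ k) ^ 3` and `log₂ (2 k) * (log₂ a) ^ 2` are at most a
constant times `log₂ n`.
-/

namespace Pool.Agent.H.MP_cba12a_lc.RK

private theorem NumD_mul (x y : ℕ) : Nat.clog 2 (x * y) ≤ Nat.clog 2 x + Nat.clog 2 y := by
  refine Nat.clog_le_of_le_pow ?_
  rw [pow_add]
  exact Nat.mul_le_mul (Nat.le_pow_clog one_lt_two x) (Nat.le_pow_clog one_lt_two y)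

private theorem NumD_exp (x : ℕ) : (x + 1) ^ 3 ≤ 27 * 2 ^ x := by
  induction x with
  | zero => norm_num
  | succ x ih =>
    rcases Nat.lt_or_ge x 3 with h | h
    · interval_cases x <;> norm_num
    · have h1 : (x + 1 + 1) ^ 3 ≤ 2 * (x + 1) ^ 3 := by
        obtain ⟨y, rfl⟩ := Nat.exists_eq_add_of_le h
        nlinarith [Nat.zero_le (y ^ 3), Nat.zero_le (y ^ 2), Nat.zero_le y]
      calc (x + 1 + 1) ^ 3 ≤ 2 * (x + 1) ^ 3 := h1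
        _ ≤ 2 * (27 * 2 ^ x) := Nat.mul_le_mul_left 2 ih
        _ = _ := by ring

private theorem NumD_clog (l : ℕ) (hl : 1 ≤ l) : Nat.clog 2 l ^ 3 ≤ 27 * l := by
  rcases Nat.lt_or_ge l 2 with h | h
  · have : l = 1 := by omega
    subst this
    rw [Nat.clog_one_right]
    norm_num
  · have h1 : 0 < Nat.clog 2 l := Nat.clog_pos one_lt_two h
    have h2 : 2 ^ (Nat.clog 2 l).pred < l := Nat.pow_pred_clog_lt_self one_lt_two (by omega)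
    obtain ⟨m, hm⟩ : ∃ m, Nat.clog 2 l = m + 1 := ⟨Nat.clog 2 l - 1, by omega⟩
    rw [hm, Nat.pred_succ] at h2
    rw [hm]
    exact (NumD_exp m).trans (Nat.mul_le_mul_left 27 h2.le)

/- PROOF. Let `ℓ := clog (n + 2) ≥ 1`, `w := clog (2 * k)`. `clog (k * a * ℓ) ≤ w + clog a + clog ℓ`,
`w * (x + y + z) ^ 2 ≤ 3 * w * (x ^ 2 + y ^ 2 + z ^ 2)`, `w * (clog ℓ) ^ 2 ≤ w ^ 3 + (clog ℓ) ^ 3`,
`(clog ℓ) ^ 3 ≤ 27 * ℓ`. -/
theorem bd_poly (c : ℕ) : ∃ P : Polynomial ℕ, ∀ n k a : ℕ,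
    Nat.clog 2 (2 * k) ^ 3 ≤ c * Nat.clog 2 (n + 2) →
    Nat.clog 2 (2 * k) * Nat.clog 2 a ^ 2 ≤ c * Nat.clog 2 (n + 2) → bd n k a ≤ P.eval n := by
  refine ⟨(2 * (Polynomial.X + 2)) ^ (9 * (c + 9)), fun n k a hk ha => ?_⟩
  rw [Polynomial.eval_pow, Polynomial.eval_mul, Polynomial.eval_add, Polynomial.eval_X,
    Polynomial.eval_ofNat]
  obtain ⟨l, hl⟩ : ∃ l, l = Nat.clog 2 (n + 2) := ⟨_, rfl⟩
  have hl1 : 1 ≤ l := by
    rw [hl]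
    exact Nat.clog_pos one_lt_two (by omega)
  have h2l : 2 ^ l ≤ 2 * (n + 2) := by
    rw [hl]
    exact two_pow_clog_le (n + 2) (by omega)
  rw [← hl] at hk ha
  unfold bd
  rw [← hl]
  have h0 : Nat.clog 2 k ≤ Nat.clog 2 (2 * k) := Nat.clog_mono_right 2 (by omega)
  have h1 : Nat.clog 2 (k * a * l) ≤ Nat.clog 2 (2 * k) + Nat.clog 2 a + Nat.clog 2 l :=
    (NumD_mul _ _).trans (Nat.add_le_add_right ((NumD_mul _ _).trans
      (Nat.add_le_add_right h0 _)) _)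
  have h4 := NumD_clog l hl1
  generalize Nat.clog 2 (k * a * l) = v at h1 ⊢
  generalize Nat.clog 2 (2 * k) = w at hk ha h1 ⊢
  generalize Nat.clog 2 a = x at ha h1
  generalize Nat.clog 2 l = y at h1 h4
  have h5 : w * y ^ 2 ≤ w ^ 3 + y ^ 3 := by
    rcases le_total w y with h | h
    · have : w * y ^ 2 ≤ y * y ^ 2 := Nat.mul_le_mul_right _ h
      nlinarith [Nat.zero_le (w ^ 3)]
    · have : w * y ^ 2 ≤ w * w ^ 2 := Nat.mul_le_mul_left _ (Nat.pow_le_pow_left h 2)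
      nlinarith [Nat.zero_le (y ^ 3)]
  have h6 : (w + x + y) ^ 2 ≤ 3 * (w ^ 2 + x ^ 2 + y ^ 2) := by
    zify
    nlinarith [sq_nonneg ((w : ℤ) - x), sq_nonneg ((x : ℤ) - y), sq_nonneg ((w : ℤ) - y)]
  have h3 : w * v ^ 2 ≤ l * (9 * (c + 9)) := by
    calc w * v ^ 2 ≤ w * (w + x + y) ^ 2 :=
          Nat.mul_le_mul_left _ (Nat.pow_le_pow_left h1 2)
      _ ≤ w * (3 * (w ^ 2 + x ^ 2 + y ^ 2)) := Nat.mul_le_mul_left _ h6
      _ = 3 * (w ^ 3 + w * x ^ 2 + w * y ^ 2) := by ring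
      _ ≤ l * (9 * (c + 9)) := by nlinarith
  calc 2 ^ (w * v ^ 2) ≤ 2 ^ (l * (9 * (c + 9))) := Nat.pow_le_pow_right (by norm_num) h3
    _ = (2 ^ l) ^ (9 * (c + 9)) := pow_mul 2 l _
    _ ≤ (2 * (n + 2)) ^ (9 * (c + 9)) := Nat.pow_le_pow_left h2l _

end Pool.Agent.H.MP_cba12a_lc.RK
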