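import Pool.Agent.H.MP_cba12a_lc.RK.Long
import Pool.Agent.H.MP_cba12a_lc.RK.FirstB

/-!
A large mass of pivotal points lies on good terms almost all of whose variables are visible.
-/

namespace Pool.Agent.H.MP_cba12a_lc.RK

open Finset Pool.Agent.H.MP_cba12a_lc

variable {n : ℕ} {o : Fin n → Bool} {q : (Fin n → Bool) → Bool} {F : Finset (Finset (Fin n))}
  {k L r s : ℕ} {rk : Finset (Fin n) → ℕ} {h : List (List Lit)} {i : Fin n}

/-- the variables which occur together with `i` in a term -/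
private def vJ (F : Finset (Finset (Fin n))) (i : Fin n) : Finset (Fin n) :=
  (F.filter fun T => i ∈ T).biUnion id

private theorem vJ_card (hR : RefF o q F k L) : (vJ F i).card ≤ k * L := by
  unfold vJ
  refine card_biUnion_le.trans ?_
  calc ∑ T ∈ F.filter (fun T => i ∈ T), (id T).card
      ≤ ∑ _T ∈ F.filter (fun T => i ∈ T), L :=
        sum_le_sum fun T hT => hR.len T (mem_filter.1 hT).1
    _ = (F.filter fun T => i ∈ T).card * L := by rw [sum_const, smul_eq_mul]
    _ ≤ k * L := Nat.mul_le_mul_right _ (hR.read i)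

private theorem sub_vJ {T : Finset (Fin n)} (hT : T ∈ F) (hi : i ∈ T) : T ⊆ vJ F i := by
  intro j hj
  unfold vJ
  rw [mem_biUnion]
  exact ⟨T, mem_filter.2 ⟨hT, hi⟩, hj⟩

open Classical in
private theorem vis_dc (Jv : Finset (Fin n)) (hJv : Jv ⊆ vJ F i) (T : Finset (Fin n)) :
    ∑ j ∈ Jv.filter (fun j => j ∉ T), ((fstT o q F rk h i T).filter fun x =>
      ∃ S ∈ forb F rk i T, j ∈ S ∧ On o (S.erase j) x).card ≤
    ∑ x ∈ fstT o q F rk h i T, (blk o (forb F rk i T) (vJ F i) T x).card := by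
  simp only [card_filter]
  rw [sum_comm]
  refine sum_le_sum fun x _ => ?_
  rw [← card_filter]
  refine card_le_card fun j hj => ?_
  rw [mem_filter, mem_filter] at hj
  rw [mem_blk]
  exact ⟨hJv hj.1.1, hj.1.2, hj.2⟩

/-- for good terms -/
private theorem vis_good (hR : RefF o q F k L) (hr1 : 1 ≤ r)
    (hr : k * (k * L) * 2 ^ s ≤ 2 ^ r) {T : Finset (Fin n)}
    (hb : 2 ^ n ≤ 2 ^ s * (2 ^ T.card * (fstT o q F rk h i T).card)) :
    ∑ x ∈ fstT o q F rk h i T, (blk o (forb F rk i T) (vJ F i) T x).card ≤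
      (4 * r * s + 1) * (fstT o q F rk h i T).card := by
  refine blk_sum (fun x hx => on_of_fstT hx) (fun x hx => not_on_forb hR hx) (k := k) ?_ hr1 hb ?_
  · intro j _
    refine le_trans (card_le_card ?_) (hR.read j)
    intro S hS
    rw [mem_filter] at hS ⊢
    exact ⟨(mem_forb.1 hS.1).1, hS.2⟩
  · refine le_trans ?_ hr
    exact Nat.mul_le_mul_right _ (Nat.mul_le_mul_left _ (vJ_card hR))

/-- for all terms -/
private theorem vis_all (hR : RefF o q F k L) {T : Finset (Fin n)} :
    ∑ x ∈ fstT o q F rk h i T, (blk o (forb F rk i T) (vJ F i) T x).card ≤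
      (k * L) * (fstT o q F rk h i T).card := by
  calc ∑ x ∈ fstT o q F rk h i T, (blk o (forb F rk i T) (vJ F i) T x).card
      ≤ ∑ _x ∈ fstT o q F rk h i T, k * L := by
        refine sum_le_sum fun x _ => le_trans (card_le_card ?_) (vJ_card hR (i := i))
        intro j hj
        exact (mem_blk.1 hj).1
    _ = (k * L) * (fstT o q F rk h i T).card := by rw [sum_const, smul_eq_mul, mul_comm]

/-- the total of the blocked variables -/
private theorem vis_tot (hR : RefF o q F k L) (hrk : Function.Injective rk) (hr1 : 1 ≤ r)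
    (hr : k * (k * L) * 2 ^ s ≤ 2 ^ r)
    (hbad : 4 * k * L * badM o q F rk s h i ≤ (pvS o q h i).card) :
    ∑ T ∈ F.filter (fun T => i ∈ T),
      ∑ x ∈ fstT o q F rk h i T, (blk o (forb F rk i T) (vJ F i) T x).card ≤
      (4 * r * s + 2) * (pvS o q h i).card := by
  classical
  have h1 : ∀ T ∈ F.filter (fun T => i ∈ T),
      ∑ x ∈ fstT o q F rk h i T, (blk o (forb F rk i T) (vJ F i) T x).card ≤
      (4 * r * s + 1) * (fstT o q F rk h i T).card +
        (if T ∈ badT o q F rk s h i then (k * L) * (fstT o q F rk h i T).card else 0) := by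
    intro T hT
    rw [mem_filter] at hT
    by_cases hb : T ∈ badT o q F rk s h i
    · rw [if_pos hb]
      exact le_trans (vis_all hR) (Nat.le_add_left _ _)
    · rw [if_neg hb, add_zero]
      apply vis_good hR hr1 hr
      by_contra hcon
      exact hb (mem_badT.2 ⟨hT.1, hT.2, hcon⟩)
  refine le_trans (sum_le_sum h1) ?_
  rw [sum_add_distrib, ← mul_sum, sum_fstT hR hrk, ← sum_filter, ← mul_sum]
  have h2 : (F.filter (fun T => i ∈ T)).filter (fun T => T ∈ badT o q F rk s h i) =
      badT o q F rk s h i := by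
    ext T
    rw [mem_filter, mem_filter]
    constructor
    · exact fun hT => hT.2
    · exact fun hT => ⟨⟨(mem_badT.1 hT).1, (mem_badT.1 hT).2.1⟩, hT⟩
  rw [h2]
  have h3 : k * L * ∑ T ∈ badT o q F rk s h i, (fstT o q F rk h i T).card ≤
      (pvS o q h i).card := by
    refine le_trans ?_ hbad
    unfold badM
    calc k * L * ∑ T ∈ badT o q F rk s h i, (fstT o q F rk h i T).card
        ≤ 4 * (k * L * ∑ T ∈ badT o q F rk s h i, (fstT o q F rk h i T).card) :=
          Nat.le_mul_of_pos_left _ (by norm_num)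
      _ = _ := by ring
  calc (4 * r * s + 1) * (pvS o q h i).card +
      k * L * ∑ T ∈ badT o q F rk s h i, (fstT o q F rk h i T).card
      ≤ (4 * r * s + 1) * (pvS o q h i).card + (pvS o q h i).card := Nat.add_le_add_left h3 _
    _ = (4 * r * s + 2) * (pvS o q h i).card := by ring

/-- the sum over the invisible variables -/
private theorem vis_inv (hR : RefF o q F k L) (hrk : Function.Injective rk) (hh : OrL o h)
    (hkL : 0 < k * L) {V : Finset (Fin n)}
    (hV : ∀ j, j ≠ i → j ∉ V → k * L * (cU o q h i j).card ≤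
      k * L * (cD o q h i j).card + (pvS o q h i).card) :
    ∑ T ∈ F.filter (fun T => i ∈ T), (fstT o q F rk h i T).card * (T.erase i \ V).card ≤
      (pvS o q h i).card + ∑ T ∈ F.filter (fun T => i ∈ T),
      ∑ x ∈ fstT o q F rk h i T, (blk o (forb F rk i T) (vJ F i) T x).card := by
  classical
  set Jv : Finset (Fin n) := (vJ F i).filter fun j => j ≠ i ∧ j ∉ V with hJv
  have hJsub : Jv ⊆ vJ F i := filter_subset _ _
  -- one variable
  have h1 : ∀ j ∈ Jv, k * L * ∑ T ∈ F.filter (fun T => i ∈ T ∧ j ∈ T),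
      (fstT o q F rk h i T).card ≤ (pvS o q h i).card + k * L *
        ∑ T ∈ F.filter (fun T => i ∈ T ∧ j ∉ T),
        ((fstT o q F rk h i T).filter fun x =>
          ∃ S ∈ forb F rk i T, j ∈ S ∧ On o (S.erase j) x).card := by
    intro j hj
    rw [hJv, mem_filter] at hj
    have ha := hV j hj.2.1 hj.2.2
    have hb := Nat.mul_le_mul_left (k * L) (cD_le hR hrk hh hj.2.1 (j := j) (i := i))
    rw [mul_add, mul_add] at hb
    omega
  -- sum
  have h2 : k * L * ∑ j ∈ Jv, ∑ T ∈ F.filter (fun T => i ∈ T ∧ j ∈ T),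
      (fstT o q F rk h i T).card ≤ k * L * ((pvS o q h i).card +
        ∑ j ∈ Jv, ∑ T ∈ F.filter (fun T => i ∈ T ∧ j ∉ T),
        ((fstT o q F rk h i T).filter fun x =>
          ∃ S ∈ forb F rk i T, j ∈ S ∧ On o (S.erase j) x).card) := by
    rw [mul_add, mul_sum, mul_sum]
    refine le_trans (sum_le_sum h1) ?_
    rw [sum_add_distrib, sum_const, smul_eq_mul]
    refine Nat.add_le_add_right (Nat.mul_le_mul_right _ ?_) _
    exact (card_le_card hJsub).trans (vJ_card hR)
  have h3 := Nat.le_of_mul_le_mul_left h2 hkL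
  -- left side
  have h4 : ∑ j ∈ Jv, ∑ T ∈ F.filter (fun T => i ∈ T ∧ j ∈ T), (fstT o q F rk h i T).card =
      ∑ T ∈ F.filter (fun T => i ∈ T), (fstT o q F rk h i T).card * (T.erase i \ V).card := by
    have h5 : ∀ j ∈ Jv, ∑ T ∈ F.filter (fun T => i ∈ T ∧ j ∈ T), (fstT o q F rk h i T).card =
        ∑ T ∈ F.filter (fun T => i ∈ T),
          if j ∈ T then (fstT o q F rk h i T).card else 0 := by
      intro j _
      rw [← sum_filter, filter_filter]
    rw [sum_congr rfl h5, sum_comm]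
    refine sum_congr rfl fun T hT => ?_
    rw [mem_filter] at hT
    rw [← sum_filter, sum_const, smul_eq_mul, mul_comm]
    congr 2
    ext j
    rw [mem_filter, hJv, mem_filter, mem_sdiff, mem_erase]
    constructor
    · rintro ⟨⟨_, h6, h7⟩, h8⟩
      exact ⟨⟨h6, h8⟩, h7⟩
    · rintro ⟨⟨h6, h8⟩, h7⟩
      exact ⟨⟨sub_vJ hT.1 hT.2 h8, h6, h7⟩, h8⟩
  -- right side
  have h6 : ∑ j ∈ Jv, ∑ T ∈ F.filter (fun T => i ∈ T ∧ j ∉ T),
        ((fstT o q F rk h i T).filter fun x =>
          ∃ S ∈ forb F rk i T, j ∈ S ∧ On o (S.erase j) x).card ≤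
      ∑ T ∈ F.filter (fun T => i ∈ T),
      ∑ x ∈ fstT o q F rk h i T, (blk o (forb F rk i T) (vJ F i) T x).card := by
    have h5 : ∀ j ∈ Jv, ∑ T ∈ F.filter (fun T => i ∈ T ∧ j ∉ T),
        ((fstT o q F rk h i T).filter fun x =>
          ∃ S ∈ forb F rk i T, j ∈ S ∧ On o (S.erase j) x).card =
        ∑ T ∈ F.filter (fun T => i ∈ T),
          if j ∉ T then ((fstT o q F rk h i T).filter fun x =>
          ∃ S ∈ forb F rk i T, j ∈ S ∧ On o (S.erase j) x).card else 0 := by
      intro j _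
      rw [← sum_filter, filter_filter]
    rw [sum_congr rfl h5, sum_comm]
    refine sum_le_sum fun T _ => ?_
    rw [← sum_filter]
    exact vis_dc Jv hJsub T
  rw [h4] at h3
  exact h3.trans (Nat.add_le_add_left h6 _)

private theorem vis_arith (M Q a b c : ℕ) (hM : 0 < M)
    (hE : (4 * Q + 1) * M ≤ c + ((4 * Q + 1) * a + (4 * Q + 1) * b)) (hC : c ≤ Q * M)
    (ha : 4 * a ≤ M) (hb : 2 * b ≤ M) : False := by
  have h8 : 4 * (a + b) ≤ 3 * M := by omega
  have h9 := Nat.mul_le_mul_left (4 * Q + 1) h8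
  have h10 : (4 * Q + 1) * (4 * (a + b)) = 4 * ((4 * Q + 1) * a + (4 * Q + 1) * b) := by ring
  have h11 : 4 * ((4 * Q + 1) * M) ≤ 4 * (Q * M) + (4 * Q + 1) * (3 * M) := by
    rw [h10] at h9
    omega
  nlinarith

/- PROOF. Let `J := (F.filter (i ∈ ·)).biUnion id`, `|J| ≤ k * L`; `M := |pvS|`, `e T := |fstT T|`,
`Λ := 4 * r * s + 1`.
(1) For `j ∈ J`, `j ≠ i`, `j ∉ V`: `k L (|cU j| - |cD j|) ≤ M`. Sum over these at most `k L` many
`j`: `∑_j (|cU j| - |cD j|) ≤ M` (`k L > 0` since `M > 0`).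
(2) `cD_le`: `∑_{T ∋ i, j} e T ≤ |cU j| - |cD j| + ∑_{T ∋ i, T ∌ j} #{x ∈ fstT T | j blocked}`. Sum
over the `j` of (1): `∑_{T ∋ i} e T * |T.erase i \ V| ≤ M + ∑_{T ∋ i} ∑_{x ∈ fstT T}
|blk o (forb F rk i T) J T x|`.
(3) For a term which is not in `badT` the inner sum is at most `Λ * e T` (`blk_sum` with
`𝓕 := forb F rk i T`, `E := fstT T`, `not_on_forb`, `on_of_fstT`; `forb ⊆ F` for `hread`); for
the others at most `|J| * e T ≤ k L e T`. With `k * L * badM ≤ M` the total is `≤ (Λ + 1) M`. So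
`∑_{T ∋ i} e T * |T.erase i \ V| ≤ (Λ + 2) M`.
(4) Suppose the conclusion fails: every `T ∋ i`, `T ∈ F`, with `M ≤ 2 k e T`, `T ∉ badT` has
`|T.erase i \ V| ≥ 4 (Λ + 2) + 1`. The terms in `badT` have mass `≤ M / 4` (`4 k L badM ≤ M`), the
at most `k` terms with `2 k e T < M` have mass `< M / 2`, so the remaining ones have mass `≥ M / 4`
(all by `sum_fstT`), and `(Λ + 2) M ≥ (M / 4) (4 (Λ + 2) + 1) > (Λ + 2) M`. -/
theorem vis_term (hR : RefF o q F k L) (hrk : Function.Injective rk) (hh : OrL o h)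
    (hM : 0 < (pvS o q h i).card) (hr1 : 1 ≤ r) (hr : k * (k * L) * 2 ^ s ≤ 2 ^ r)
    (hbad : 4 * k * L * badM o q F rk s h i ≤ (pvS o q h i).card) {V : Finset (Fin n)}
    (hV : ∀ j, j ≠ i → j ∉ V → k * L * (cU o q h i j).card ≤
      k * L * (cD o q h i j).card + (pvS o q h i).card) :
    ∃ T ∈ F, i ∈ T ∧ (pvS o q h i).card ≤ 2 * k * (fstT o q F rk h i T).card ∧
      2 ^ n ≤ 2 ^ s * (2 ^ T.card * (fstT o q F rk h i T).card) ∧
      (T.erase i \ V).card ≤ 4 * (4 * r * s + 3) := by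
  classical
  have hsum := sum_fstT hR hrk (h := h) (i := i)
  -- `k` and `L` are positive
  have hne : (F.filter fun T => i ∈ T).Nonempty := by
    rw [nonempty_iff_ne_empty]
    intro h0
    rw [h0, sum_empty] at hsum
    omega
  obtain ⟨T0, hT0⟩ := hne
  have hk : 0 < k := lt_of_lt_of_le (card_pos.2 ⟨T0, hT0⟩) (hR.read i)
  have hT0' := mem_filter.1 hT0
  have hL : 0 < L := lt_of_lt_of_le (card_pos.2 ⟨i, hT0'.2⟩) (hR.len T0 hT0'.1)
  have hkL : 0 < k * L := Nat.mul_pos hk hL
  have hA := vis_inv hR hrk hh hkL hV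
  have hB := vis_tot hR hrk hr1 hr hbad
  have hC : ∑ T ∈ F.filter (fun T => i ∈ T),
      (fstT o q F rk h i T).card * (T.erase i \ V).card ≤
      (4 * r * s + 3) * (pvS o q h i).card := by
    refine hA.trans ((Nat.add_le_add_left hB _).trans (le_of_eq ?_))
    ring
  by_contra hcon
  push Not at hcon
  -- lower bound term by term
  have hD : ∀ T ∈ F.filter (fun T => i ∈ T),
      (4 * (4 * r * s + 3) + 1) * (fstT o q F rk h i T).card ≤
        (fstT o q F rk h i T).card * (T.erase i \ V).card +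
        ((if T ∈ badT o q F rk s h i then
          (4 * (4 * r * s + 3) + 1) * (fstT o q F rk h i T).card else 0) +
        (if 2 * k * (fstT o q F rk h i T).card < (pvS o q h i).card then
          (4 * (4 * r * s + 3) + 1) * (fstT o q F rk h i T).card else 0)) := by
    intro T hT
    rw [mem_filter] at hT
    by_cases hb : T ∈ badT o q F rk s h i
    · rw [if_pos hb]
      omega
    · rw [if_neg hb]
      by_cases hs : 2 * k * (fstT o q F rk h i T).card < (pvS o q h i).card
      · rw [if_pos hs]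
        omega
      · rw [if_neg hs]
        have hb' : 2 ^ n ≤ 2 ^ s * (2 ^ T.card * (fstT o q F rk h i T).card) := by
          by_contra hcon'
          exact hb (mem_badT.2 ⟨hT.1, hT.2, hcon'⟩)
        have := hcon T hT.1 hT.2 (not_lt.1 hs) hb'
        rw [add_zero, add_zero, mul_comm]
        exact Nat.mul_le_mul_left _ this
  have hE := sum_le_sum hD
  rw [← mul_sum, hsum, sum_add_distrib, sum_add_distrib, ← sum_filter, ← sum_filter, ← mul_sum,
    ← mul_sum] at hE
  have h2 : (F.filter (fun T => i ∈ T)).filter (fun T => T ∈ badT o q F rk s h i) =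
      badT o q F rk s h i := by
    ext T
    rw [mem_filter, mem_filter]
    constructor
    · exact fun hT => hT.2
    · exact fun hT => ⟨⟨(mem_badT.1 hT).1, (mem_badT.1 hT).2.1⟩, hT⟩
  rw [h2] at hE
  have hbad' : 4 * ∑ T ∈ badT o q F rk s h i, (fstT o q F rk h i T).card ≤
      (pvS o q h i).card := by
    refine le_trans ?_ hbad
    unfold badM
    calc 4 * ∑ T ∈ badT o q F rk s h i, (fstT o q F rk h i T).card
        ≤ (k * L) * (4 * ∑ T ∈ badT o q F rk s h i, (fstT o q F rk h i T).card) :=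
          Nat.le_mul_of_pos_left _ hkL
      _ = _ := by ring
  have hsm : ∀ Sm : Finset (Finset (Fin n)), Sm ⊆ F.filter (fun T => i ∈ T) →
      (∀ T ∈ Sm, 2 * k * (fstT o q F rk h i T).card < (pvS o q h i).card) →
      2 * ∑ T ∈ Sm, (fstT o q F rk h i T).card ≤ (pvS o q h i).card := by
    intro Sm hS1 hS2
    refine Nat.le_of_mul_le_mul_left ?_ hk
    calc k * (2 * ∑ T ∈ Sm, (fstT o q F rk h i T).card)
        = ∑ T ∈ Sm, 2 * k * (fstT o q F rk h i T).card := by rw [← mul_sum]; ring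
      _ ≤ ∑ _T ∈ Sm, (pvS o q h i).card := sum_le_sum fun T hT => (hS2 T hT).le
      _ = Sm.card * (pvS o q h i).card := by rw [sum_const, smul_eq_mul]
      _ ≤ k * (pvS o q h i).card :=
        Nat.mul_le_mul_right _ ((card_le_card hS1).trans (hR.read i))
  exact vis_arith _ (4 * r * s + 3) _ _ _ hM hE hC hbad'
    (hsm _ (filter_subset _ _) fun T hT => (mem_filter.1 hT).2)

end Pool.Agent.H.MP_cba12a_lc.RK
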