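import Pool.Agent.H.MP_cba12a_lc.RK.Ext
import Pool.Agent.H.MP_cba12a_lc.RK.EstV
import Pool.Agent.H.MP_cba12a_lc.RK.EstQ
import Pool.Agent.H.MP_cba12a_lc.RK.Near
import Pool.Agent.H.MP_cba12a_lc.RK.Vis

/-!
The main step: if the mass of the pivotal points of some variable is not small, and not bad, then
some candidate passes the test.
-/

namespace Pool.Agent.H.MP_cba12a_lc.RK

open Finset Pool.Agent.H.MP_cba12a_lc

variable {n m : ℕ} {o : Fin n → Bool} {f q : (Fin n → Bool) → Bool} {ω : Fin m → Fin n → Bool}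
  {R : ℕ} {τ : ℝ} {h : List (List Lit)} {V : List Lit}

private theorem step_card_le_pr {E : Finset (Fin n → Bool)} {P : (Fin n → Bool) → Prop}
    (hE : ∀ x ∈ E, P x) : (E.card : ℝ) / 2 ^ n ≤ pr P := by
  classical
  rw [pr_def, mu_eq_card]
  refine div_le_div_of_nonneg_right ?_ (by positivity)
  have h1 : E ⊆ univ.filter fun x => decide (P x) = true := by
    intro x hx
    rw [mem_filter]
    exact ⟨mem_univ _, decide_eq_true (hE x hx)⟩
  exact_mod_cast card_le_card h1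

private theorem step_pr_on (A : Finset (Fin n)) : pr (fun x => On o A x) = (1 / 2 : ℝ) ^ A.card := by
  have h1 := pr_on o A (fun _ => True)
  have h2 : pr (fun _ : Fin n → Bool => True) = 1 := by
    classical
    rw [pr_def]
    unfold mu ct
    rw [Fintype.card_fun, Fintype.card_fin, Fintype.card_bool]
    simp
  rw [h2, mul_one] at h1
  rw [← h1]
  exact pr_congr fun x => by simp

/- PROOF. Let `M := mu (pv q h i (o i) [])` and `Λ := 4 * (4 * r * s + 3)`.
(1) `vis_term` with `V := {j | (j, o j) ∈ vis (4 k L) ..}` (the hypothesis: if `j` is not in the list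
although `(j, o j) ∈ V` then `4 M > 4 k L * beta`, by `vis_of`; if `(j, o j) ∉ V` then `j` is in no
term and `cU_le` gives `|cU| ≤ |cD|`): a term `T` with `M ≤ 2 k e`, `e := |fstT T| / 2^n`,
`1 ≤ 2^s 2^|T| e`, and `|T.erase i \ Vis| ≤ Λ`. `ρ ≤ e` as `2 k ρ ≤ M`, `k ≥ 1`.
(2) `ext_ex` with `Z := []`, `U := vis ..` (`length_vis_le`): a list `A`, with
`|T.erase i \ vars A| ≤ Λ`. `(1/2)^|vars A| ≥ (1/2)^|T| ≥ e ≥ ρ` (`fstT ⊆ On T`, `pr_on`).
(3) `ext_ex` with `Z := A`, `U := qls Θ V .. A` (`length_qls_le`): a list `B'`. Candidate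
`C := (i, o i) :: B'`, `K := insert i (vars o B') ⊆ T`, and `vars o A ⊆ K`.
(4) the `j ∈ T \ K` are not in `qls` (they are in `V`, and not in `vars A`), so by `qls_of`
`Θ * inf o q (vars A) j < 2 * (1/2)^|vars A|`. There are at most `Λ` of them. `near`:
`pr (On K, q = false) ≤ 2^Λ * Λ * 2 / Θ * (1/2)^|vars A| ≤ 2^Λ * Λ * 2 / Θ * 2^(1 + Λ) * (1/2)^|T|
≤ 2^(2 Λ + s + 2) * Λ / Θ * e ≤ e / (4 A0)` by `hΘ` (`(1/2)^|T| ≤ 2^s e`; `|T| ≤ 1 + |vars A| + Λ`).
(5) test: `mu (ev q true C h) ≥ e` (at the points of `fstT` all literals of `C ⊆ T` hold),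
`mu (ev q false C h) ≤ pr (On K, q = false) ≤ e / (4 A0)`; `cnt_est`: `cnt false * A0 ≤ cnt true`
since `A0 * (e / (4 A0) + 2 τ) ≤ e - 2 τ` by `hA`, and `m ≤ cnt true * B` by `hB`. -/
theorem step_ne {F : Finset (Finset (Fin n))} {rk : Finset (Fin n) → ℕ}
    {k L r s c N A0 B Θ : ℕ} {ρ : ℝ} {i : Fin n}
    (hS : Smp o f q ω R τ V) (hR : RefF o q F k L) (hrk : Function.Injective rk)
    (hFV : ∀ T ∈ F, ∀ j ∈ T, ((j : ℕ), o j) ∈ V)
    (hr : h.length ≤ R) (hh : ∀ D ∈ h, ∀ l ∈ D, l ∈ V)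
    (hc : (27 / 64 : ℝ) ^ c * (2 * k) < 1)
    (hr1 : 1 ≤ r) (hrs : k * (k * L) * 2 ^ s ≤ 2 ^ r)
    (hΘ : A0 * (4 * (4 * r * s + 3)) * 2 ^ (2 * (4 * (4 * r * s + 3)) + s + 4) ≤ Θ)
    (hN1 : (2 * k * L ^ 2 + 1) ^ (3 * c) ≤ N) (hN3 : (4 * Θ ^ 2 + 1) ^ (3 * c) ≤ N)
    (hN2 : (1 / ρ) ^ 10 ≤ (N : ℝ)) (hA0 : 1 ≤ A0)
    (hτ1 : 256 * τ ≤ ρ) (hτ2 : (32 * L + 12) * τ ≤ ρ) (hτ3 : (8 * Θ + 4) * τ ≤ ρ)
    (hτ4 : 4 * (A0 + 1) * τ ≤ ρ) (hB : 1 ≤ ρ / 2 * B)
    (hρ : 2 * k * ρ ≤ mu (pv q h i (o i) [])) (hM : 0 < mu (pv q h i (o i) []))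
    (hbad : 4 * k * L * badM o q F rk s h i ≤ (pvS o q h i).card) :
    goodR A0 B N (3 * c) Θ (4 * k * L) V (smp f ω) h ≠ [] := by
  classical
  have hτ := hS.hτ
  have hm' : (0 : ℝ) < m := by exact_mod_cast hS.hm
  have hρ0 : 0 < ρ := by linarith
  have hhO : OrL o h := fun D hD l hl => hS.lits l (hh D hD l hl)
  have hp : (0 : ℝ) < 2 ^ n := by positivity
  have hMS : 0 < (pvS o q h i).card := by
    rw [mu_pv_eq] at hM
    by_contra hcon
    have h0 : (pvS o q h i).card = 0 := by omega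
    rw [h0] at hM
    simp at hM
  have hk : 1 ≤ k := by
    by_contra hcon
    have h1 := sum_fstT (h := h) (i := i) hR hrk
    have h2 : F.filter (fun T => i ∈ T) = ∅ := by
      refine card_eq_zero.1 ?_
      have := hR.read i
      omega
    rw [h2, sum_empty] at h1
    omega
  have hk' : (1 : ℝ) ≤ k := by exact_mod_cast hk
  have hMκ : (8 * ((4 * k * L : ℕ) : ℝ) + 12) * τ ≤ mu (pv q h i (o i) []) := by
    have h1 : (8 * ((4 * k * L : ℕ) : ℝ) + 12) * τ ≤ k * ((32 * L + 12) * τ) := by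
      push_cast
      have h0 : 12 * τ ≤ k * (12 * τ) := le_mul_of_one_le_left (by positivity) hk'
      nlinarith
    have h2 : (k : ℝ) * ((32 * L + 12) * τ) ≤ k * ρ :=
      mul_le_mul_of_nonneg_left hτ2 (by positivity)
    have h3 : 0 < (k : ℝ) * ρ := by positivity
    linarith
  set Λ : ℕ := 4 * (4 * r * s + 3) with hΛ
  set Vs : List Lit := vis (4 * k * L) V (smp f ω) h ((i : ℕ), o i) with hVs
  obtain ⟨T, hTF, hiT, hT1, hT2, hT3⟩ := vis_term (V := vars o Vs) (r := r) (s := s) hR hrk hhO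
    hMS hr1 hrs hbad (by
    intro j hj hjV
    by_cases hjVl : ((j : ℕ), o j) ∈ V
    · have h1 : ¬ (4 * mu (pv q h i (o i) []) ≤ ((4 * k * L : ℕ) : ℝ) * beta o q h i j) :=
        fun hc => hjV (mem_vars.2 (vis_of hS hr hhO hMκ hj hjVl hc))
      rw [mu_pv_eq] at h1
      unfold beta at h1
      have h2 := not_le.1 h1
      rw [mul_div_assoc', mul_div_assoc', div_lt_div_iff_of_pos_right hp] at h2
      push_cast at h2
      have h3 : (k : ℝ) * L * (cU o q h i j).card ≤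
          k * L * (cD o q h i j).card + (pvS o q h i).card := by nlinarith
      exact_mod_cast h3
    · have h1 := cU_le (h := h) hR hrk hj
      have h2 : F.filter (fun T => i ∈ T ∧ j ∈ T) = ∅ := by
        rw [filter_eq_empty_iff]
        intro T hT hc
        exact hjVl (hFV T hT j hc.2)
      rw [h2, sum_empty, add_zero] at h1
      have := Nat.mul_le_mul_left (k * L) h1
      omega)
  set e : ℝ := ((fstT o q F rk h i T).card : ℝ) / 2 ^ n with he
  have hTk : mu (pv q h i (o i) []) ≤ 2 * k * e := by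
    rw [mu_pv_eq, he, mul_div_assoc', div_le_div_iff_of_pos_right hp]
    exact_mod_cast hT1
  have heρ : ρ ≤ e := by
    have h1 : 2 * k * ρ ≤ 2 * k * e := hρ.trans hTk
    exact le_of_mul_le_mul_left h1 (by positivity)
  have he0 : 0 < e := by linarith
  have he1 : (1 / 2 : ℝ) ^ T.card ≤ 2 ^ s * e := by
    have h1 : (2 : ℝ) ^ n ≤ 2 ^ s * (2 ^ T.card * ((fstT o q F rk h i T).card : ℝ)) := by
      exact_mod_cast hT2
    rw [one_div_pow, div_le_iff₀ (by positivity), he, ← mul_div_assoc, div_mul_eq_mul_div,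
      le_div_iff₀ hp, one_mul]
    calc (2 : ℝ) ^ n ≤ 2 ^ s * (2 ^ T.card * ((fstT o q F rk h i T).card : ℝ)) := h1
      _ = _ := by ring
  have he2 : e ≤ (1 / 2 : ℝ) ^ T.card := by
    rw [← step_pr_on (o := o) T, he]
    exact step_card_le_pr fun x hx => on_of_fstT hx
  -- first extension
  have hVsV : ∀ l ∈ Vs, l ∈ V := fun l hl => by
    rw [hVs] at hl
    unfold vis at hl
    exact (List.mem_filter.1 hl).1
  have hVsN : (Vs.length + 1) ^ (3 * c) ≤ N := by
    have h1 := length_vis_le (F := F) (rk := rk) (k := k) (L := L) hS hR hrk hr hhO hM hMκ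
    exact (Nat.pow_le_pow_left (by rw [hVs]; omega) _).trans hN1
  obtain ⟨A, hA1, hA2, -, hA4⟩ := ext_ex (F := F) (rk := rk) (T := T) (k := k) (N := N) (c := c)
    (ρ := ρ) (i := i) (Z := []) (U := Vs) hS hr hhO hτ1 hc (hFV T hTF) heρ hTk hVsV (by simp)
    hVsN hN2
  have hvars : ∀ {Z : List Lit}, (∀ l ∈ Z, ∃ j ∈ T.erase i, l = ((j : ℕ), o j)) →
      vars o Z ⊆ T.erase i := by
    intro Z hZ j hj
    obtain ⟨j', hj', hjj⟩ := hZ _ (mem_vars.1 hj)
    have : j = j' := Fin.ext (congrArg Prod.fst hjj)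
    rw [this]
    exact hj'
  have hAT := hvars hA2
  have hAsub : (T.erase i \ vars o A).card ≤ Λ := by
    refine (card_le_card ?_).trans hT3
    intro j hj
    rw [mem_sdiff] at hj ⊢
    refine ⟨hj.1, fun hc => hj.2 (mem_vars.2 (hA4 j hj.1 (mem_vars.1 hc)))⟩
  have hAcard : (vars o A).card ≤ T.card :=
    card_le_card (hAT.trans (erase_subset _ _))
  have hw0 : (1 / 2 : ℝ) ^ T.card ≤ (1 / 2 : ℝ) ^ (vars o A).card :=
    pow_le_pow_of_le_one (by norm_num) (by norm_num) hAcard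
  have hw : (8 * Θ + 4) * τ ≤ (1 / 2 : ℝ) ^ (vars o A).card := by linarith
  have hAV : ∀ l ∈ A, l ∈ V := by
    intro l hl
    obtain ⟨j, hj, rfl⟩ := hA2 l hl
    exact hFV T hTF j (mem_of_mem_erase hj)
  have hΛ0 : 0 < Λ := by rw [hΛ]; omega
  have hΘ0 : 0 < Θ := by
    refine lt_of_lt_of_le ?_ hΘ
    positivity
  -- second extension
  set Qs : List Lit := qls Θ V (smp f ω) A with hQs
  have hQsV : ∀ l ∈ Qs, l ∈ V := fun l hl => by
    rw [hQs] at hl
    unfold qls at hl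
    exact (List.mem_filter.1 hl).1
  have hQsN : (Qs.length + 1) ^ (3 * c) ≤ N := by
    have h1 := length_qls_le hS hΘ0 hAV hw
    exact (Nat.pow_le_pow_left (by rw [hQs]; omega) _).trans hN3
  obtain ⟨B', hB1, hB2, hB3, hB4⟩ := ext_ex (F := F) (rk := rk) (T := T) (k := k) (N := N)
    (c := c) (ρ := ρ) (i := i) (Z := A) (U := Qs) hS hr hhO hτ1 hc (hFV T hTF) heρ hTk hQsV hA2
    hQsN hN2
  have hBT := hvars hB2
  have hAB : vars o A ⊆ vars o B' := fun j hj => mem_vars.2 (hB3 _ (mem_vars.1 hj))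
  set K : Finset (Fin n) := insert i (vars o B') with hK
  have hKT : K ⊆ T := by
    intro j hj
    rw [hK, mem_insert] at hj
    rcases hj with rfl | hj
    · exact hiT
    · exact mem_of_mem_erase (hBT hj)
  have hAK : vars o A ⊆ K := hAB.trans (subset_insert _ _)
  set Cd : List Lit := ((i : ℕ), o i) :: B' with hCd
  have hCdO : ∀ l ∈ Cd, ∃ j : Fin n, l = ((j : ℕ), o j) := by
    intro l hl
    rcases List.mem_cons.1 hl with rfl | hl
    · exact ⟨i, rfl⟩
    · obtain ⟨j, _, hj⟩ := hB2 l hl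
      exact ⟨j, hj⟩
  have hCdn : ∀ l ∈ Cd, l.1 < n := by
    intro l hl
    obtain ⟨j, rfl⟩ := hCdO l hl
    exact j.2
  have hCK : vars o Cd = K := by
    ext j
    rw [mem_vars, hCd, List.mem_cons, hK, mem_insert, mem_vars]
    refine or_congr_left ?_
    constructor
    · intro h1
      exact Fin.ext (congrArg Prod.fst h1)
    · rintro rfl
      rfl
  have hsatC : ∀ x : Fin n → Bool, sat (List.ofFn x) Cd = true ↔ On o K x := by
    intro x
    rw [sat_iff_on hCdO, hCK]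
  -- near implicant
  have hDK : T \ K ⊆ T.erase i \ vars o A := by
    intro j hj
    rw [mem_sdiff] at hj
    rw [mem_sdiff, mem_erase]
    refine ⟨⟨?_, hj.1⟩, fun hc => hj.2 (hAK hc)⟩
    rintro rfl
    exact hj.2 (mem_insert_self _ _)
  have hDcard : (T \ K).card ≤ Λ := (card_le_card hDK).trans hAsub
  set w : ℝ := (1 / 2 : ℝ) ^ (vars o A).card with hwdef
  have hw00 : 0 < w := by rw [hwdef]; positivity
  have hΘ' : (0 : ℝ) < Θ := by exact_mod_cast hΘ0
  have hinf : ∀ j ∈ T \ K, inf o q (vars o A) j ≤ 2 * w / Θ := by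
    intro j hj
    by_contra hcon
    have h1 := (not_le.1 hcon).le
    have h2 : 2 * w ≤ Θ * inf o q (vars o A) j := by
      rw [div_le_iff₀ hΘ'] at h1
      linarith
    have hjT := (mem_sdiff.1 hj).1
    have hjA : j ∉ vars o A := (mem_sdiff.1 (hDK hj)).2
    have hji : j ∈ T.erase i := (mem_sdiff.1 (hDK hj)).1
    have h3 := qls_of hS hAV hw hjA (hFV T hTF j hjT) h2
    have h4 := hB4 j hji (by rw [hQs]; exact h3)
    exact (mem_sdiff.1 hj).2 (mem_insert_of_mem (mem_vars.2 h4))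
  have hnear := near (o := o) (q := q) (T := T) (K := K) (A := vars o A)
    (fun x hx => (hR.iff x).2 ⟨T, hTF, hx⟩) hKT hAK
  have hTcard : T.card ≤ 1 + (vars o A).card + Λ := by
    have h1 : T ⊆ insert i (vars o A ∪ (T.erase i \ vars o A)) := by
      intro j hj
      rw [mem_insert, mem_union, mem_sdiff, mem_erase]
      by_cases h1 : j = i
      · exact Or.inl h1
      · by_cases h2 : j ∈ vars o A
        · exact Or.inr (Or.inl h2)
        · exact Or.inr (Or.inr ⟨⟨h1, hj⟩, h2⟩)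
    have h2 := (card_le_card h1).trans (card_insert_le _ _)
    have h3 := card_union_le (vars o A) (T.erase i \ vars o A)
    omega
  have hwT : w ≤ 2 ^ (1 + Λ) * (1 / 2 : ℝ) ^ T.card := by
    have h1 : (1 / 2 : ℝ) ^ (1 + (vars o A).card + Λ) ≤ (1 / 2 : ℝ) ^ T.card :=
      pow_le_pow_of_le_one (by norm_num) (by norm_num) hTcard
    have h2 : w = 2 ^ (1 + Λ) * (1 / 2 : ℝ) ^ (1 + (vars o A).card + Λ) := by
      rw [hwdef]
      have e1 : 1 + (vars o A).card + Λ = (1 + Λ) + (vars o A).card := by ring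
      have e2 : (2 : ℝ) ^ (1 + Λ) * (1 / 2 : ℝ) ^ (1 + Λ) = 1 := by
        rw [← mul_pow]
        norm_num
      rw [e1, pow_add (1 / 2 : ℝ) (1 + Λ), ← mul_assoc, e2, one_mul]
    rw [h2]
    exact mul_le_mul_of_nonneg_left h1 (by positivity)
  have hFPK : pr (fun x => On o K x ∧ q x = false) ≤ e / (4 * A0) := by
    have h1 : ∑ j ∈ T \ K, inf o q (vars o A) j ≤ Λ * (2 * w / Θ) := by
      calc ∑ j ∈ T \ K, inf o q (vars o A) j ≤ ∑ _j ∈ T \ K, 2 * w / Θ := sum_le_sum hinf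
        _ = ((T \ K).card : ℝ) * (2 * w / Θ) := by rw [sum_const, nsmul_eq_mul]
        _ ≤ Λ * (2 * w / Θ) := by
            refine mul_le_mul_of_nonneg_right ?_ (by positivity)
            exact_mod_cast hDcard
    have h2 : (2 : ℝ) ^ (T \ K).card ≤ 2 ^ Λ := pow_le_pow_right₀ (by norm_num) hDcard
    have h3 : pr (fun x => On o K x ∧ q x = false) ≤ 2 ^ Λ * (Λ * (2 * w / Θ)) := by
      refine hnear.trans ?_
      calc (2 : ℝ) ^ (T \ K).card * ∑ j ∈ T \ K, inf o q (vars o A) j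
          ≤ 2 ^ (T \ K).card * (Λ * (2 * w / Θ)) :=
            mul_le_mul_of_nonneg_left h1 (by positivity)
        _ ≤ 2 ^ Λ * (Λ * (2 * w / Θ)) := mul_le_mul_of_nonneg_right h2 (by positivity)
    have h4 : w ≤ 2 ^ (1 + Λ) * (2 ^ s * e) :=
      hwT.trans (mul_le_mul_of_nonneg_left he1 (by positivity))
    have hA0' : (1 : ℝ) ≤ A0 := by exact_mod_cast hA0
    have hΘr : (A0 : ℝ) * Λ * 2 ^ (2 * Λ + s + 4) ≤ Θ := by exact_mod_cast hΘ
    refine h3.trans ?_
    rw [le_div_iff₀ (by positivity)]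
    have h5 : 2 ^ Λ * (Λ * (2 * w / Θ)) * (4 * A0) =
        (8 * A0 * Λ * 2 ^ Λ * w) / Θ := by ring
    rw [h5, div_le_iff₀ hΘ']
    calc 8 * (A0 : ℝ) * Λ * 2 ^ Λ * w ≤ 8 * A0 * Λ * 2 ^ Λ * (2 ^ (1 + Λ) * (2 ^ s * e)) :=
          mul_le_mul_of_nonneg_left h4 (by positivity)
      _ = (A0 * Λ * 2 ^ (2 * Λ + s + 4)) * e := by
          rw [show 2 * Λ + s + 4 = 3 + Λ + (1 + Λ) + s by ring, pow_add, pow_add, pow_add]
          ring
      _ ≤ Θ * e := mul_le_mul_of_nonneg_right hΘr he0.le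
      _ = e * Θ := mul_comm _ _
  -- the test
  have hevF : mu (ev q false Cd h) ≤ e / (4 * A0) := by
    refine le_trans ?_ hFPK
    rw [mu_eq_pr]
    refine pr_mono fun x hx => ?_
    rw [ev_iff] at hx
    exact ⟨(hsatC x).1 hx.2.1, hx.1⟩
  have hevT : e ≤ mu (ev q true Cd h) := by
    rw [mu_eq_pr, he]
    refine step_card_le_pr fun x hx => ?_
    have h1 := (mem_fstT.1 hx).1
    rw [pv_iff] at h1
    rw [ev_iff, hsatC]
    exact ⟨h1.2.1, (on_of_fstT hx).mono hKT, h1.2.2.1⟩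
  have hA0' : (1 : ℝ) ≤ A0 := by exact_mod_cast hA0
  have hcT := abs_lt.1 (cnt_est hS hr hhO true hCdn)
  have hcF := abs_lt.1 (cnt_est hS hr hhO false hCdn)
  have hacc : acc8 A0 B (smp f ω) h Cd = true := by
    unfold acc8
    rw [Bool.and_eq_true, decide_eq_true_iff, decide_eq_true_iff, length_smp]
    constructor
    · have h1 : (cnt (smp f ω) false Cd h : ℝ) / m ≤ e / (4 * A0) + 2 * τ := by linarith
      have h2 : e - 2 * τ ≤ (cnt (smp f ω) true Cd h : ℝ) / m := by linarith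
      have h3 : (e / (4 * A0) + 2 * τ) * A0 ≤ e - 2 * τ := by
        have h4 : e / (4 * A0) * A0 = e / 4 := by field_simp
        rw [add_mul, h4]
        nlinarith
      have h4 : (cnt (smp f ω) false Cd h : ℝ) / m * A0 ≤ (cnt (smp f ω) true Cd h : ℝ) / m :=
        (mul_le_mul_of_nonneg_right h1 (by positivity)).trans (h3.trans h2)
      rw [div_mul_eq_mul_div, div_le_div_iff_of_pos_right hm'] at h4
      exact_mod_cast h4
    · have h2 : ρ / 2 ≤ (cnt (smp f ω) true Cd h : ℝ) / m := by linarith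
      have h3 : 1 ≤ (cnt (smp f ω) true Cd h : ℝ) / m * B :=
        hB.trans (mul_le_mul_of_nonneg_right h2 (by positivity))
      rw [div_mul_eq_mul_div, le_div_iff₀ hm', one_mul] at h3
      exact_mod_cast h3
  refine List.ne_nil_of_mem (a := Cd) ?_
  unfold goodR
  rw [List.mem_filter]
  refine ⟨?_, hacc⟩
  rw [List.mem_flatMap]
  refine ⟨((i : ℕ), o i), hFV T hTF i hiT, ?_⟩
  unfold candR
  rw [List.mem_flatMap]
  refine ⟨A, hA1, ?_⟩
  rw [List.mem_map]
  exact ⟨B', hB1, rfl⟩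

end Pool.Agent.H.MP_cba12a_lc.RK
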