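import Pool.Agent.H.MP_cba12a_lc.RK.Algo
import Pool.Agent.H.MP_cba12a_lc.Final4
import Pool.Agent.H.MP_cba12a_lc.Lg

/-!
The learner as a function of its input, and its running time.
-/

namespace Pool.Agent.H.MP_cba12a_lc.RK

open Pool.Agent.H.MP_5be563_lc.PT Pool.Agent.H.MP_cba12a_lc

/-- the basic parameter -/
def uu (n k a : ℕ) : ℕ := Nat.clog 2 (k * a * Nat.clog 2 (n + 2)) + 1

/-- the time bound `2 ^ (log₂ (2 k) * (log₂ (k a log₂ n)) ^ 2)` -/
def bd (n k a : ℕ) : ℕ :=
  2 ^ (Nat.clog 2 (2 * k) * Nat.clog 2 (k * a * Nat.clog 2 (n + 2)) ^ 2)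

/-! ### Powers of two, and comparison with a power of two -/

/-- `2 ^ e` if this is at most `T` -/
def dbl (e T : ℕ) : ℕ := (fun x => if 2 * x ≤ T then 2 * x else x)^[e] 1

/- PROOF. The iterates are `2 ^ j` for `j ≤ e`. -/
theorem dbl_eq {e T : ℕ} (h : 2 ^ e ≤ T) : dbl e T = 2 ^ e := by
  unfold dbl
  have key : ∀ j ≤ e, (fun x => if 2 * x ≤ T then 2 * x else x)^[j] 1 = 2 ^ j := by
    intro j
    induction j with
    | zero => intro _; rfl
    | succ j ih =>
      intro hj
      rw [Function.iterate_succ_apply', ih (by omega)]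
      have h1 : 2 ^ (j + 1) ≤ 2 ^ e := Nat.pow_le_pow_right (by norm_num) hj
      have h2 : 2 * 2 ^ j = 2 ^ (j + 1) := by rw [pow_succ, mul_comm]
      rw [h2, if_pos (h1.trans h)]
  exact key e le_rfl

theorem Time_dbl_bd (T j : ℕ) : (fun x => if 2 * x ≤ T then 2 * x else x)^[j] 1 ≤ T + 1 := by
  induction j with
  | zero => simp
  | succ j ih =>
    rw [Function.iterate_succ_apply']
    generalize (fun x => if 2 * x ≤ T then 2 * x else x)^[j] 1 = v at ih ⊢
    split_ifs with h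
    · omega
    · exact ih

/- PROOF. `Poly.iterate`; all iterates are `≤ T + 1`. -/
@[fun_prop]
theorem poly_dbl {α : Type} [Enc α] {e T : α → ℕ} (he : Poly e) (hT : Poly T) :
    Poly (fun a => dbl (e a) (T a)) := by
  unfold dbl
  refine Poly.iterate (f := fun a x => if 2 * x ≤ T a then 2 * x else x) (s := fun _ => 1)
    (n := e) (B := fun a => 2 * sz (T a) + 20) (by fun_prop) (by fun_prop) he ?_ ?_
  · exact ((PBdd.const 2).mul hT.sz_le).add (PBdd.const 20)
  · intro a j _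
    have h := Time_dbl_bd (T a) j
    simp only [sz_nat]
    omega

/-- comparison with a power of two -/
def dblT (e t : ℕ) : Bool := decide ((fun x => if x ≤ t then 2 * x else x)^[e] 1 ≤ t)

theorem dblT_eq (e t : ℕ) : dblT e t = decide (2 ^ e ≤ t) := by
  have key : ∀ j : ℕ, (fun x => if x ≤ t then 2 * x else x)^[j] 1 = 2 ^ j ∨
      (t < (fun x => if x ≤ t then 2 * x else x)^[j] 1 ∧ t < 2 ^ j) := by
    intro j
    induction j with
    | zero => left; rfl
    | succ j ih =>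
      rw [Function.iterate_succ_apply']
      generalize (fun x => if x ≤ t then 2 * x else x)^[j] 1 = v at ih ⊢
      rcases ih with rfl | ⟨h1, h2⟩
      · by_cases h : 2 ^ j ≤ t
        · left
          rw [if_pos h, pow_succ, mul_comm]
        · right
          rw [if_neg h]
          refine ⟨by omega, ?_⟩
          rw [pow_succ]
          omega
      · right
        rw [if_neg (by omega)]
        refine ⟨h1, ?_⟩
        rw [pow_succ]
        omega
  unfold dblT
  rw [decide_eq_decide]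
  rcases key e with h | ⟨h1, h2⟩
  · rw [h]
  · constructor <;> intro h <;> omega

theorem Time_dblT_bd (t j : ℕ) : (fun x => if x ≤ t then 2 * x else x)^[j] 1 ≤ 2 * t + 1 := by
  induction j with
  | zero => simp
  | succ j ih =>
    rw [Function.iterate_succ_apply']
    generalize (fun x => if x ≤ t then 2 * x else x)^[j] 1 = v at ih ⊢
    split_ifs with h
    · omega
    · exact ih

/- PROOF. `dblT_eq`, `Poly.iterate`; all iterates are `≤ 2 * t + 1`. -/
theorem poly_dblT {α : Type} [Enc α] {e t : α → ℕ} (he : Poly e) (ht : Poly t) :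
    Poly (fun a => decide (2 ^ e a ≤ t a)) := by
  have h1 : Poly (fun a => (fun x => if x ≤ t a then 2 * x else x)^[e a] 1) := by
    refine Poly.iterate (f := fun a x => if x ≤ t a then 2 * x else x) (s := fun _ => 1)
      (n := e) (B := fun a => 4 * sz (t a) + 20) (by fun_prop) (by fun_prop) he ?_ ?_
    · exact ((PBdd.const 4).mul ht.sz_le).add (PBdd.const 20)
    · intro a j _
      have h := Time_dblT_bd (t a) j
      simp only [sz_nat]
      omega
  have h2 : Poly (fun a => decide ((fun x => if x ≤ t a then 2 * x else x)^[e a] 1 ≤ t a)) := by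
    fun_prop
  refine (show (fun a => decide (2 ^ e a ≤ t a)) = _ from ?_) ▸ h2
  funext a
  exact (dblT_eq (e a) (t a)).symm

@[fun_prop]
theorem poly_powR {α : Type} [Enc α] {f : α → ℕ} (hf : Poly f) (k : ℕ) :
    Poly (fun a => f a ^ k) := by
  induction k with
  | zero =>
    simp only [pow_zero]
    fun_prop
  | succ k ih =>
    simp only [pow_succ]
    fun_prop

@[fun_prop]
theorem poly_fin4R {α : Type} [Enc α] {a : α → ℕ} {S : α → Samples} {H : α → List (List Lit)}
    (ha : Poly a) (hS : Poly S) (hH : Poly H) : Poly (fun p => fin4 (a p) (S p) (H p)) := by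
  unfold fin4
  fun_prop

/-! ### The parameters -/

/-- bound for the length of the terms; `c2` is a constant -/
def pL (c2 n k a : ℕ) : ℕ := c2 * (Nat.clog 2 (n + 2) + uu n k a ^ 2)

/-- `1 / pT` is the threshold for the influence; `T` is a bound for the powers of two -/
def pT (c1 T n k a : ℕ) : ℕ := dbl (uu n k a ^ 2) T ^ c1

/-- bound for the lengths of the lists -/
def pN (c3 T n k a : ℕ) : ℕ := T ^ c3 * (32 * k * a ^ 2 * (n + 1)) ^ 10

/-- `1 / pW` is the accuracy of the estimates -/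
def pW (c1 c2 T n k a : ℕ) : ℕ := 2 ^ 20 * k * a ^ 3 * (n + 1) * pL c2 n k a * pT c1 T n k a

/-- the learner, with the value `t = bd n k a` as a further argument -/
def learnT (c1 c2 c3 : ℕ) (p : (ℕ × ℕ × ℕ × Samples) × ℕ) : List (List Lit) :=
  fin4 p.1.2.2.1 p.1.2.2.2
    (coreR (32 * p.1.2.2.1) (64 * p.1.2.1 * p.1.2.2.1 ^ 2 * (p.1.1 + 1))
      (128 * p.1.2.1 * p.1.2.2.1 ^ 2 * (p.1.1 + 1))
      (pN c3 ((2 * p.2) ^ 8) p.1.1 p.1.2.1 p.1.2.2.1)
      (3 * (Nat.clog 2 (2 * p.1.2.1) + 1))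
      (pT c1 ((2 * p.2) ^ 8) p.1.1 p.1.2.1 p.1.2.2.1)
      (4 * p.1.2.1 * pL c2 p.1.1 p.1.2.1 p.1.2.2.1)
      (orient p.1.1 (2 * (p.1.1 + 1) * pW c1 c2 ((2 * p.2) ^ 8) p.1.1 p.1.2.1 p.1.2.2.1)
        p.1.2.2.2) p.1.2.2.2)

/-- the learner -/
def learn (c1 c2 c3 : ℕ) (p : ℕ × ℕ × ℕ × Samples) : List (List Lit) :=
  learnT c1 c2 c3 (p, bd p.1 p.2.1 p.2.2.1)

/- PROOF. `unfold`, `fun_prop`; if it times out give the parts names with own `Poly` lemmas. -/
theorem Time_poly_uu {α : Type} [Enc α] {n k a : α → ℕ} (hn : Poly n) (hk : Poly k)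
    (ha : Poly a) : Poly (fun p => uu (n p) (k p) (a p)) := by
  unfold uu
  fun_prop

theorem Time_poly_pL (c2 : ℕ) {α : Type} [Enc α] {n k a : α → ℕ} (hn : Poly n) (hk : Poly k)
    (ha : Poly a) : Poly (fun p => pL c2 (n p) (k p) (a p)) := by
  unfold pL
  have h := Time_poly_uu hn hk ha
  fun_prop

theorem Time_poly_pT (c1 : ℕ) {α : Type} [Enc α] {T n k a : α → ℕ} (hT : Poly T)
    (hn : Poly n) (hk : Poly k) (ha : Poly a) :
    Poly (fun p => pT c1 (T p) (n p) (k p) (a p)) := by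
  unfold pT
  have h := Time_poly_uu hn hk ha
  fun_prop

theorem Time_poly_pN (c3 : ℕ) {α : Type} [Enc α] {T n k a : α → ℕ} (hT : Poly T)
    (hn : Poly n) (hk : Poly k) (ha : Poly a) :
    Poly (fun p => pN c3 (T p) (n p) (k p) (a p)) := by
  unfold pN
  fun_prop

theorem Time_poly_pW (c1 c2 : ℕ) {α : Type} [Enc α] {T n k a : α → ℕ} (hT : Poly T)
    (hn : Poly n) (hk : Poly k) (ha : Poly a) :
    Poly (fun p => pW c1 c2 (T p) (n p) (k p) (a p)) := by
  unfold pW
  have h1 := Time_poly_pL c2 hn hk ha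
  have h2 := Time_poly_pT c1 hT hn hk ha
  fun_prop

theorem poly_learnT (c1 c2 c3 : ℕ) : Poly (learnT c1 c2 c3) := by
  unfold learnT
  have hT : Poly (fun p : (ℕ × ℕ × ℕ × Samples) × ℕ => (2 * p.2) ^ 8) := by fun_prop
  have hn : Poly (fun p : (ℕ × ℕ × ℕ × Samples) × ℕ => p.1.1) := by fun_prop
  have hk : Poly (fun p : (ℕ × ℕ × ℕ × Samples) × ℕ => p.1.2.1) := by fun_prop
  have ha : Poly (fun p : (ℕ × ℕ × ℕ × Samples) × ℕ => p.1.2.2.1) := by fun_prop
  have hS : Poly (fun p : (ℕ × ℕ × ℕ × Samples) × ℕ => p.1.2.2.2) := by fun_prop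
  have h1 := Time_poly_pN c3 hT hn hk ha
  have h2 := Time_poly_pT c1 hT hn hk ha
  have h3 := Time_poly_pL c2 hn hk ha
  have h4 := Time_poly_pW c1 c2 hT hn hk ha
  have h5 : Poly (fun p : (ℕ × ℕ × ℕ × Samples) × ℕ => 2 * (p.1.1 + 1) *
      pW c1 c2 ((2 * p.2) ^ 8) p.1.1 p.1.2.1 p.1.2.2.1) := by fun_prop
  have h6 := poly_orient hn h5 hS
  exact poly_fin4R ha hS (poly_coreR (by fun_prop) (by fun_prop) (by fun_prop) h1
    (by fun_prop) h2 (by fun_prop) h6 hS)

/- PROOF. As in `old/UnateReadK.lean`: `computedInTime_of_run (run_search poly_dblT poly_learnT)`. -/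
theorem time_learn (c1 c2 c3 : ℕ) : ∃ P : Polynomial ℕ, ComputedInTime (learn c1 c2 c3)
    (fun i => P.eval (bd i.1 i.2.1 i.2.2.1 + (code i).length)) := by
  refine computedInTime_of_run (f := learn c1 c2 c3)
    (g := fun p : ℕ × ℕ × ℕ × Samples => bd p.1 p.2.1 p.2.2.1)
    (run_search (g := fun p : ℕ × ℕ × ℕ × Samples => bd p.1 p.2.1 p.2.2.1) ?_
      (poly_learnT c1 c2 c3))
  unfold bd
  exact poly_dblT (by fun_prop) (by fun_prop)

end Pool.Agent.H.MP_cba12a_lc.RK
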